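import Pool.Agent.H741R3.BykDefs

/-!
If `O` has two real embeddings such that every unit has the same sign in both, then the difference
of the two orientation cocycles gives a homomorphism `Byk_2(O) → ℤ`. For `O` containing a square
root of `3` a certain closed `5`-cycle is detected by it.
-/

open scoped BigOperators

namespace Pool.Agent.H741R3.Byk

noncomputable section

variable {O : Type*} [CommRing O]

/-- Sign of a real number as an integer. -/
def sg (t : ℝ) : ℤ := ((SignType.sign t : SignType) : ℤ)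

lemma sg_pos {t : ℝ} (h : 0 < t) : sg t = 1 := by simp [sg, sign_pos h]
lemma sg_neg {t : ℝ} (h : t < 0) : sg t = -1 := by simp [sg, sign_neg h]
lemma sg_zero : sg 0 = 0 := by simp [sg]
lemma sg_mul (a b : ℝ) : sg (a * b) = sg a * sg b := by simp [sg, sign_mul]
lemma sg_neg_arg (a : ℝ) : sg (-a) = -sg a := by
  rcases lt_trichotomy a 0 with h | h | h
  · rw [sg_neg h, sg_pos (by linarith)]; rfl
  · subst h; simp [sg_zero]
  · rw [sg_pos h, sg_neg (by linarith)]

/-- The elementary identity behind the orientation cocycle. -/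
lemma sg_cocycle (a b : ℝ) (h : ¬ (a = 0 ∧ b = 0)) :
    sg (a * b) - sg ((a + b) * b) - sg ((a + b) * a) = -1 := by
  simp only [sg_mul]
  rcases lt_trichotomy a 0 with ha | ha | ha <;> rcases lt_trichotomy b 0 with hb | hb | hb
  · rw [sg_neg ha, sg_neg hb, sg_neg (by linarith : a + b < 0)]; norm_num
  · subst hb; rw [sg_neg ha, sg_zero, sg_neg (by linarith : a + 0 < 0)]; norm_num
  · rcases lt_trichotomy (a + b) 0 with hc | hc | hc
    · rw [sg_neg ha, sg_pos hb, sg_neg hc]; norm_num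
    · rw [sg_neg ha, sg_pos hb, hc, sg_zero]; norm_num
    · rw [sg_neg ha, sg_pos hb, sg_pos hc]; norm_num
  · subst ha; rw [sg_zero, sg_neg hb, sg_neg (by linarith : 0 + b < 0)]; norm_num
  · exact absurd ⟨ha, hb⟩ h
  · subst ha; rw [sg_zero, sg_pos hb, sg_pos (by linarith : 0 < 0 + b)]; norm_num
  · rcases lt_trichotomy (a + b) 0 with hc | hc | hc
    · rw [sg_pos ha, sg_neg hb, sg_neg hc]; norm_num
    · rw [sg_pos ha, sg_neg hb, hc, sg_zero]; norm_num
    · rw [sg_pos ha, sg_neg hb, sg_pos hc]; norm_num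
  · subst hb; rw [sg_pos ha, sg_zero, sg_pos (by linarith : 0 < a + 0)]; norm_num
  · rw [sg_pos ha, sg_pos hb, sg_pos (by linarith : 0 < a + b)]; norm_num

/-- Determinant of an ordered basis of `O^2`. -/
def dt (b : OrdBasis O 2) : O := b.v 0 0 * b.v 1 1 - b.v 0 1 * b.v 1 0

lemma det_fin_two_aux (v : Fin 2 → Fin 2 → O) :
    (Pi.basisFun O (Fin 2)).det v = v 0 0 * v 1 1 - v 0 1 * v 1 0 := by
  rw [Module.Basis.det_apply, Matrix.det_fin_two]
  simp [Module.Basis.toMatrix_apply]
  ring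

lemma isUnit_dt (b : OrdBasis O 2) : IsUnit (dt b) := by
  have h := (Pi.basisFun O (Fin 2)).isUnit_det (show Module.Basis (Fin 2) O (Fin 2 → O) from b)
  rw [det_fin_two_aux] at h
  exact h

/-- A pair of vectors with unit determinant is an ordered basis of `O^2`. -/
def mkBasis (v w : Fin 2 → O) (h : IsUnit (v 0 * w 1 - v 1 * w 0)) : OrdBasis O 2 :=
  Module.Basis.mk (v := ![v, w])
    ((Module.Basis.is_basis_iff_det (Pi.basisFun O (Fin 2)) (v := ![v, w])).2
      (by rw [det_fin_two_aux]; simpa using h)).1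
    ((Module.Basis.is_basis_iff_det (Pi.basisFun O (Fin 2)) (v := ![v, w])).2
      (by rw [det_fin_two_aux]; simpa using h)).2.ge

lemma mkBasis_zero (v w : Fin 2 → O) (h : IsUnit (v 0 * w 1 - v 1 * w 0)) :
    (mkBasis v w h).v 0 = v := by
  simp [mkBasis, OrdBasis.v]

lemma mkBasis_one (v w : Fin 2 → O) (h : IsUnit (v 0 * w 1 - v 1 * w 0)) :
    (mkBasis v w h).v 1 = w := by
  simp [mkBasis, OrdBasis.v]

/-- The orientation `1`-cochain (with respect to the base point `∞`) for a real embedding. -/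
def hval (f : O →+* ℝ) (b : OrdBasis O 2) : ℤ :=
  sg (f (b.v 0 1) * f (b.v 1 1) * f (dt b))

/-- The difference of the two orientation `1`-cochains. -/
def hdiff (f g : O →+* ℝ) (b : OrdBasis O 2) : ℤ := hval f b - hval g b

lemma perm_fin_two (σ : Equiv.Perm (Fin 2)) : σ = 1 ∨ σ = Equiv.swap 0 1 := by
  revert σ; decide

lemma hval_perm (f : O →+* ℝ) (b b' : OrdBasis O 2) (σ : Equiv.Perm (Fin 2))
    (h : ∀ i, b'.v i = b.v (σ i)) : hval f b = (Equiv.Perm.sign σ : ℤ) * hval f b' := by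
  rcases perm_fin_two σ with rfl | rfl
  · simp only [Equiv.Perm.coe_one, id_eq] at h
    simp [hval, dt, h]
  · have h0 : b'.v 0 = b.v 1 := by rw [h 0]; simp
    have h1 : b'.v 1 = b.v 0 := by rw [h 1]; simp
    have hd : dt b' = - dt b := by
      unfold dt
      rw [h0, h1]; ring
    rw [Equiv.Perm.sign_swap (by decide)]
    unfold hval
    rw [hd, h0, h1, map_neg]
    have : f (b.v 1 1) * f (b.v 0 1) * -f (dt b) = -(f (b.v 0 1) * f (b.v 1 1) * f (dt b)) := by
      ring
    rw [this, sg_neg_arg]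
    simp

lemma hval_unit (f : O →+* ℝ) (b b' : OrdBasis O 2) (u : Oˣ)
    (h0 : b'.v 0 = (u : O) • b.v 0) (h1 : b'.v 1 = b.v 1) : hval f b = hval f b' := by
  have hd : dt b' = u * dt b := by
    unfold dt
    rw [h0, h1]
    simp only [Pi.smul_apply, smul_eq_mul]
    ring
  have hu : f (u : O) ≠ 0 := (u.isUnit.map f).ne_zero
  unfold hval
  rw [hd, h0, h1]
  simp only [Pi.smul_apply, smul_eq_mul, map_mul]
  have : f (u : O) * f (b.v 0 1) * f (b.v 1 1) * (f (u : O) * f (dt b))
      = (f (u : O) * f (u : O)) * (f (b.v 0 1) * f (b.v 1 1) * f (dt b)) := by ring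
  rw [this, sg_mul (f (u : O) * f (u : O)) _, sg_pos (mul_self_pos.2 hu), one_mul]

lemma hval_three (f : O →+* ℝ) (b b' b'' : OrdBasis O 2)
    (h1 : b'.v 0 = b.v 0 + b.v 1) (h2 : b'.v 1 = b.v 1)
    (h4 : b''.v 0 = b.v 0 + b.v 1) (h5 : b''.v 1 = b.v 0) :
    hval f b - hval f b' + hval f b'' = - sg (f (dt b)) := by
  have hd' : dt b' = dt b := by
    unfold dt
    rw [h1, h2]
    simp only [Pi.add_apply]
    ring
  have hd'' : dt b'' = - dt b := by
    unfold dt
    rw [h4, h5]
    simp only [Pi.add_apply]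
    ring
  unfold hval
  rw [hd', hd'', h1, h2, h4, h5]
  simp only [Pi.add_apply, map_add, map_neg]
  have hab : ¬ (f (b.v 0 1) = 0 ∧ f (b.v 1 1) = 0) := by
    rintro ⟨ha, hb⟩
    have hne : f (dt b) ≠ 0 := ((isUnit_dt b).map f).ne_zero
    apply hne
    unfold dt
    rw [map_sub, map_mul, map_mul, ha, hb]
    ring
  have key := sg_cocycle _ _ hab
  have e1 : sg (f (b.v 0 1) * f (b.v 1 1) * f (dt b))
      = sg (f (b.v 0 1) * f (b.v 1 1)) * sg (f (dt b)) := sg_mul _ _
  have e2 : sg ((f (b.v 0 1) + f (b.v 1 1)) * f (b.v 1 1) * f (dt b))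
      = sg ((f (b.v 0 1) + f (b.v 1 1)) * f (b.v 1 1)) * sg (f (dt b)) := sg_mul _ _
  have e3 : sg ((f (b.v 0 1) + f (b.v 1 1)) * f (b.v 0 1) * -f (dt b))
      = - (sg ((f (b.v 0 1) + f (b.v 1 1)) * f (b.v 0 1)) * sg (f (dt b))) := by
    rw [mul_neg, sg_neg_arg, sg_mul _ (f (dt b))]
  rw [e1, e2, e3]
  linear_combination sg (f (dt b)) * key

lemma sg_unit_eq (f g : O →+* ℝ) (hu : ∀ u : Oˣ, 0 < f u * g u) (b : OrdBasis O 2) :
    sg (f (dt b)) = sg (g (dt b)) := by
  obtain ⟨u, hu'⟩ := isUnit_dt b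
  rw [← hu']
  have h := hu u
  rcases lt_trichotomy (f (u : O)) 0 with h1 | h1 | h1
  · have h2 : g (u : O) < 0 := by
      by_contra hc
      push Not at hc
      nlinarith
    rw [sg_neg h1, sg_neg h2]
  · rw [h1] at h; simp at h
  · have h2 : 0 < g (u : O) := by
      by_contra hc
      push Not at hc
      nlinarith
    rw [sg_pos h1, sg_pos h2]

/-- The homomorphism on the free group on ordered bases. -/
def preFunctional (f g : O →+* ℝ) : FreeAbelianGroup (OrdBasis O 2) →+ ℤ :=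
  FreeAbelianGroup.lift (hdiff f g)

lemma bykRel_le_ker_functional (f g : O →+* ℝ) (hu : ∀ u : Oˣ, 0 < f u * g u) :
    bykRel O 2 ≤ (preFunctional f g).ker := by
  unfold bykRel
  apply (AddSubgroup.closure_le _).2
  rintro x ((hx | hx) | hx)
  · obtain ⟨b, b', σ, h, rfl⟩ := hx
    rw [SetLike.mem_coe, AddMonoidHom.mem_ker]
    simp only [preFunctional, map_sub, map_zsmul, FreeAbelianGroup.lift_apply_of,
      smul_eq_mul]
    unfold hdiff
    rw [hval_perm f b b' σ h, hval_perm g b b' σ h]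
    ring
  · obtain ⟨b, b', u, h0, h1, rfl⟩ := hx
    rw [SetLike.mem_coe, AddMonoidHom.mem_ker]
    simp only [preFunctional, map_sub, FreeAbelianGroup.lift_apply_of]
    unfold hdiff
    rw [hval_unit f b b' u (h0 0 rfl) (h1 1 (by decide)),
      hval_unit g b b' u (h0 0 rfl) (h1 1 (by decide))]
    ring
  · obtain ⟨b, b', b'', i₀, i₁, hi0, hi1, h1, h2, -, h4, h5, -, rfl⟩ := hx
    have e0 : i₀ = 0 := Fin.ext hi0
    have e1 : i₁ = 1 := Fin.ext hi1
    subst e0 e1
    rw [SetLike.mem_coe, AddMonoidHom.mem_ker]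
    simp only [preFunctional, map_sub, map_add, FreeAbelianGroup.lift_apply_of]
    have hf := hval_three f b b' b'' h1 h2 h4 h5
    have hg := hval_three g b b' b'' h1 h2 h4 h5
    have hs := sg_unit_eq f g hu b
    unfold hdiff
    linear_combination hf - hg - hs

section Tel

variable (K : Type*) [Field K] [Algebra O K]

lemma flag_tel (b b' : OrdBasis O 2) (h : b.v 1 = b'.v 0) :
    flag K b (Equiv.swap 0 1) = flag K b' 1 := by
  apply flag_eq_of
  intro j
  unfold flagSub
  congr 1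
  apply Set.image_congr
  intro i hi
  have hi0 : i = 0 := by
    have h1 : (i : ℕ) ≤ (j : ℕ) := hi
    have h2 := j.2
    apply Fin.ext
    simp only [Fin.val_zero]
    omega
  subst hi0
  funext l
  simp [vec, h]

lemma apartmentChain_two (b : OrdBasis O 2) :
    apartmentChain K b
      = FreeAbelianGroup.of (flag K b 1) - FreeAbelianGroup.of (flag K b (Equiv.swap 0 1)) := by
  unfold apartmentChain
  have hu : (Finset.univ : Finset (Equiv.Perm (Fin 2))) = {1, Equiv.swap 0 1} := by decide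
  rw [hu, Finset.sum_insert (by decide), Finset.sum_singleton, Equiv.Perm.sign_swap (by decide)]
  simp [sub_eq_add_neg]

/-- A closed chain of five bases maps to zero. -/
lemma closed_five (b₁ b₂ b₃ b₄ b₅ : OrdBasis O 2) (h1 : b₁.v 1 = b₂.v 0) (h2 : b₂.v 1 = b₃.v 0)
    (h3 : b₃.v 1 = b₄.v 0) (h4 : b₄.v 1 = b₅.v 0) (h5 : b₅.v 1 = b₁.v 0) :
    bykToSteinberg O K 2 (toByk O 2 (FreeAbelianGroup.of b₁ + FreeAbelianGroup.of b₂
      + FreeAbelianGroup.of b₃ + FreeAbelianGroup.of b₄ + FreeAbelianGroup.of b₅)) = 0 := by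
  have h : preMap O K 2 (FreeAbelianGroup.of b₁ + FreeAbelianGroup.of b₂
      + FreeAbelianGroup.of b₃ + FreeAbelianGroup.of b₄ + FreeAbelianGroup.of b₅) = 0 := by
    apply Subtype.ext
    simp only [preMap, map_add, FreeAbelianGroup.lift_apply_of]
    change apartmentChain K b₁ + apartmentChain K b₂ + apartmentChain K b₃ + apartmentChain K b₄
      + apartmentChain K b₅ = 0
    simp only [apartmentChain_two]
    rw [flag_tel K b₁ b₂ h1, flag_tel K b₂ b₃ h2, flag_tel K b₃ b₄ h3, flag_tel K b₄ b₅ h4,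
      flag_tel K b₅ b₁ h5]
    abel
  rw [bykToSteinberg_toByk, h, map_zero]

end Tel

/-- The main obstruction: a ring containing a square root of `3`, with two real embeddings of
opposite sign on it and the same sign on all units, has non-injective `Byk_2 → St_2`. -/
theorem not_injective (K : Type*) [Field K] [Algebra O K] (s : O) (hs : s * s = 3)
    (f g : O →+* ℝ) (hf : 0 < f s) (hg : g s < 0) (hu : ∀ u : Oˣ, 0 < f u * g u) :
    ¬ Function.Injective (bykToSteinberg O K 2) := by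
  intro hinj
  have hf3 : f s * f s = 3 := by rw [← map_mul, hs, map_ofNat]
  have hg3 : g s * g s = 3 := by rw [← map_mul, hs, map_ofNat]
  have hf1 : 1 < f s := by nlinarith
  have hf2 : f s < 2 := by nlinarith
  have hg1 : g s < -1 := by nlinarith
  have hg2 : -2 < g s := by nlinarith
  -- five bases
  have u1 : IsUnit ((![1, 0] : Fin 2 → O) 0 * (![0, 1] : Fin 2 → O) 1
      - (![1, 0] : Fin 2 → O) 1 * (![0, 1] : Fin 2 → O) 0) := by simp
  have u2 : IsUnit ((![0, 1] : Fin 2 → O) 0 * (![1, 1 + s] : Fin 2 → O) 1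
      - (![0, 1] : Fin 2 → O) 1 * (![1, 1 + s] : Fin 2 → O) 0) := by simp
  have u3 : IsUnit ((![1, 1 + s] : Fin 2 → O) 0 * (![2 - s, s] : Fin 2 → O) 1
      - (![1, 1 + s] : Fin 2 → O) 1 * (![2 - s, s] : Fin 2 → O) 0) := by
    have : (![1, 1 + s] : Fin 2 → O) 0 * (![2 - s, s] : Fin 2 → O) 1
      - (![1, 1 + s] : Fin 2 → O) 1 * (![2 - s, s] : Fin 2 → O) 0 = 1 := by
      simp only [Matrix.cons_val_zero, Matrix.cons_val_one]
      linear_combination hs
    rw [this]; exact isUnit_one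
  have u4 : IsUnit ((![2 - s, s] : Fin 2 → O) 0 * (![s - 1, 1] : Fin 2 → O) 1
      - (![2 - s, s] : Fin 2 → O) 1 * (![s - 1, 1] : Fin 2 → O) 0) := by
    have : (![2 - s, s] : Fin 2 → O) 0 * (![s - 1, 1] : Fin 2 → O) 1
      - (![2 - s, s] : Fin 2 → O) 1 * (![s - 1, 1] : Fin 2 → O) 0 = -1 := by
      simp only [Matrix.cons_val_zero, Matrix.cons_val_one]
      linear_combination -hs
    rw [this]; exact isUnit_one.neg
  have u5 : IsUnit ((![s - 1, 1] : Fin 2 → O) 0 * (![1, 0] : Fin 2 → O) 1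
      - (![s - 1, 1] : Fin 2 → O) 1 * (![1, 0] : Fin 2 → O) 0) := by simp
  have hzero := closed_five K (mkBasis _ _ u1) (mkBasis _ _ u2) (mkBasis _ _ u3) (mkBasis _ _ u4)
    (mkBasis _ _ u5) (by rw [mkBasis_zero, mkBasis_one]) (by rw [mkBasis_zero, mkBasis_one])
    (by rw [mkBasis_zero, mkBasis_one]) (by rw [mkBasis_zero, mkBasis_one])
    (by rw [mkBasis_zero, mkBasis_one])
  have hmk := hinj (hzero.trans (map_zero _).symm)
  have hmem := (QuotientAddGroup.eq_zero_iff _).1 hmk
  have hΦ := bykRel_le_ker_functional f g hu hmem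
  rw [AddMonoidHom.mem_ker] at hΦ
  simp only [preFunctional, map_add, FreeAbelianGroup.lift_apply_of] at hΦ
  have e1 : hdiff f g (mkBasis _ _ u1) = 0 := by
    simp [hdiff, hval, dt, mkBasis_zero, mkBasis_one, sg_zero]
  have e2 : hdiff f g (mkBasis _ _ u2) = -2 := by
    simp only [hdiff, hval, dt, mkBasis_zero, mkBasis_one, Matrix.cons_val_zero,
      Matrix.cons_val_one]
    simp only [map_sub, map_mul, map_add, map_one, map_zero]
    rw [sg_neg (by nlinarith), sg_pos (by nlinarith)]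
    norm_num
  have e3 : hdiff f g (mkBasis _ _ u3) = 0 := by
    simp only [hdiff, hval, dt, mkBasis_zero, mkBasis_one, Matrix.cons_val_zero,
      Matrix.cons_val_one]
    have hd : (1 : O) * s - (1 + s) * (2 - s) = 1 := by linear_combination hs
    rw [hd]
    simp only [map_add, map_one]
    rw [sg_pos (by nlinarith), sg_pos (by nlinarith)]
    norm_num
  have e4 : hdiff f g (mkBasis _ _ u4) = -2 := by
    simp only [hdiff, hval, dt, mkBasis_zero, mkBasis_one, Matrix.cons_val_zero,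
      Matrix.cons_val_one]
    have hd : (2 - s) * (1 : O) - s * (s - 1) = -1 := by linear_combination -hs
    rw [hd]
    simp only [map_neg, map_one]
    rw [sg_neg (by nlinarith), sg_pos (by nlinarith)]
    norm_num
  have e5 : hdiff f g (mkBasis _ _ u5) = 0 := by
    simp [hdiff, hval, dt, mkBasis_zero, mkBasis_one, sg_zero]
  rw [e1, e2, e3, e4, e5] at hΦ
  norm_num at hΦ

end

end Pool.Agent.H741R3.Byk
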