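import Mathlib

/-!
Definitions for the generalized Bykovskii presentation: the Tits building of `K^n`, its reduced
simplicial homology, the Steinberg module, the group `Byk_n(O)` and the natural map between them.
-/

open scoped BigOperators

namespace Pool.Agent.H741R3.Byk

noncomputable section

section Building

variable (K : Type*) [Field K] (n : ℕ)

/-- Vertices of the Tits building: nonzero proper subspaces of `K^n`. -/
def TitsVertex : Type _ := {W : Submodule K (Fin n → K) // W ≠ ⊥ ∧ W ≠ ⊤}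

/-- Vertices of the Tits building are ordered by inclusion. -/
instance : PartialOrder (TitsVertex K n) :=
  Subtype.partialOrder (fun W : Submodule K (Fin n → K) => W ≠ ⊥ ∧ W ≠ ⊤)

variable {K n} in
/-- A nonzero proper subspace as a vertex of the Tits building. -/
def mkVertex (W : Submodule K (Fin n → K)) (h : W ≠ ⊥) (h' : W ≠ ⊤) : TitsVertex K n :=
  ⟨W, h, h'⟩

/-- Simplices with `k` vertices (dimension `k - 1`) of the order complex of the poset of nonzero
proper subspaces: strictly increasing sequences of length `k`. For `k = 0` this is the empty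
simplex. -/
def Simp (k : ℕ) : Type _ := {c : Fin k → TitsVertex K n // StrictMono c}

variable {K n}

/-- The `i`-th face of a simplex. -/
def Simp.face {k : ℕ} (c : Simp K n (k + 1)) (i : Fin (k + 1)) : Simp K n k :=
  ⟨fun j => c.1 (i.succAbove j), c.2.comp (Fin.strictMono_succAbove i)⟩

variable (K n)

/-- Augmented simplicial boundary map, from chains on simplices with `k + 1` vertices to chains on
simplices with `k` vertices. -/
def bdry (k : ℕ) : FreeAbelianGroup (Simp K n (k + 1)) →+ FreeAbelianGroup (Simp K n k) :=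
  FreeAbelianGroup.lift
    (fun c => ∑ i : Fin (k + 1), ((-1 : ℤ) ^ (i : ℕ)) • FreeAbelianGroup.of (c.face i))

/-- Cycles in the augmented simplicial chain complex (chains on simplices with `k` vertices). -/
def cycles : (k : ℕ) → AddSubgroup (FreeAbelianGroup (Simp K n k))
  | 0 => ⊤
  | k + 1 => (bdry K n k).ker

/-- Boundaries in the augmented simplicial chain complex (chains on simplices with `k`
vertices). -/
def boundaries (k : ℕ) : AddSubgroup (FreeAbelianGroup (Simp K n k)) := (bdry K n k).range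

/-- The group of cycles (chains on simplices with `k` vertices). -/
def Cyc (k : ℕ) : Type _ := cycles K n k

instance (k : ℕ) : AddCommGroup (Cyc K n k) := AddSubgroup.toAddCommGroup (cycles K n k)

/-- The inclusion of cycles into chains. -/
def Cyc.incl (k : ℕ) : Cyc K n k →+ FreeAbelianGroup (Simp K n k) := (cycles K n k).subtype

/-- Reduced homology of the Tits building in degree `k - 1`: cycles modulo boundaries. -/
def RedHomology (k : ℕ) : Type _ := Cyc K n k ⧸ (boundaries K n k).comap (Cyc.incl K n k)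

instance (k : ℕ) : AddCommGroup (RedHomology K n k) :=
  QuotientAddGroup.Quotient.addCommGroup ((boundaries K n k).comap (Cyc.incl K n k))

/-- The homology class of a cycle. -/
def homClass (k : ℕ) : Cyc K n k →+ RedHomology K n k :=
  QuotientAddGroup.mk' ((boundaries K n k).comap (Cyc.incl K n k))

/-- The Steinberg module `St_n(K)`: reduced homology in degree `n - 2` of the Tits building of
`K^n` (for `n ≥ 1`). -/
abbrev Steinberg : Type _ := RedHomology K n (n - 1)

end Building

section Byk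

variable (O : Type*) [CommRing O] (n : ℕ)

/-- Ordered bases of `O^n`. -/
def OrdBasis : Type _ := Module.Basis (Fin n) O (Fin n → O)

variable {O n} in
/-- The `i`-th vector of an ordered basis. -/
def OrdBasis.v (b : OrdBasis O n) (i : Fin n) : Fin n → O :=
  (show Module.Basis (Fin n) O (Fin n → O) from b) i

/-- Relations (1): `[[v_1,…,v_n]] = sgn(σ) [[v_{σ(1)},…,v_{σ(n)}]]`. -/
def relPerm : Set (FreeAbelianGroup (OrdBasis O n)) :=
  {x | ∃ (b b' : OrdBasis O n) (σ : Equiv.Perm (Fin n)), (∀ i, b'.v i = b.v (σ i)) ∧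
    x = FreeAbelianGroup.of b - (Equiv.Perm.sign σ : ℤ) • FreeAbelianGroup.of b'}

/-- Relations (2): `[[v_1,v_2,…,v_n]] = [[u v_1,v_2,…,v_n]]` for units `u`. -/
def relUnit : Set (FreeAbelianGroup (OrdBasis O n)) :=
  {x | ∃ (b b' : OrdBasis O n) (u : Oˣ), (∀ i : Fin n, (i : ℕ) = 0 → b'.v i = (u : O) • b.v i) ∧
    (∀ i : Fin n, (i : ℕ) ≠ 0 → b'.v i = b.v i) ∧
    x = FreeAbelianGroup.of b - FreeAbelianGroup.of b'}

/-- Relations (3):
`[[v_1,v_2,v_3,…]] - [[v_1+v_2,v_2,v_3,…]] + [[v_1+v_2,v_1,v_3,…]] = 0` (for `n ≥ 2`). -/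
def relThree : Set (FreeAbelianGroup (OrdBasis O n)) :=
  {x | ∃ (b b' b'' : OrdBasis O n) (i₀ i₁ : Fin n), (i₀ : ℕ) = 0 ∧ (i₁ : ℕ) = 1 ∧
    b'.v i₀ = b.v i₀ + b.v i₁ ∧ b'.v i₁ = b.v i₁ ∧ (∀ i, i ≠ i₀ → i ≠ i₁ → b'.v i = b.v i) ∧
    b''.v i₀ = b.v i₀ + b.v i₁ ∧ b''.v i₁ = b.v i₀ ∧ (∀ i, i ≠ i₀ → i ≠ i₁ → b''.v i = b.v i) ∧
    x = FreeAbelianGroup.of b - FreeAbelianGroup.of b' + FreeAbelianGroup.of b''}

/-- The subgroup generated by the three families of relations. -/
def bykRel : AddSubgroup (FreeAbelianGroup (OrdBasis O n)) :=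
  AddSubgroup.closure (relPerm O n ∪ relUnit O n ∪ relThree O n)

/-- `Byk_n(O)`. -/
def BykGroup : Type _ := FreeAbelianGroup (OrdBasis O n) ⧸ bykRel O n

instance : AddCommGroup (BykGroup O n) := QuotientAddGroup.Quotient.addCommGroup (bykRel O n)

/-- The projection of the free abelian group on ordered bases to `Byk_n(O)`. -/
def toByk : FreeAbelianGroup (OrdBasis O n) →+ BykGroup O n := QuotientAddGroup.mk' (bykRel O n)

end Byk

section Map

variable {O : Type*} [CommRing O] (K : Type*) [Field K] [Algebra O K] {n : ℕ}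

/-- The `i`-th vector of an ordered basis of `O^n`, seen in `K^n`. -/
def vec (b : OrdBasis O n) (i : Fin n) : Fin n → K := fun j => algebraMap O K (b.v i j)

lemma vec_linearIndependent (b : OrdBasis O n) : LinearIndependent K (vec K b) := by
  have h1 : IsUnit ((Pi.basisFun O (Fin n)).toMatrix b.v).det := by
    rw [← Module.Basis.det_apply]
    exact (Pi.basisFun O (Fin n)).isUnit_det (show Module.Basis (Fin n) O (Fin n → O) from b)
  have h2 : IsUnit ((algebraMap O K).mapMatrix ((Pi.basisFun O (Fin n)).toMatrix b.v)).det := by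
    rw [← RingHom.map_det]
    exact h1.map _
  have h3 : IsUnit
      (((algebraMap O K).mapMatrix ((Pi.basisFun O (Fin n)).toMatrix b.v)).transpose) := by
    rw [Matrix.isUnit_iff_isUnit_det, Matrix.det_transpose]
    exact h2
  have h4 := Matrix.linearIndependent_rows_iff_isUnit.mpr h3
  have h5 : (((algebraMap O K).mapMatrix ((Pi.basisFun O (Fin n)).toMatrix b.v)).transpose).row
      = vec K b := by
    funext i j
    simp [vec, Matrix.row, Module.Basis.toMatrix_apply]
  rw [h5] at h4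
  exact h4

/-- The span of the first `j + 1` vectors of the basis `b` reordered by `σ`. -/
def flagSub (b : OrdBasis O n) (σ : Equiv.Perm (Fin n)) (j : ℕ) : Submodule K (Fin n → K) :=
  Submodule.span K ((fun i => vec K b (σ i)) '' {i : Fin n | (i : ℕ) ≤ j})

lemma vec_mem_flagSub (b : OrdBasis O n) (σ : Equiv.Perm (Fin n)) (j : ℕ) (i : Fin n)
    (h : (i : ℕ) ≤ j) : vec K b (σ i) ∈ flagSub K b σ j :=
  Submodule.subset_span ⟨i, h, rfl⟩

lemma vec_notMem_flagSub (b : OrdBasis O n) (σ : Equiv.Perm (Fin n)) (j : ℕ) (i : Fin n)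
    (h : j < (i : ℕ)) : vec K b (σ i) ∉ flagSub K b σ j := by
  have h1 : LinearIndependent K (fun i => vec K b (σ i)) :=
    (vec_linearIndependent K b).comp σ σ.injective
  have h2 : i ∉ {i : Fin n | (i : ℕ) ≤ j} := by simpa using h
  exact h1.notMem_span_image h2

lemma flagSub_ne_bot (b : OrdBasis O n) (σ : Equiv.Perm (Fin n)) (j : Fin (n - 1)) :
    flagSub K b σ j ≠ ⊥ := by
  intro h
  have hn : 0 < n := by have := j.2; omega
  have h1 := vec_mem_flagSub K b σ j ⟨0, hn⟩ (Nat.zero_le _)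
  rw [h, Submodule.mem_bot] at h1
  exact (vec_linearIndependent K b).ne_zero _ h1

lemma flagSub_ne_top (b : OrdBasis O n) (σ : Equiv.Perm (Fin n)) (j : Fin (n - 1)) :
    flagSub K b σ j ≠ ⊤ := by
  intro h
  have hn : (j : ℕ) + 1 < n := by have := j.2; omega
  have h1 := vec_notMem_flagSub K b σ j ⟨j + 1, hn⟩ (Nat.lt_succ_self _)
  rw [h] at h1
  exact h1 Submodule.mem_top

lemma flagSub_lt (b : OrdBasis O n) (σ : Equiv.Perm (Fin n)) (j j' : Fin (n - 1)) (hj : j < j') :
    flagSub K b σ j < flagSub K b σ j' := by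
  have hn : (j' : ℕ) < n := by have := j'.2; omega
  have hjj : (j : ℕ) < (j' : ℕ) := hj
  refine lt_of_le_of_ne (Submodule.span_mono (Set.image_mono ?_)) ?_
  · intro i hi
    simp only [Set.mem_ofPred_eq] at hi ⊢
    omega
  · intro h
    have h1 := vec_mem_flagSub K b σ j' ⟨j', hn⟩ le_rfl
    rw [← h] at h1
    exact vec_notMem_flagSub K b σ j ⟨j', hn⟩ hjj h1

/-- The flag `⟨v_{σ(1)}⟩ < ⟨v_{σ(1)},v_{σ(2)}⟩ < …` of the `n - 1` first spans of the basis
`b` reordered by `σ`. -/
def flag (b : OrdBasis O n) (σ : Equiv.Perm (Fin n)) : Simp K n (n - 1) :=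
  ⟨fun j => mkVertex (flagSub K b σ j) (flagSub_ne_bot K b σ j) (flagSub_ne_top K b σ j),
    fun j j' hj => flagSub_lt K b σ j j' hj⟩

/-- The fundamental chain of the apartment of an ordered basis:
`∑_σ sgn(σ) [⟨v_{σ(1)}⟩ < ⟨v_{σ(1)},v_{σ(2)}⟩ < …]`. -/
def apartmentChain (b : OrdBasis O n) : FreeAbelianGroup (Simp K n (n - 1)) :=
  ∑ σ : Equiv.Perm (Fin n), (Equiv.Perm.sign σ : ℤ) • FreeAbelianGroup.of (flag K b σ)

lemma flag_eq_of (b b' : OrdBasis O n) (σ σ' : Equiv.Perm (Fin n))
    (h : ∀ j : Fin (n - 1), flagSub K b σ j = flagSub K b' σ' j) : flag K b σ = flag K b' σ' := by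
  apply Subtype.ext
  funext j
  apply Subtype.ext
  exact h j

lemma flagSub_swap (b : OrdBasis O n) (σ : Equiv.Perm (Fin n)) (i i' : Fin n)
    (hi : (i' : ℕ) = i + 1) (j : ℕ) (hj : j ≠ i) :
    flagSub K b (σ * Equiv.swap i i') j = flagSub K b σ j := by
  unfold flagSub
  congr 1
  have key : ∀ l : Fin n, (l : ℕ) ≤ j → ((Equiv.swap i i' l : Fin n) : ℕ) ≤ j := by
    intro l hl
    rcases eq_or_ne l i with h | h
    · subst h; rw [Equiv.swap_apply_left]; omega
    · rcases eq_or_ne l i' with h' | h'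
      · subst h'; rw [Equiv.swap_apply_right]; omega
      · rw [Equiv.swap_apply_of_ne_of_ne h h']; exact hl
  ext w
  constructor
  · rintro ⟨l, hl, rfl⟩
    exact ⟨Equiv.swap i i' l, key l hl, rfl⟩
  · rintro ⟨l, hl, rfl⟩
    refine ⟨Equiv.swap i i' l, key l hl, ?_⟩
    simp [Equiv.Perm.mul_apply]

lemma apartmentChain_mem (b : OrdBasis O n) : apartmentChain K b ∈ cycles K n (n - 1) := by
  match n, b with
  | 0, b => exact AddSubgroup.mem_top _
  | 1, b => exact AddSubgroup.mem_top _
  | (m + 2), b =>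
    change bdry K (m + 2) m (apartmentChain K b) = 0
    unfold apartmentChain bdry
    rw [map_sum]
    simp only [map_zsmul, FreeAbelianGroup.lift_apply_of]
    simp only [Finset.smul_sum]
    rw [Finset.sum_comm]
    apply Finset.sum_eq_zero
    intro i _
    have hi1 : (i : ℕ) < m + 2 := by have := i.2; omega
    have hi2 : (i : ℕ) + 1 < m + 2 := by have := i.2; omega
    set a : Fin (m + 2) := ⟨i, hi1⟩ with ha
    set a' : Fin (m + 2) := ⟨i + 1, hi2⟩ with ha'
    have haa : a ≠ a' := by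
      intro h
      have := congrArg Fin.val h
      simp [ha, ha'] at this
    have hface : ∀ σ : Equiv.Perm (Fin (m + 2)),
        Simp.face (k := m) (flag K b (σ * Equiv.swap a a')) i
          = Simp.face (k := m) (flag K b σ) i := by
      intro σ
      apply Subtype.ext
      funext j
      apply Subtype.ext
      change flagSub K b (σ * Equiv.swap a a') ((i.succAbove j : Fin (m + 1)) : ℕ)
        = flagSub K b σ ((i.succAbove j : Fin (m + 1)) : ℕ)
      apply flagSub_swap K b σ a a' rfl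
      intro h
      exact Fin.succAbove_ne i j (Fin.ext h)
    refine Finset.sum_involution (fun σ _ => σ * Equiv.swap a a') ?_ ?_ ?_ ?_
    · intro σ _
      rw [hface σ, Equiv.Perm.sign_mul, Equiv.Perm.sign_swap haa]
      simp
    · intro σ _ _ h
      have h1 : Equiv.swap a a' = 1 := by
        have := congrArg (fun τ => σ⁻¹ * τ) h
        simpa using this
      have h2 := congrArg (fun τ : Equiv.Perm (Fin (m + 2)) => τ a) h1
      simp at h2
      exact haa h2.symm
    · intro σ _
      exact Finset.mem_univ _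
    · intro σ _
      simp [mul_assoc]

/-- The fundamental cycle of an apartment. -/
def apartmentCycle (b : OrdBasis O n) : Cyc K n (n - 1) :=
  ⟨apartmentChain K b, apartmentChain_mem K b⟩

lemma apartmentChain_perm (b b' : OrdBasis O n) (τ : Equiv.Perm (Fin n))
    (h : ∀ i, b'.v i = b.v (τ i)) :
    apartmentChain K b = (Equiv.Perm.sign τ : ℤ) • apartmentChain K b' := by
  unfold apartmentChain
  rw [Finset.smul_sum]
  have hflag : ∀ σ : Equiv.Perm (Fin n), flag K b' σ = flag K b (τ * σ) := by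
    intro σ
    apply flag_eq_of
    intro j
    unfold flagSub
    congr 1
    apply Set.image_congr
    intro i _
    funext l
    simp [vec, h]
  have hs : ∀ σ : Equiv.Perm (Fin n),
      (Equiv.Perm.sign τ : ℤ) • ((Equiv.Perm.sign σ : ℤ) • FreeAbelianGroup.of (flag K b' σ))
      = (Equiv.Perm.sign (τ * σ) : ℤ) • FreeAbelianGroup.of (flag K b (τ * σ)) := by
    intro σ
    rw [hflag σ, smul_smul, Equiv.Perm.sign_mul]
    simp
  rw [Finset.sum_congr rfl (fun σ _ => hs σ)]
  exact (Fintype.sum_equiv (Equiv.mulLeft τ)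
    (fun σ => (Equiv.Perm.sign (τ * σ) : ℤ) • FreeAbelianGroup.of (flag K b (τ * σ)))
    (fun σ => (Equiv.Perm.sign σ : ℤ) • FreeAbelianGroup.of (flag K b σ))
    (fun σ => rfl)).symm

lemma apartmentChain_unit (b b' : OrdBasis O n) (u : Oˣ)
    (h0 : ∀ i : Fin n, (i : ℕ) = 0 → b'.v i = (u : O) • b.v i)
    (h1 : ∀ i : Fin n, (i : ℕ) ≠ 0 → b'.v i = b.v i) :
    apartmentChain K b = apartmentChain K b' := by
  unfold apartmentChain
  apply Finset.sum_congr rfl
  intro σ _
  congr 2
  apply flag_eq_of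
  intro j
  have hu : algebraMap O K (u : O) ≠ 0 := (u.isUnit.map (algebraMap O K)).ne_zero
  have hv : ∀ i : Fin n, (i : ℕ) = 0 → vec K b' i = algebraMap O K (u : O) • vec K b i := by
    intro i hi
    funext l
    simp [vec, h0 i hi]
  have hv1 : ∀ i : Fin n, (i : ℕ) ≠ 0 → vec K b' i = vec K b i := by
    intro i hi
    funext l
    simp [vec, h1 i hi]
  apply le_antisymm
  · apply Submodule.span_le.2
    rintro w ⟨i, hi, rfl⟩
    by_cases h : ((σ i : Fin n) : ℕ) = 0
    · have h2 : vec K b (σ i) = (algebraMap O K (u : O))⁻¹ • vec K b' (σ i) := by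
        rw [hv _ h, smul_smul, inv_mul_cancel₀ hu, one_smul]
      change vec K b (σ i) ∈ flagSub K b' σ j
      rw [h2]
      exact Submodule.smul_mem _ _ (vec_mem_flagSub K b' σ j i hi)
    · change vec K b (σ i) ∈ flagSub K b' σ j
      rw [← hv1 _ h]
      exact vec_mem_flagSub K b' σ j i hi
  · apply Submodule.span_le.2
    rintro w ⟨i, hi, rfl⟩
    by_cases h : ((σ i : Fin n) : ℕ) = 0
    · change vec K b' (σ i) ∈ flagSub K b σ j
      rw [hv _ h]
      exact Submodule.smul_mem _ _ (vec_mem_flagSub K b σ j i hi)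
    · change vec K b' (σ i) ∈ flagSub K b σ j
      rw [hv1 _ h]
      exact vec_mem_flagSub K b σ j i hi

/-- Two bases `b`, `b'` reordered by `σ`, `σ'` have the same flag if each vector of one lies in the
span of the earlier or equal ones of the other. -/
lemma flag_eq_of_mem (b b' : OrdBasis O n) (σ σ' : Equiv.Perm (Fin n))
    (h : ∀ i : Fin n, vec K b (σ i) ∈ flagSub K b' σ' i)
    (h' : ∀ i : Fin n, vec K b' (σ' i) ∈ flagSub K b σ i) : flag K b σ = flag K b' σ' := by
  apply flag_eq_of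
  intro j
  have mono : ∀ (c : OrdBasis O n) (τ : Equiv.Perm (Fin n)) (i : ℕ), i ≤ (j : ℕ) →
      flagSub K c τ i ≤ flagSub K c τ j := by
    intro c τ i hi
    apply Submodule.span_mono (Set.image_mono ?_)
    intro l hl
    simp only [Set.mem_ofPred_eq] at hl ⊢
    omega
  apply le_antisymm
  · apply Submodule.span_le.2
    rintro w ⟨i, hi, rfl⟩
    exact mono _ _ _ hi (h i)
  · apply Submodule.span_le.2
    rintro w ⟨i, hi, rfl⟩
    exact mono _ _ _ hi (h' i)

lemma apartmentChain_three (b b' b'' : OrdBasis O n) (i₀ i₁ : Fin n) (hne : i₀ ≠ i₁)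
    (h1 : b'.v i₀ = b.v i₀ + b.v i₁) (h2 : b'.v i₁ = b.v i₁)
    (h3 : ∀ i, i ≠ i₀ → i ≠ i₁ → b'.v i = b.v i)
    (h4 : b''.v i₀ = b.v i₀ + b.v i₁) (h5 : b''.v i₁ = b.v i₀)
    (h6 : ∀ i, i ≠ i₀ → i ≠ i₁ → b''.v i = b.v i) :
    apartmentChain K b - apartmentChain K b' + apartmentChain K b'' = 0 := by
  have v1 : vec K b' i₀ = vec K b i₀ + vec K b i₁ := by funext l; simp [vec, h1]
  have v2 : vec K b' i₁ = vec K b i₁ := by funext l; simp [vec, h2]
  have v3 : ∀ i, i ≠ i₀ → i ≠ i₁ → vec K b' i = vec K b i := by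
    intro i hi hi'; funext l; simp [vec, h3 i hi hi']
  have v4 : vec K b'' i₀ = vec K b i₀ + vec K b i₁ := by funext l; simp [vec, h4]
  have v5 : vec K b'' i₁ = vec K b i₀ := by funext l; simp [vec, h5]
  have v6 : ∀ i, i ≠ i₀ → i ≠ i₁ → vec K b'' i = vec K b i := by
    intro i hi hi'; funext l; simp [vec, h6 i hi hi']
  -- membership helper
  have mem : ∀ (c : OrdBasis O n) (τ : Equiv.Perm (Fin n)) (l i : Fin n), τ⁻¹ l ≤ i →
      vec K c l ∈ flagSub K c τ i := by
    intro c τ l i hl
    have := vec_mem_flagSub K c τ i (τ⁻¹ l) hl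
    simpa using this
  have mem' : ∀ (c : OrdBasis O n) (τ : Equiv.Perm (Fin n)) (i : Fin n),
      vec K c (τ i) ∈ flagSub K c τ i := by
    intro c τ i
    exact vec_mem_flagSub K c τ i i le_rfl
  -- flags agree
  have F1 : ∀ σ : Equiv.Perm (Fin n), σ⁻¹ i₁ < σ⁻¹ i₀ → flag K b σ = flag K b' σ := by
    intro σ hσ
    apply flag_eq_of_mem
    · intro i
      by_cases hi0 : σ i = i₀
      · have hi : σ⁻¹ i₀ = i := by rw [← hi0]; simp
        rw [hi0]
        have : vec K b i₀ = vec K b' i₀ - vec K b' i₁ := by rw [v1, v2]; abel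
        rw [this]
        exact Submodule.sub_mem _ (mem b' σ i₀ i hi.le) (mem b' σ i₁ i (hi ▸ hσ.le))
      · by_cases hi1 : σ i = i₁
        · rw [hi1, ← v2, ← hi1]; exact mem' b' σ i
        · rw [← v3 _ hi0 hi1]; exact mem' b' σ i
    · intro i
      by_cases hi0 : σ i = i₀
      · have hi : σ⁻¹ i₀ = i := by rw [← hi0]; simp
        rw [hi0, v1]
        exact Submodule.add_mem _ (mem b σ i₀ i hi.le) (mem b σ i₁ i (hi ▸ hσ.le))
      · by_cases hi1 : σ i = i₁
        · rw [hi1, v2, ← hi1]; exact mem' b σ i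
        · rw [v3 _ hi0 hi1]; exact mem' b σ i
  have F2 : ∀ σ : Equiv.Perm (Fin n), σ⁻¹ i₀ < σ⁻¹ i₁ → flag K b' σ = flag K b'' σ := by
    intro σ hσ
    apply flag_eq_of_mem
    · intro i
      by_cases hi0 : σ i = i₀
      · rw [hi0, v1, ← v4, ← hi0]; exact mem' b'' σ i
      · by_cases hi1 : σ i = i₁
        · have hi : σ⁻¹ i₁ = i := by rw [← hi1]; simp
          rw [hi1]
          have : vec K b' i₁ = vec K b'' i₀ - vec K b'' i₁ := by rw [v2, v4, v5]; abel
          rw [this]
          exact Submodule.sub_mem _ (mem b'' σ i₀ i (hi ▸ hσ.le)) (mem b'' σ i₁ i hi.le)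
        · rw [v3 _ hi0 hi1, ← v6 _ hi0 hi1]; exact mem' b'' σ i
    · intro i
      by_cases hi0 : σ i = i₀
      · rw [hi0, v4, ← v1, ← hi0]; exact mem' b' σ i
      · by_cases hi1 : σ i = i₁
        · have hi : σ⁻¹ i₁ = i := by rw [← hi1]; simp
          rw [hi1]
          have : vec K b'' i₁ = vec K b' i₀ - vec K b' i₁ := by rw [v2, v1, v5]; abel
          rw [this]
          exact Submodule.sub_mem _ (mem b' σ i₀ i (hi ▸ hσ.le)) (mem b' σ i₁ i hi.le)
        · rw [v6 _ hi0 hi1, ← v3 _ hi0 hi1]; exact mem' b' σ i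
  have F3 : ∀ σ : Equiv.Perm (Fin n), σ⁻¹ i₁ < σ⁻¹ i₀ →
      flag K b'' σ = flag K b (Equiv.swap i₀ i₁ * σ) := by
    intro σ hσ
    have hinv0 : (Equiv.swap i₀ i₁ * σ)⁻¹ i₀ = σ⁻¹ i₁ := by
      simp [mul_inv_rev, Equiv.Perm.mul_apply]
    have hinv1 : (Equiv.swap i₀ i₁ * σ)⁻¹ i₁ = σ⁻¹ i₀ := by
      simp [mul_inv_rev, Equiv.Perm.mul_apply]
    apply flag_eq_of_mem
    · intro i
      by_cases hi0 : σ i = i₀
      · have hi : σ⁻¹ i₀ = i := by rw [← hi0]; simp
        rw [hi0, v4]
        refine Submodule.add_mem _ (mem b _ i₀ i ?_) (mem b _ i₁ i ?_)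
        · rw [hinv0, ← hi]; exact hσ.le
        · rw [hinv1]; exact hi.le
      · by_cases hi1 : σ i = i₁
        · have hi : σ⁻¹ i₁ = i := by rw [← hi1]; simp
          rw [hi1, v5]
          refine mem b _ i₀ i ?_
          rw [hinv0]; exact hi.le
        · rw [v6 _ hi0 hi1]
          have := mem' b (Equiv.swap i₀ i₁ * σ) i
          rwa [Equiv.Perm.mul_apply, Equiv.swap_apply_of_ne_of_ne hi0 hi1] at this
    · intro i
      rw [Equiv.Perm.mul_apply]
      by_cases hi0 : σ i = i₀
      · have hi : σ⁻¹ i₀ = i := by rw [← hi0]; simp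
        rw [hi0, Equiv.swap_apply_left]
        have : vec K b i₁ = vec K b'' i₀ - vec K b'' i₁ := by rw [v4, v5]; abel
        rw [this]
        exact Submodule.sub_mem _ (mem b'' σ i₀ i hi.le) (mem b'' σ i₁ i (hi ▸ hσ.le))
      · by_cases hi1 : σ i = i₁
        · rw [hi1, Equiv.swap_apply_right, ← v5, ← hi1]; exact mem' b'' σ i
        · rw [Equiv.swap_apply_of_ne_of_ne hi0 hi1, ← v6 _ hi0 hi1]; exact mem' b'' σ i
  -- the sum
  let T : Equiv.Perm (Fin n) → FreeAbelianGroup (Simp K n (n - 1)) := fun σ =>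
    if σ⁻¹ i₀ < σ⁻¹ i₁ then (Equiv.Perm.sign σ : ℤ) • FreeAbelianGroup.of (flag K b σ)
    else (Equiv.Perm.sign σ : ℤ) • FreeAbelianGroup.of (flag K b (Equiv.swap i₀ i₁ * σ))
  have hne' : ∀ σ : Equiv.Perm (Fin n), σ⁻¹ i₀ ≠ σ⁻¹ i₁ := fun σ h => hne (σ⁻¹.injective h)
  have hT : apartmentChain K b - apartmentChain K b' + apartmentChain K b''
      = ∑ σ : Equiv.Perm (Fin n), T σ := by
    unfold apartmentChain
    rw [← Finset.sum_sub_distrib, ← Finset.sum_add_distrib]
    apply Finset.sum_congr rfl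
    intro σ _
    simp only [T]
    split_ifs with h
    · rw [F2 σ h]; abel
    · have h' : σ⁻¹ i₁ < σ⁻¹ i₀ := lt_of_le_of_ne (not_lt.1 h) (hne' σ).symm
      rw [F1 σ h', F3 σ h']; abel
  rw [hT]
  refine Finset.sum_involution (fun σ _ => Equiv.swap i₀ i₁ * σ) ?_ ?_ ?_ ?_
  · intro σ _
    have hinv0 : (Equiv.swap i₀ i₁ * σ)⁻¹ i₀ = σ⁻¹ i₁ := by
      simp [mul_inv_rev, Equiv.Perm.mul_apply]
    have hinv1 : (Equiv.swap i₀ i₁ * σ)⁻¹ i₁ = σ⁻¹ i₀ := by
      simp [mul_inv_rev, Equiv.Perm.mul_apply]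
    simp only [T, hinv0, hinv1]
    rcases lt_or_gt_of_ne (hne' σ) with h | h
    · rw [if_pos h, if_neg (not_lt.2 h.le), ← mul_assoc, Equiv.swap_mul_self, one_mul,
        Equiv.Perm.sign_mul, Equiv.Perm.sign_swap hne]
      simp
    · rw [if_neg (not_lt.2 h.le), if_pos h, Equiv.Perm.sign_mul, Equiv.Perm.sign_swap hne]
      simp
  · intro σ _ _ h
    have h1 : Equiv.swap i₀ i₁ = 1 := by
      have := congrArg (fun τ => τ * σ⁻¹) h
      simpa using this
    have h2 := congrArg (fun τ : Equiv.Perm (Fin n) => τ i₀) h1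
    simp at h2
    exact hne h2.symm
  · intro σ _
    exact Finset.mem_univ _
  · intro σ _
    simp [← mul_assoc]

variable (O n)

/-- The map from the free abelian group on ordered bases to cycles, sending an ordered basis to the
fundamental cycle of its apartment. -/
def preMap : FreeAbelianGroup (OrdBasis O n) →+ Cyc K n (n - 1) :=
  FreeAbelianGroup.lift (fun b => apartmentCycle K b)

lemma bykRel_le_ker : bykRel O n ≤ (preMap O K n).ker := by
  unfold bykRel
  apply (AddSubgroup.closure_le _).2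
  rintro x ((hx | hx) | hx)
  · obtain ⟨b, b', σ, h, rfl⟩ := hx
    rw [SetLike.mem_coe, AddMonoidHom.mem_ker]
    apply Subtype.ext
    simp only [preMap, map_sub, map_zsmul, FreeAbelianGroup.lift_apply_of]
    change apartmentChain K b - (Equiv.Perm.sign σ : ℤ) • apartmentChain K b' = 0
    rw [apartmentChain_perm K b b' σ h, sub_self]
  · obtain ⟨b, b', u, h0, h1, rfl⟩ := hx
    rw [SetLike.mem_coe, AddMonoidHom.mem_ker]
    apply Subtype.ext
    simp only [preMap, map_sub, FreeAbelianGroup.lift_apply_of]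
    change apartmentChain K b - apartmentChain K b' = 0
    rw [apartmentChain_unit K b b' u h0 h1, sub_self]
  · obtain ⟨b, b', b'', i₀, i₁, hi0, hi1, h1, h2, h3, h4, h5, h6, rfl⟩ := hx
    rw [SetLike.mem_coe, AddMonoidHom.mem_ker]
    apply Subtype.ext
    simp only [preMap, map_sub, map_add, FreeAbelianGroup.lift_apply_of]
    change apartmentChain K b - apartmentChain K b' + apartmentChain K b'' = 0
    apply apartmentChain_three K b b' b'' i₀ i₁ ?_ h1 h2 h3 h4 h5 h6
    intro h
    rw [h] at hi0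
    omega

lemma bykRel_le_ker' : bykRel O n ≤ ((homClass K n (n - 1)).comp (preMap O K n)).ker := by
  intro x hx
  have h := bykRel_le_ker O K n hx
  rw [AddMonoidHom.mem_ker] at h ⊢
  rw [AddMonoidHom.comp_apply, h, map_zero]

/-- The natural map `Byk_n(O) → St_n(K)`, sending the class of an ordered basis to the fundamental
class of its apartment. -/
def bykToSteinberg : BykGroup O n →+ Steinberg K n :=
  QuotientAddGroup.lift (bykRel O n) ((homClass K n (n - 1)).comp (preMap O K n))
    (bykRel_le_ker' O K n)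

lemma bykToSteinberg_toByk (x : FreeAbelianGroup (OrdBasis O n)) :
    bykToSteinberg O K n (toByk O n x) = homClass K n (n - 1) (preMap O K n x) := rfl

end Map

end

end Pool.Agent.H741R3.Byk
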