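import Mathlib

/-!
Derrida-Hilhorst singularity, part 1: the random variable `Z` and the Cesaro functional.
-/

open MeasureTheory ProbabilityTheory Filter Topology

namespace Pool.Agent.H741R3.DH

noncomputable section

/-- The weight `(1 + x)^α (1 + log (1 + x))`. -/
def w (α x : ℝ) : ℝ := (1 + x) ^ α * (1 + Real.log (1 + x))

/-- The standing assumptions. -/
structure Setup {Ω : Type*} [MeasurableSpace Ω] (P : Measure Ω) (Z : ℕ → Ω → ℝ) (α : ℝ) :
    Prop where
  prob : IsProbabilityMeasure P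
  meas : ∀ n, Measurable (Z n)
  indep : iIndepFun Z P
  ident : ∀ n, IdentDistrib (Z n) (Z 0) P P
  pos : ∀ᵐ ω ∂P, 0 < Z 0 ω
  nonconst : ¬ ∃ c, ∀ᵐ ω ∂P, Z 0 ω = c
  hα : 1 ≤ α
  one : ∫ ω, (Z 0 ω) ^ α ∂P = 1
  logint : Integrable (fun ω => (Z 0 ω) ^ α * Real.log (Z 0 ω)) P

variable {Ω : Type*} [MeasurableSpace Ω] {P : Measure Ω} {Z : ℕ → Ω → ℝ} {α : ℝ}

lemma rpow_eq_one_imp {z α : ℝ} (hz : 0 < z) (hα : 0 < α) (h : z ^ α = 1) : z = 1 := by
  have h1 := congrArg Real.log h
  rw [Real.log_rpow hz, Real.log_one] at h1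
  have h2 : Real.log z = 0 := by
    rcases mul_eq_zero.1 h1 with h3 | h3
    · exact absurd h3 hα.ne'
    · exact h3
  exact Real.eq_one_of_pos_of_log_eq_zero hz h2

namespace Setup

lemma α_pos (S : Setup P Z α) : 0 < α := lt_of_lt_of_le one_pos S.hα

lemma int_α (S : Setup P Z α) : Integrable (fun ω => (Z 0 ω) ^ α) P :=
  integrable_of_integral_eq_one S.one

lemma pos_all (S : Setup P Z α) : ∀ᵐ ω ∂P, ∀ n, 0 < Z n ω := by
  rw [ae_all_iff]
  intro n
  exact (S.ident n).symm.ae_snd (p := fun x => 0 < x) (measurableSet_lt measurable_const measurable_id) S.pos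

lemma int_rpow (S : Setup P Z α) {s : ℝ} (hs : 0 ≤ s) (hsα : s ≤ α) :
    Integrable (fun ω => (Z 0 ω) ^ s) P := by
  have := S.prob
  refine Integrable.mono' ((integrable_const (1 : ℝ)).add S.int_α)
    ((S.meas 0).pow_const s).aestronglyMeasurable ?_
  filter_upwards [S.pos] with ω hω
  rw [Real.norm_eq_abs, abs_of_nonneg (Real.rpow_nonneg hω.le _)]
  simp only [Pi.add_apply]
  rcases le_total (Z 0 ω) 1 with h | h
  · have := Real.rpow_le_one hω.le h hs
    have := Real.rpow_nonneg hω.le α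
    linarith
  · have := Real.rpow_le_rpow_of_exponent_le h hsα
    linarith

lemma not_ae_one (S : Setup P Z α) : ¬ ∀ᵐ ω ∂P, Z 0 ω = 1 := fun h => S.nonconst ⟨1, h⟩

lemma q_lt_one (S : Setup P Z α) {s : ℝ} (hs : 0 < s) (hsα : s < α) :
    ∫ ω, (Z 0 ω) ^ s ∂P < 1 := by
  have := S.prob
  have hα := S.α_pos
  set θ := s / α with hθ
  have hθ0 : 0 < θ := div_pos hs hα
  have hθ1 : θ < 1 := (div_lt_one hα).2 hsα
  have key : ∀ z : ℝ, 0 < z → z ^ s ≤ 1 + θ * (z ^ α - 1) ∧
      (z ^ s = 1 + θ * (z ^ α - 1) → z = 1) := by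
    intro z hz
    have h1 : z ^ s = (1 + (z ^ α - 1)) ^ θ := by
      rw [add_sub_cancel, ← Real.rpow_mul hz.le]
      congr 1
      rw [hθ]; field_simp
    have h2 : (-1 : ℝ) ≤ z ^ α - 1 := by
      have := Real.rpow_nonneg hz.le α
      linarith
    constructor
    · rw [h1]
      exact rpow_one_add_le_one_add_mul_self h2 hθ0.le hθ1.le
    · intro heq
      by_contra hne
      have h3 : z ^ α - 1 ≠ 0 := by
        intro h4
        have h5 : z ^ α = 1 := by linarith
        exact hne (rpow_eq_one_imp hz hα h5)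
      have := rpow_one_add_lt_one_add_mul_self h2 h3 hθ0 hθ1
      rw [← h1] at this
      linarith
  have hint := S.int_rpow hs.le hsα.le
  have hint2 : Integrable (fun ω => 1 + θ * ((Z 0 ω) ^ α - 1)) P :=
    (integrable_const _).add ((S.int_α.sub (integrable_const _)).const_mul θ)
  have hval : ∫ ω, (1 + θ * ((Z 0 ω) ^ α - 1)) ∂P = 1 := by
    have e1 : Integrable (fun ω => (Z 0 ω) ^ α - 1) P := S.int_α.sub (integrable_const _)
    rw [integral_add (integrable_const _) (e1.const_mul θ),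
      integral_const_mul, integral_sub S.int_α (integrable_const _), S.one]
    simp
  have hle : ∫ ω, (Z 0 ω) ^ s ∂P ≤ 1 := by
    rw [← hval]
    refine integral_mono_ae hint hint2 ?_
    filter_upwards [S.pos] with ω hω using (key _ hω).1
  refine lt_of_le_of_ne hle ?_
  intro heq
  apply S.not_ae_one
  have h0 : ∫ ω, ((1 + θ * ((Z 0 ω) ^ α - 1)) - (Z 0 ω) ^ s) ∂P = 0 := by
    rw [integral_sub hint2 hint, hval, heq, sub_self]
  have hsub : Integrable (fun ω => (1 + θ * ((Z 0 ω) ^ α - 1)) - (Z 0 ω) ^ s) P := hint2.sub hint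
  have hnn : 0 ≤ᵐ[P] fun ω => (1 + θ * ((Z 0 ω) ^ α - 1)) - (Z 0 ω) ^ s := by
    filter_upwards [S.pos] with ω hω
    have := (key _ hω).1
    simp only [Pi.zero_apply]
    linarith
  have h0' := (integral_eq_zero_iff_of_nonneg_ae hnn hsub).1 h0
  filter_upwards [h0', S.pos] with ω h1 hω
  apply (key _ hω).2
  simp only [Pi.zero_apply] at h1
  linarith

/-- The constant `m = E[Z^α log Z]` is positive. -/
lemma m_pos (S : Setup P Z α) : 0 < ∫ ω, (Z 0 ω) ^ α * Real.log (Z 0 ω) ∂P := by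
  have := S.prob
  have hα := S.α_pos
  have key : ∀ z : ℝ, 0 < z → (z ^ α - 1) ≤ α * (z ^ α * Real.log z) ∧
      ((z ^ α - 1) = α * (z ^ α * Real.log z) → z = 1) := by
    intro z hz
    have hzα : 0 < z ^ α := Real.rpow_pos_of_pos hz α
    have h1 : α * (z ^ α * Real.log z) = z ^ α * Real.log (z ^ α) := by
      rw [Real.log_rpow hz]; ring
    rw [h1]
    have h2 : Real.log (z ^ α) = - Real.log ((z ^ α)⁻¹) := by rw [Real.log_inv, neg_neg]
    constructor
    · have h3 := Real.log_le_sub_one_of_pos (inv_pos.2 hzα)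
      rw [h2]
      have h4 : z ^ α * Real.log ((z ^ α)⁻¹) ≤ z ^ α * ((z ^ α)⁻¹ - 1) :=
        mul_le_mul_of_nonneg_left h3 hzα.le
      have h5 : z ^ α * ((z ^ α)⁻¹ - 1) = 1 - z ^ α := by field_simp
      linarith
    · intro heq
      by_contra hne
      have h3 : (z ^ α)⁻¹ ≠ 1 := by
        intro h4
        have h5 : z ^ α = 1 := inv_eq_one.1 h4
        exact hne (rpow_eq_one_imp hz hα h5)
      have h4 := Real.log_lt_sub_one_of_pos (inv_pos.2 hzα) h3
      rw [h2] at heq
      have h5 : z ^ α * Real.log ((z ^ α)⁻¹) < z ^ α * ((z ^ α)⁻¹ - 1) :=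
        mul_lt_mul_of_pos_left h4 hzα
      have h6 : z ^ α * ((z ^ α)⁻¹ - 1) = 1 - z ^ α := by field_simp
      linarith
  have hint1 : Integrable (fun ω => (Z 0 ω) ^ α - 1) P := S.int_α.sub (integrable_const _)
  have hint2 := S.logint.const_mul α
  have hval : ∫ ω, ((Z 0 ω) ^ α - 1) ∂P = 0 := by
    rw [integral_sub S.int_α (integrable_const _), S.one]; simp
  have hle : 0 ≤ α * ∫ ω, (Z 0 ω) ^ α * Real.log (Z 0 ω) ∂P := by
    rw [← integral_const_mul, ← hval]
    refine integral_mono_ae hint1 hint2 ?_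
    filter_upwards [S.pos] with ω hω using (key _ hω).1
  have hle' : 0 ≤ ∫ ω, (Z 0 ω) ^ α * Real.log (Z 0 ω) ∂P := nonneg_of_mul_nonneg_right hle hα
  refine lt_of_le_of_ne hle' ?_
  intro heq
  apply S.not_ae_one
  have h0 : ∫ ω, (α * ((Z 0 ω) ^ α * Real.log (Z 0 ω)) - ((Z 0 ω) ^ α - 1)) ∂P = 0 := by
    rw [integral_sub hint2 hint1, hval, integral_const_mul, ← heq]; simp
  have hsub : Integrable (fun ω => α * ((Z 0 ω) ^ α * Real.log (Z 0 ω)) - ((Z 0 ω) ^ α - 1)) P :=
    hint2.sub hint1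
  have hnn : 0 ≤ᵐ[P] fun ω => α * ((Z 0 ω) ^ α * Real.log (Z 0 ω)) - ((Z 0 ω) ^ α - 1) := by
    filter_upwards [S.pos] with ω hω
    have := (key _ hω).1
    simp only [Pi.zero_apply]
    linarith
  have h0' := (integral_eq_zero_iff_of_nonneg_ae hnn hsub).1 h0
  filter_upwards [h0', S.pos] with ω h1 hω
  apply (key _ hω).2
  simp only [Pi.zero_apply] at h1
  linarith

end Setup

lemma rpow_mul_log_ge {α z : ℝ} (hα : 1 ≤ α) (hz : 0 < z) : -1 ≤ z ^ α * Real.log z := by
  rcases le_total z 1 with h | h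
  · have h1 : z ^ α ≤ z := by
      have := Real.rpow_le_rpow_of_exponent_ge hz h hα
      rwa [Real.rpow_one] at this
    have h12 : Real.log z ≤ 0 := Real.log_nonpos hz.le h
    have h7 := Real.log_le_sub_one_of_pos (inv_pos.2 hz)
    rw [Real.log_inv] at h7
    have h8 : z * (-Real.log z) ≤ z * (z⁻¹ - 1) := mul_le_mul_of_nonneg_left h7 hz.le
    have h9 : z * (z⁻¹ - 1) = 1 - z := by field_simp
    have h10 : z * Real.log z ≤ z ^ α * Real.log z := mul_le_mul_of_nonpos_right h1 h12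
    linarith
  · have h1 : 0 ≤ z ^ α * Real.log z := mul_nonneg (Real.rpow_nonneg hz.le _) (Real.log_nonneg h)
    linarith

lemma w_le {α z : ℝ} (hα1 : 1 ≤ α) (hz : 0 < z) :
    w α z ≤ (2 : ℝ) ^ α * (1 + Real.log 2) * (1 + z ^ α)
      + (2 : ℝ) ^ α * (z ^ α * Real.log z + 1) := by
  have hα : 0 < α := by linarith
  have h2 : (0 : ℝ) < (2 : ℝ) ^ α := by positivity
  have hl2 : 0 < Real.log 2 := Real.log_pos (by norm_num)
  have hzα : 0 < z ^ α := Real.rpow_pos_of_pos hz α
  have h6' := rpow_mul_log_ge hα1 hz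
  unfold w
  rcases le_total z 1 with h | h
  · have h1 : (1 + z) ^ α ≤ 2 ^ α := Real.rpow_le_rpow (by linarith) (by linarith) hα.le
    have h3 : Real.log (1 + z) ≤ Real.log 2 := Real.log_le_log (by linarith) (by linarith)
    have h4 : 0 ≤ Real.log (1 + z) := Real.log_nonneg (by linarith)
    have h5 : (1 + z) ^ α * (1 + Real.log (1 + z)) ≤ 2 ^ α * (1 + Real.log 2) :=
      mul_le_mul h1 (by linarith) (by linarith) h2.le
    have h6 : 0 ≤ z ^ α * Real.log z + 1 := by linarith
    have h7 : 0 ≤ 2 ^ α * (1 + Real.log 2) * z ^ α := by positivity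
    nlinarith
  · have hlz : 0 ≤ Real.log z := Real.log_nonneg h
    have h1 : (1 + z) ^ α ≤ 2 ^ α * z ^ α := by
      rw [← Real.mul_rpow (by norm_num) hz.le]
      exact Real.rpow_le_rpow (by linarith) (by linarith) hα.le
    have h3 : Real.log (1 + z) ≤ Real.log 2 + Real.log z := by
      rw [← Real.log_mul (by norm_num) hz.ne']
      exact Real.log_le_log (by linarith) (by linarith)
    have h4 : 0 ≤ Real.log (1 + z) := Real.log_nonneg (by linarith)
    have h5 : (1 + z) ^ α * (1 + Real.log (1 + z)) ≤ 2 ^ α * z ^ α * (1 + (Real.log 2 + Real.log z)) :=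
      mul_le_mul h1 (by linarith) (by linarith) (by positivity)
    have h6 : 2 ^ α * z ^ α * (1 + (Real.log 2 + Real.log z))
        = 2 ^ α * (1 + Real.log 2) * z ^ α + 2 ^ α * (z ^ α * Real.log z) := by ring
    have h7 : 0 ≤ 2 ^ α * (1 + Real.log 2) := by positivity
    nlinarith

lemma w_nonneg {α x : ℝ} (hx : 0 ≤ x) : 0 ≤ w α x :=
  mul_nonneg (Real.rpow_nonneg (by linarith) _)
    (add_nonneg zero_le_one (Real.log_nonneg (by linarith)))

lemma measurable_w (α : ℝ) : Measurable (w α) := by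
  unfold w
  exact ((measurable_const.add measurable_id).pow_const α).mul
    (measurable_const.add (Real.measurable_log.comp (measurable_const.add measurable_id)))

lemma Setup.int_w (S : Setup P Z α) : Integrable (fun ω => w α (Z 0 ω)) P := by
  have := S.prob
  refine Integrable.mono' ((((integrable_const (1 : ℝ)).add S.int_α).const_mul
    ((2 : ℝ) ^ α * (1 + Real.log 2))).add ((S.logint.add (integrable_const 1)).const_mul
      ((2 : ℝ) ^ α))) ((measurable_w α).comp (S.meas 0)).aestronglyMeasurable ?_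
  filter_upwards [S.pos] with ω hω
  rw [Real.norm_eq_abs, abs_of_nonneg (w_nonneg hω.le)]
  exact w_le S.hα hω

end

end Pool.Agent.H741R3.DH
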