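import Pool.Agent.H741R3.DH9

/-!
Derrida-Hilhorst singularity, part 10: almost sure convergence and the Lyapunov exponent.
-/

open MeasureTheory ProbabilityTheory Filter Topology Asymptotics

namespace Pool.Agent.H741R3.DH

noncomputable section

/-! ### deterministic lemmas -/

lemma ev_lt (u s : ℕ → ℝ) (hu : Monotone u) (hu0 : ∀ n, 0 ≤ u n) {m : ℕ} (hm : m ≠ 0)
    (hs : ∀ n, 1 ≤ n → u (n * m) ≤ s n) {c L : ℝ}
    (h : Tendsto (fun n : ℕ => s n / (n : ℝ)) atTop (𝓝 c))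
    (hL : c / m < L) : ∀ᶠ N : ℕ in atTop, u N / (N : ℝ) < L := by
  refine Filter.Eventually.atTop_of_arithmetic hm fun r hr => ?_
  have hm0 : (0 : ℝ) < m := by exact_mod_cast Nat.pos_of_ne_zero hm
  have t1 : Tendsto (fun k : ℕ => s (k + 1) / ((k + 1 : ℕ) : ℝ)) atTop (𝓝 c) :=
    h.comp (tendsto_add_atTop_nat 1)
  have t2 : Tendsto (fun k : ℕ => (1 / (m : ℝ)) * (1 + 1 / (k : ℝ))) atTop
      (𝓝 ((1 / (m : ℝ)) * (1 + 0))) :=
    (tendsto_const_nhds.add tendsto_one_div_atTop_nhds_zero_nat).const_mul _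
  have t3 := t1.mul t2
  have e0 : c * (1 / (m : ℝ) * (1 + 0)) = c / m := by ring
  rw [e0] at t3
  filter_upwards [t3.eventually_lt_const hL, eventually_ge_atTop 1] with k hk hk1
  refine lt_of_le_of_lt ?_ hk
  have hk0 : (0 : ℝ) < k := by exact_mod_cast hk1
  have e1 : u (m * k + r) ≤ s (k + 1) :=
    (hu (by nlinarith : m * k + r ≤ (k + 1) * m)).trans (hs (k + 1) (by omega))
  have hs0 : 0 ≤ s (k + 1) := (hu0 _).trans e1
  have e2 : s (k + 1) / ((k + 1 : ℕ) : ℝ) * (1 / (m : ℝ) * (1 + 1 / (k : ℝ)))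
      = s (k + 1) / (m * k) := by
    push_cast
    field_simp
  rw [e2]
  have e3 : ((m * k + r : ℕ) : ℝ) = m * k + r := by push_cast; ring
  rw [e3]
  have hr0 : (0 : ℝ) ≤ r := Nat.cast_nonneg r
  exact div_le_div₀ hs0 e1 (by positivity) (by linarith)

lemma ev_gt (u s : ℕ → ℝ) (hu : Monotone u) (hu0 : ∀ n, 0 ≤ u n) {m : ℕ} (hm : m ≠ 0)
    (hs : ∀ n, s n ≤ u (n * m)) {c L : ℝ}
    (h : Tendsto (fun n : ℕ => s n / (n : ℝ)) atTop (𝓝 c))
    (hL : L < c / m) : ∀ᶠ N : ℕ in atTop, L < u N / (N : ℝ) := by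
  refine Filter.Eventually.atTop_of_arithmetic hm fun r hr => ?_
  have hm0 : (0 : ℝ) < m := by exact_mod_cast Nat.pos_of_ne_zero hm
  have t2 : Tendsto (fun k : ℕ => (1 / (m : ℝ)) * (1 - 1 / ((k : ℝ) + 1))) atTop
      (𝓝 ((1 / (m : ℝ)) * (1 - 0))) :=
    (tendsto_const_nhds.sub tendsto_one_div_add_atTop_nhds_zero_nat).const_mul _
  have t3 := h.mul t2
  have e0 : c * (1 / (m : ℝ) * (1 - 0)) = c / m := by ring
  rw [e0] at t3
  filter_upwards [t3.eventually_const_lt hL, eventually_ge_atTop 1] with k hk hk1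
  refine lt_of_lt_of_le hk ?_
  have hk0 : (0 : ℝ) < k := by exact_mod_cast hk1
  have e2 : s k / (k : ℝ) * (1 / (m : ℝ) * (1 - 1 / ((k : ℝ) + 1)))
      = s k / (m * (k + 1)) := by
    field_simp
    ring
  rw [e2]
  have e3 : ((m * k + r : ℕ) : ℝ) = m * k + r := by push_cast; ring
  rw [e3]
  have hr0 : (0 : ℝ) ≤ r := Nat.cast_nonneg r
  have hr1 : (r : ℝ) ≤ m := by exact_mod_cast hr.le
  have e4 : u (k * m) ≤ u (m * k + r) := hu (by nlinarith)
  calc s k / (m * (k + 1)) ≤ u (m * k + r) / (m * (k + 1)) :=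
        div_le_div_of_nonneg_right ((hs k).trans e4) (by positivity)
    _ ≤ u (m * k + r) / (m * k + r) :=
        div_le_div_of_nonneg_left (hu0 _) (by positivity) (by nlinarith)

/-- Combination. -/
lemma tendsto_of_blocks (u : ℕ → ℝ) (hu : Monotone u) (hu0 : ∀ n, 0 ≤ u n)
    (s t : ℕ → ℕ → ℝ) (c d : ℕ → ℝ) {ℓ : ℝ}
    (hs : ∀ m n, 1 ≤ n → u (n * m) ≤ s m n) (ht : ∀ m n, t m n ≤ u (n * m))
    (hsc : ∀ m, 1 ≤ m → Tendsto (fun n : ℕ => s m n / (n : ℝ)) atTop (𝓝 (c m)))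
    (htd : ∀ m, 1 ≤ m → Tendsto (fun n : ℕ => t m n / (n : ℝ)) atTop (𝓝 (d m)))
    (hc : Tendsto (fun m : ℕ => c m / (m : ℝ)) atTop (𝓝 ℓ))
    (hd : Tendsto (fun m : ℕ => d m / (m : ℝ)) atTop (𝓝 ℓ)) :
    Tendsto (fun N : ℕ => u N / (N : ℝ)) atTop (𝓝 ℓ) := by
  rw [tendsto_order]
  constructor
  · intro L hL
    obtain ⟨m, hm, hm1⟩ := ((hd.eventually_const_lt hL).and (eventually_ge_atTop 1)).exists
    exact ev_gt u (t m) hu hu0 (by omega) (ht m) (htd m hm1) hm
  · intro L hL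
    obtain ⟨m, hm, hm1⟩ := ((hc.eventually_lt_const hL).and (eventually_ge_atTop 1)).exists
    exact ev_lt u (s m) hu hu0 (by omega) (hs m) (hsc m hm1) hm

lemma tendsto_incr (S : ℕ → ℝ) {c : ℝ} (h : Tendsto (fun n : ℕ => S n / (n : ℝ)) atTop (𝓝 c)) :
    Tendsto (fun n : ℕ => (S (n + 1) - S n) / ((n : ℝ) + 1)) atTop (𝓝 0) := by
  have t1 : Tendsto (fun k : ℕ => S (k + 1) / ((k + 1 : ℕ) : ℝ)) atTop (𝓝 c) :=
    h.comp (tendsto_add_atTop_nat 1)
  have t2 : Tendsto (fun k : ℕ => (1 - 1 / ((k : ℝ) + 1))) atTop (𝓝 (1 - 0)) :=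
    tendsto_const_nhds.sub tendsto_one_div_add_atTop_nhds_zero_nat
  have t3 := t1.sub (h.mul t2)
  have e0 : c - c * (1 - 0) = 0 := by ring
  rw [e0] at t3
  refine t3.congr' ?_
  filter_upwards [eventually_ge_atTop 1] with k hk1
  have hk0 : (0 : ℝ) < k := by exact_mod_cast hk1
  push_cast
  field_simp
  ring

/-! ### measurability -/

lemma measurable_matProd (ε : ℝ) (n : ℕ) :
    ∀ i j, Measurable (fun z : ℕ → ℝ => matProd ε z n i j) := by
  induction n with
  | zero => intro i j; exact measurable_const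
  | succ n ih =>
    intro i j
    have h0 := ih 0 j
    have h1 := ih 1 j
    have hz : Measurable (fun z : ℕ → ℝ => z n) := measurable_pi_apply n
    fin_cases i
    · have e : (fun z : ℕ → ℝ => matProd ε z (n + 1) 0 j)
          = fun z => matProd ε z n 0 j + ε * matProd ε z n 1 j := by
        funext z; rw [matProd_succ, mul00]
      change Measurable (fun z : ℕ → ℝ => matProd ε z (n + 1) 0 j)
      rw [e]
      exact h0.add (h1.const_mul ε)
    · have e : (fun z : ℕ → ℝ => matProd ε z (n + 1) 1 j)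
          = fun z => z n * (ε * matProd ε z n 0 j + matProd ε z n 1 j) := by
        funext z; rw [matProd_succ, mul10]
      change Measurable (fun z : ℕ → ℝ => matProd ε z (n + 1) 1 j)
      rw [e]
      exact hz.mul ((h0.const_mul ε).add h1)

lemma measurable_abs' {β : Type*} [MeasurableSpace β] {f : β → ℝ} (hf : Measurable f) :
    Measurable fun x => |f x| := continuous_abs.measurable.comp hf

lemma measurable_Ln (ε : ℝ) (n : ℕ) : Measurable (Ln ε n) := by
  unfold Ln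
  apply Real.measurable_log.comp
  have e : (fun z : ℕ → ℝ => entryNorm (matProd ε z n))
      = fun z => (|matProd ε z n 0 0| + |matProd ε z n 0 1|)
        + (|matProd ε z n 1 0| + |matProd ε z n 1 1|) := by
    funext z; rw [entryNorm_eq]
  rw [e]
  exact ((measurable_abs' (measurable_matProd ε n 0 0)).add
    (measurable_abs' (measurable_matProd ε n 0 1))).add
    ((measurable_abs' (measurable_matProd ε n 1 0)).add
    (measurable_abs' (measurable_matProd ε n 1 1)))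

lemma measurable_ln00 (ε : ℝ) (n : ℕ) : Measurable (ln00 ε n) :=
  Real.measurable_log.comp (measurable_matProd ε n 0 0)

variable {Ω : Type*} [mΩ : MeasurableSpace Ω] {P : Measure Ω} {Z : ℕ → Ω → ℝ} {α : ℝ} {p : ℕ}

namespace Setup

lemma measurable_seq (S : Setup P Z α) (m : ℕ) :
    Measurable (fun ω => fun k => Z (m + k) ω) := measurable_pi_lambda _ fun k => S.meas _

lemma shift (S : Setup P Z α) (m : ℕ) :
    IdentDistrib (fun ω => fun k => Z (m + k) ω) (fun ω => fun k => Z k ω) P P := by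
  refine ⟨(S.measurable_seq m).aemeasurable,
    (measurable_pi_lambda _ fun k => S.meas _).aemeasurable, ?_⟩
  have h1 := (S.indep.precomp (g := fun k => m + k)
    (add_right_injective m)).map_fun_eq_infinitePi_map (fun i => S.meas (m + i))
  have h2 := S.indep.map_fun_eq_infinitePi_map S.meas
  rw [h1, h2]
  congr 1
  funext i
  rw [(S.ident (m + i)).map_eq, (S.ident i).map_eq]

/-- The restriction extended by zero. -/
def ext0 (T : Finset ℕ) (v : T → ℝ) (k : ℕ) : ℝ := if h : k ∈ T then v ⟨k, h⟩ else 0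

lemma measurable_ext0 (T : Finset ℕ) (k : ℕ) : Measurable (fun v : T → ℝ => ext0 T v k) := by
  unfold ext0
  by_cases h : k ∈ T
  · simp only [h, dif_pos]
    exact measurable_pi_apply _
  · simp only [h, dif_neg, not_false_eq_true]
    exact measurable_const

/-- Strong law for blocks. -/
lemma slln (S : Setup P Z α) {Φ : (ℕ → ℝ) → ℝ} (hΦ : Measurable Φ) {m : ℕ}
    (hdep : ∀ z z' : ℕ → ℝ, (∀ k, k < m → z k = z' k) → Φ z = Φ z')
    (hint : Integrable (fun ω => Φ (fun k => Z k ω)) P) :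
    ∀ᵐ ω ∂P, Tendsto (fun n : ℕ => (∑ i ∈ Finset.range n, Φ (fun k => Z (i * m + k) ω)) / (n : ℝ))
      atTop (𝓝 (∫ ω, Φ (fun k => Z k ω) ∂P)) := by
  have hid : ∀ i, IdentDistrib (fun ω => Φ (fun k => Z (i * m + k) ω))
      (fun ω => Φ (fun k => Z k ω)) P P := fun i => (S.shift (i * m)).comp hΦ
  have h := strong_law_ae_real (μ := P) (fun i ω => Φ (fun k => Z (i * m + k) ω))
    ((hid 0).integrable_iff.2 hint) ?_ (fun i => (hid i).trans (hid 0).symm)
  · rw [(hid 0).integral_eq] at h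
    exact h
  · intro i j hij
    change IndepFun (fun ω => Φ (fun k => Z (i * m + k) ω)) (fun ω => Φ (fun k => Z (j * m + k) ω)) P
    have hdisj : Disjoint (Finset.Ico (i * m) (i * m + m)) (Finset.Ico (j * m) (j * m + m)) := by
      rw [Finset.disjoint_left]
      intro k hk hk'
      rw [Finset.mem_Ico] at hk hk'
      rcases lt_or_gt_of_ne hij with h | h
      · have : (i + 1) * m ≤ j * m := Nat.mul_le_mul_right m h
        nlinarith
      · have : (j + 1) * m ≤ i * m := Nat.mul_le_mul_right m h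
        nlinarith
    have hbase := S.indep.indepFun_finset _ _ hdisj S.meas
    have hg : ∀ i : ℕ, Measurable (fun v : Finset.Ico (i * m) (i * m + m) → ℝ =>
        Φ (fun k => ext0 _ v (i * m + k))) := fun i =>
      hΦ.comp (measurable_pi_lambda _ fun k => measurable_ext0 _ _)
    have h2 := hbase.comp (hg i) (hg j)
    have e : ∀ i : ℕ, ((fun v : Finset.Ico (i * m) (i * m + m) → ℝ =>
        Φ (fun k => ext0 _ v (i * m + k))) ∘ fun ω (s : Finset.Ico (i * m) (i * m + m)) => Z s ω)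
        = fun ω => Φ (fun k => Z (i * m + k) ω) := by
      intro i
      funext ω
      apply hdep
      intro k hk
      unfold ext0
      rw [dif_pos (by rw [Finset.mem_Ico]; omega)]
    rw [e i, e j] at h2
    exact h2

variable {ε : ℝ}

lemma good (S : Setup P Z α) (hε : 0 < ε) :
    ∀ᵐ ω ∂P, (∀ k, 0 < Z k ω) ∧ ∀ n, 0 ≤ X Z (ε ^ 2) n ω := by
  filter_upwards [S.pos_all, S.X_nonneg (pow_pos hε 2)] with ω h1 h2 using ⟨h1, h2⟩

lemma cl_logV (hα : 1 ≤ α) : Cl α (fun x => Real.log (1 + x)) := by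
  have := cl_log (α := α) one_pos hα
  simpa using this

lemma int_ln00 (S : Setup P Z α) (hε : 0 < ε) (hε1 : ε ≤ 1) (n : ℕ) :
    Integrable (fun ω => ln00 ε n (fun k => Z k ω)) P ∧
    ∫ ω, ln00 ε n (fun k => Z k ω) ∂P
      = ∑ k ∈ Finset.range n, E P Z (ε ^ 2) (fun x => Real.log (1 + ε ^ 2 * x)) k := by
  have ha : 0 < ε ^ 2 := pow_pos hε 2
  have ha1 : ε ^ 2 ≤ 1 := pow_le_one₀ hε.le hε1
  have hint : ∀ k ∈ Finset.range n,
      Integrable (fun ω => Real.log (1 + ε ^ 2 * X Z (ε ^ 2) k ω)) P :=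
    fun k _ => S.int_f ha ha1 (cl_log ha S.hα) k
  have hae : (fun ω => ln00 ε n (fun k => Z k ω)) =ᵐ[P]
      fun ω => ∑ k ∈ Finset.range n, Real.log (1 + ε ^ 2 * X Z (ε ^ 2) k ω) := by
    filter_upwards [S.good hε] with ω hω using ln00_eq hε hω.1 hω.2 n
  refine ⟨(integrable_finset_sum _ hint).congr hae.symm, ?_⟩
  rw [integral_congr_ae hae, integral_finset_sum _ hint]
  rfl

lemma int_Ln (S : Setup P Z α) (hε : 0 < ε) (hε1 : ε ≤ 1) (n : ℕ) :
    Integrable (fun ω => Ln ε n (fun k => Z k ω)) P := by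
  have hprob := S.prob
  have ha : 0 < ε ^ 2 := pow_pos hε 2
  have ha1 : ε ^ 2 ≤ 1 := pow_le_one₀ hε.le hε1
  have hmeas : Measurable (fun ω => fun k => Z k ω) := measurable_pi_lambda _ fun k => S.meas _
  rcases Nat.eq_zero_or_pos n with rfl | hn
  · have e : (fun ω => Ln ε 0 (fun k => Z k ω)) = fun _ => Real.log (entryNorm 1) := by
      funext ω; simp [Ln, matProd]
    rw [e]
    exact integrable_const _
  · refine Integrable.mono' (((S.int_ln00 hε hε1 n).1.add (integrable_const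
      (Real.log (1 + ε⁻¹)))).add (S.int_f ha ha1 (cl_logV S.hα) n))
      ((measurable_Ln ε n).comp hmeas).aestronglyMeasurable ?_
    filter_upwards [S.good hε] with ω hω
    rw [Real.norm_eq_abs, abs_of_nonneg (Ln_nonneg hε hω.1 n)]
    exact Ln_le hε hε1 hω.1 hω.2 n hn

/-- The expected logarithm of the norm. -/
def aS (P : Measure Ω) (Z : ℕ → Ω → ℝ) (ε : ℝ) (n : ℕ) : ℝ := ∫ ω, Ln ε n (fun k => Z k ω) ∂P

/-- The expected logarithm of the corner entry. -/
def bS (P : Measure Ω) (Z : ℕ → Ω → ℝ) (ε : ℝ) (n : ℕ) : ℝ := ∫ ω, ln00 ε n (fun k => Z k ω) ∂P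

lemma subadd (S : Setup P Z α) (hε : 0 < ε) (hε1 : ε ≤ 1) : Subadditive (aS P Z ε) := by
  intro m n
  have hid := (S.shift m).comp (measurable_Ln ε n)
  have hi1 : Integrable (fun ω => Ln ε n (fun k => Z (m + k) ω)) P :=
    hid.integrable_iff.2 (S.int_Ln hε hε1 n)
  have he1 : ∫ ω, Ln ε n (fun k => Z (m + k) ω) ∂P = aS P Z ε n := hid.integral_eq
  have hi2 := S.int_Ln hε hε1 m
  have h : aS P Z ε (m + n)
      ≤ ∫ ω, (Ln ε n (fun k => Z (m + k) ω) + Ln ε m (fun k => Z k ω)) ∂P := by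
    refine integral_mono_ae (S.int_Ln hε hε1 (m + n)) (hi1.add hi2) ?_
    filter_upwards [S.good hε] with ω hω using Ln_add hε hω.1 m n
  rw [integral_add hi1 hi2, he1] at h
  unfold aS at h ⊢
  linarith

lemma aS_nonneg (S : Setup P Z α) (hε : 0 < ε) (n : ℕ) : 0 ≤ aS P Z ε n := by
  apply integral_nonneg_of_ae
  filter_upwards [S.good hε] with ω hω using Ln_nonneg hε hω.1 n

lemma aS_tendsto (S : Setup P Z α) (hε : 0 < ε) (hε1 : ε ≤ 1) :
    ∃ L, Tendsto (fun n : ℕ => aS P Z ε n / (n : ℝ)) atTop (𝓝 L) := by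
  refine ⟨_, (S.subadd hε hε1).tendsto_lim ⟨0, ?_⟩⟩
  rintro x ⟨n, rfl⟩
  exact div_nonneg (S.aS_nonneg hε n) (Nat.cast_nonneg n)

lemma bS_tendsto (S : Setup P Z α) (hε : 0 < ε) (hε1 : ε ≤ 1) {L : ℝ}
    (h : Tendsto (fun n : ℕ => aS P Z ε n / (n : ℝ)) atTop (𝓝 L)) :
    Tendsto (fun n : ℕ => bS P Z ε n / (n : ℝ)) atTop (𝓝 L) := by
  have hprob := S.prob
  have ha : 0 < ε ^ 2 := pow_pos hε 2
  have ha1 : ε ^ 2 ≤ 1 := pow_le_one₀ hε.le hε1
  obtain ⟨C, hC⟩ := S.bdd_E ha ha1 (cl_logV S.hα)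
  have h1 : Tendsto (fun n : ℕ => aS P Z ε n / (n : ℝ) - (Real.log (1 + ε⁻¹) + C) / (n : ℝ))
      atTop (𝓝 (L - 0)) := h.sub (tendsto_const_div_atTop_nhds_zero_nat _)
  rw [sub_zero] at h1
  refine tendsto_of_tendsto_of_tendsto_of_le_of_le' h1 h ?_ ?_
  · filter_upwards [eventually_ge_atTop 1] with n hn
    rw [← sub_div]
    apply div_le_div_of_nonneg_right _ (Nat.cast_nonneg n)
    have hi := S.int_f ha ha1 (cl_logV S.hα) n
    have h2 : aS P Z ε n ≤ ∫ ω, ((ln00 ε n (fun k => Z k ω) + Real.log (1 + ε⁻¹))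
        + Real.log (1 + X Z (ε ^ 2) n ω)) ∂P := by
      refine integral_mono_ae (S.int_Ln hε hε1 n)
        (((S.int_ln00 hε hε1 n).1.add (integrable_const _)).add hi) ?_
      filter_upwards [S.good hε] with ω hω using Ln_le hε hε1 hω.1 hω.2 n hn
    have hi12 : Integrable (fun ω => ln00 ε n (fun k => Z k ω) + Real.log (1 + ε⁻¹)) P :=
      (S.int_ln00 hε hε1 n).1.add (integrable_const _)
    rw [integral_add hi12 hi,
      integral_add (S.int_ln00 hε hε1 n).1 (integrable_const _), integral_const, probReal_univ,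
      one_smul] at h2
    have h3 : ∫ ω, Real.log (1 + X Z (ε ^ 2) n ω) ∂P ≤ C := (le_abs_self _).trans (hC n)
    unfold bS
    linarith
  · filter_upwards [eventually_ge_atTop 1] with n hn
    apply div_le_div_of_nonneg_right _ (Nat.cast_nonneg n)
    refine integral_mono_ae (S.int_ln00 hε hε1 n).1 (S.int_Ln hε hε1 n) ?_
    filter_upwards [S.good hε] with ω hω using ln00_le_Ln hε hω.1 n

lemma Lf_eq (S : Setup P Z α) (hε : 0 < ε) (hε1 : ε ≤ 1) {L : ℝ}
    (h : Tendsto (fun n : ℕ => bS P Z ε n / (n : ℝ)) atTop (𝓝 L)) : Lf P Z (ε ^ 2) = L := by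
  unfold Lf Lam
  apply Lm_eq
  refine (h.mono_left UF_le).congr fun n => ?_
  unfold bS ces
  rw [(S.int_ln00 hε hε1 n).2]

lemma logX_le (S : Setup P Z α) (hε : 0 < ε) (hε1 : ε ≤ 1) {ω : Ω} (hz : ∀ k, 0 < Z k ω)
    (hX : ∀ n, 0 ≤ X Z (ε ^ 2) n ω) (n : ℕ) :
    Real.log (1 + X Z (ε ^ 2) (n + 1) ω) ≤ Real.log (ε ^ 2)⁻¹ + Real.log (1 + Z n ω) := by
  have ha : 0 < ε ^ 2 := pow_pos hε 2
  have ha1 : ε ^ 2 ≤ 1 := pow_le_one₀ hε.le hε1
  have hzn := hz n
  have h1 : X Z (ε ^ 2) (n + 1) ω ≤ Z n ω / ε ^ 2 := by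
    change Z n ω * W (ε ^ 2) (X Z (ε ^ 2) n ω) ≤ Z n ω / ε ^ 2
    rw [div_eq_mul_one_div]
    exact mul_le_mul_of_nonneg_left (W_le_inv ha ha1 (hX n)) hzn.le
  have h2 : 1 ≤ (ε ^ 2)⁻¹ := (one_le_inv₀ ha).2 ha1
  have h3 : 1 + X Z (ε ^ 2) (n + 1) ω ≤ (ε ^ 2)⁻¹ * (1 + Z n ω) := by
    rw [div_eq_inv_mul] at h1
    nlinarith
  rw [← Real.log_mul (by positivity) (by linarith)]
  exact Real.log_le_log (by linarith [hX (n + 1)]) h3

/-- Almost sure convergence to the Lyapunov exponent. -/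
theorem lyap (S : Setup P Z α) (hε : 0 < ε) (hε1 : ε ≤ 1) :
    ∀ᵐ ω ∂P, Tendsto (fun n : ℕ => Ln ε n (fun k => Z k ω) / (n : ℝ)) atTop
      (𝓝 (Lf P Z (ε ^ 2))) := by
  obtain ⟨L, hL⟩ := S.aS_tendsto hε hε1
  have hb := S.bS_tendsto hε hε1 hL
  rw [S.Lf_eq hε hε1 hb]
  have h1 : ∀ᵐ ω ∂P, ∀ m : ℕ, Tendsto (fun n : ℕ =>
      (∑ i ∈ Finset.range n, Ln ε m (fun k => Z (i * m + k) ω)) / (n : ℝ)) atTop
      (𝓝 (aS P Z ε m)) := by
    rw [ae_all_iff]
    intro m
    exact S.slln (measurable_Ln ε m)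
      (fun z z' h => by unfold Ln; rw [matProd_congr ε m h]) (S.int_Ln hε hε1 m)
  have h2 : ∀ᵐ ω ∂P, ∀ m : ℕ, Tendsto (fun n : ℕ =>
      (∑ i ∈ Finset.range n, ln00 ε m (fun k => Z (i * m + k) ω)) / (n : ℝ)) atTop
      (𝓝 (bS P Z ε m)) := by
    rw [ae_all_iff]
    intro m
    exact S.slln (measurable_ln00 ε m)
      (fun z z' h => by unfold ln00; rw [matProd_congr ε m h]) (S.int_ln00 hε hε1 m).1
  have hζ : Integrable (fun ω => Real.log (1 + Z 0 ω)) P := by
    obtain ⟨C, hC⟩ := (cl_logV S.hα).bd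
    refine (S.int_w.const_mul C).mono' (Real.measurable_log.comp
      (measurable_const.add (S.meas 0))).aestronglyMeasurable ?_
    filter_upwards [S.pos] with ω hω
    exact hC _ hω.le
  have h3 := S.slln (Φ := fun z => Real.log (1 + z 0)) (m := 1)
    (Real.measurable_log.comp (measurable_const.add (measurable_pi_apply 0)))
    (fun z z' h => by
      change Real.log (1 + z 0) = Real.log (1 + z' 0)
      rw [h 0 one_pos]) hζ
  filter_upwards [S.good hε, h1, h2, h3] with ω hω g1 g2 g3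
  have hz := hω.1
  -- convergence for the corner entry
  have c1 : Tendsto (fun N : ℕ => ln00 ε N (fun k => Z k ω) / (N : ℝ)) atTop (𝓝 L) := by
    refine tendsto_of_blocks (fun n => ln00 ε n (fun k => Z k ω)) (ln00_mono hε hz)
      (fun n => ln00_nonneg hε hz n)
      (fun m n => ∑ i ∈ Finset.range n, Ln ε m (fun k => Z (i * m + k) ω))
      (fun m n => ∑ i ∈ Finset.range n, ln00 ε m (fun k => Z (i * m + k) ω))
      (aS P Z ε) (bS P Z ε) ?_ ?_ (fun m _ => g1 m) (fun m _ => g2 m) hL hb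
    · intro m n hn
      exact (ln00_le_Ln hε hz (n * m)).trans (Ln_blocks hε hz m n hn)
    · intro m n
      exact ln00_blocks hε hz m n
  -- the error
  have c2 : Tendsto (fun n : ℕ => Real.log (1 + Z n ω) / ((n : ℝ) + 1)) atTop (𝓝 0) := by
    refine (tendsto_incr _ g3).congr fun n => ?_
    rw [Finset.sum_range_succ]
    simp
  have c3 : Tendsto (fun n : ℕ => ln00 ε (n + 1) (fun k => Z k ω) / ((n + 1 : ℕ) : ℝ)) atTop
      (𝓝 L) := c1.comp (tendsto_add_atTop_nat 1)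
  have c4 : Tendsto (fun n : ℕ => (Real.log (1 + ε⁻¹) + Real.log (ε ^ 2)⁻¹)
      * (1 / ((n : ℝ) + 1))) atTop (𝓝 0) := by
    have h := tendsto_one_div_add_atTop_nhds_zero_nat (𝕜 := ℝ)
    have h' := h.const_mul (Real.log (1 + ε⁻¹) + Real.log (ε ^ 2)⁻¹)
    rwa [mul_zero] at h'
  have c5 : Tendsto (fun n : ℕ => Ln ε (n + 1) (fun k => Z k ω) / ((n + 1 : ℕ) : ℝ)) atTop
      (𝓝 L) := by
    have hup := (c3.add c4).add c2
    rw [add_zero, add_zero] at hup
    refine tendsto_of_tendsto_of_tendsto_of_le_of_le c3 hup (fun n => ?_) (fun n => ?_)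
    · exact div_le_div_of_nonneg_right (ln00_le_Ln hε hz (n + 1)) (Nat.cast_nonneg _)
    · have h4 := Ln_le hε hε1 hz hω.2 (n + 1) (by omega)
      have h5 := S.logX_le hε hε1 hz hω.2 n
      have hn : (0 : ℝ) < (n : ℝ) + 1 := by positivity
      have e : (((n + 1 : ℕ)) : ℝ) = (n : ℝ) + 1 := by push_cast; ring
      simp only [e]
      rw [mul_one_div, ← add_div, ← add_div]
      apply div_le_div_of_nonneg_right _ hn.le
      linarith
  exact (tendsto_add_atTop_iff_nat (f := fun n : ℕ => Ln ε n (fun k => Z k ω) / (n : ℝ)) 1).1 c5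

end Setup

end

end Pool.Agent.H741R3.DH
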