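import Mathlib

/-!
Derrida-Hilhorst singularity, part 2: a Banach limit (ultrafilter limit of Cesaro means).
-/

open MeasureTheory ProbabilityTheory Filter Topology

namespace Pool.Agent.H741R3.DH

noncomputable section

/-- A fixed nonprincipal ultrafilter on `ℕ`. -/
def UF : Filter ℕ := (hyperfilter ℕ : Filter ℕ)

lemma UF_le : UF ≤ atTop := Nat.hyperfilter_le_atTop

instance : NeBot UF := by unfold UF; infer_instance

/-- Cesaro means. -/
def ces (b : ℕ → ℝ) (n : ℕ) : ℝ := (∑ j ∈ Finset.range n, b j) / n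

/-- The Banach limit. -/
def Lm (b : ℕ → ℝ) : ℝ := limUnder UF (ces b)

/-- bounded sequences -/
def Bdd (b : ℕ → ℝ) : Prop := ∃ C, ∀ j, |b j| ≤ C

lemma Bdd.ces {b : ℕ → ℝ} (h : Bdd b) : ∃ C, ∀ n, |ces b n| ≤ C := by
  obtain ⟨C, hC⟩ := h
  have hC0 : 0 ≤ C := (abs_nonneg _).trans (hC 0)
  refine ⟨C, fun n => ?_⟩
  unfold DH.ces
  rcases Nat.eq_zero_or_pos n with rfl | hn
  · simpa using hC0
  · have hn' : (0 : ℝ) < n := by exact_mod_cast hn
    rw [abs_div, abs_of_pos hn', div_le_iff₀ hn']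
    calc |∑ j ∈ Finset.range n, b j| ≤ ∑ j ∈ Finset.range n, |b j| := Finset.abs_sum_le_sum_abs _ _
      _ ≤ ∑ j ∈ Finset.range n, C := Finset.sum_le_sum fun j _ => hC j
      _ = C * n := by rw [Finset.sum_const, Finset.card_range, nsmul_eq_mul]; ring

lemma tendsto_Lm {b : ℕ → ℝ} (h : Bdd b) : Tendsto (ces b) UF (𝓝 (Lm b)) := by
  obtain ⟨C, hC⟩ := h.ces
  have hcomp : IsCompact (Set.Icc (-C) C) := isCompact_Icc
  have hmem : ((hyperfilter ℕ).map (ces b) : Filter ℝ) ≤ 𝓟 (Set.Icc (-C) C) := by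
    rw [le_principal_iff]
    apply Filter.mem_of_superset (univ_mem (f := (hyperfilter ℕ : Filter ℕ)))
    intro n _
    exact abs_le.1 (hC n)
  obtain ⟨c, _, hc⟩ := hcomp.ultrafilter_le_nhds ((hyperfilter ℕ).map (ces b)) hmem
  have ht : Tendsto (ces b) UF (𝓝 c) := hc
  exact tendsto_nhds_limUnder ⟨c, ht⟩

lemma Lm_eq {b : ℕ → ℝ} {c : ℝ} (h : Tendsto (ces b) UF (𝓝 c)) : Lm b = c := h.limUnder_eq

lemma Bdd.add {b c : ℕ → ℝ} (hb : Bdd b) (hc : Bdd c) : Bdd (fun j => b j + c j) := by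
  obtain ⟨B, hB⟩ := hb
  obtain ⟨C, hC⟩ := hc
  exact ⟨B + C, fun j => (abs_add_le _ _).trans (add_le_add (hB j) (hC j))⟩

lemma Bdd.const_mul {b : ℕ → ℝ} (hb : Bdd b) (r : ℝ) : Bdd (fun j => r * b j) := by
  obtain ⟨B, hB⟩ := hb
  exact ⟨|r| * B, fun j => by rw [abs_mul]; exact mul_le_mul_of_nonneg_left (hB j) (abs_nonneg _)⟩

lemma ces_add (b c : ℕ → ℝ) (n : ℕ) : ces (fun j => b j + c j) n = ces b n + ces c n := by
  unfold ces; rw [Finset.sum_add_distrib, add_div]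

lemma ces_const_mul (r : ℝ) (b : ℕ → ℝ) (n : ℕ) : ces (fun j => r * b j) n = r * ces b n := by
  unfold ces; rw [← Finset.mul_sum, mul_div_assoc]

lemma Lm_add {b c : ℕ → ℝ} (hb : Bdd b) (hc : Bdd c) : Lm (fun j => b j + c j) = Lm b + Lm c := by
  apply Lm_eq
  have := (tendsto_Lm hb).add (tendsto_Lm hc)
  refine this.congr fun n => ?_
  rw [ces_add]

lemma Lm_const_mul {b : ℕ → ℝ} (hb : Bdd b) (r : ℝ) : Lm (fun j => r * b j) = r * Lm b := by
  apply Lm_eq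
  have := (tendsto_Lm hb).const_mul r
  refine this.congr fun n => ?_
  rw [ces_const_mul]

lemma Lm_mono {b c : ℕ → ℝ} (hb : Bdd b) (hc : Bdd c) (h : ∀ j, b j ≤ c j) : Lm b ≤ Lm c := by
  refine le_of_tendsto_of_tendsto' (tendsto_Lm hb) (tendsto_Lm hc) fun n => ?_
  unfold ces
  apply div_le_div_of_nonneg_right _ (Nat.cast_nonneg n)
  exact Finset.sum_le_sum fun j _ => h j

lemma Lm_of_tendsto {b : ℕ → ℝ} {c : ℝ} (h : Tendsto b atTop (𝓝 c)) : Lm b = c := by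
  apply Lm_eq
  have h1 := h.cesaro
  refine (h1.mono_left UF_le).congr fun n => ?_
  unfold ces
  rw [div_eq_inv_mul]

lemma Lm_const (c : ℝ) : Lm (fun _ => c) = c := Lm_of_tendsto tendsto_const_nhds

lemma Lm_shift {b : ℕ → ℝ} (hb : Bdd b) : Lm (fun j => b (j + 1)) = Lm b := by
  apply Lm_eq
  obtain ⟨B, hB⟩ := hb
  have h1 : Tendsto (fun n : ℕ => ces b n + (b n - b 0) / n) UF (𝓝 (Lm b + 0)) := by
    apply (tendsto_Lm ⟨B, hB⟩).add
    refine Tendsto.mono_left ?_ UF_le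
    rw [tendsto_zero_iff_norm_tendsto_zero]
    have h2 : Tendsto (fun n : ℕ => (2 * B) / (n : ℝ)) atTop (𝓝 0) :=
      tendsto_const_div_atTop_nhds_zero_nat (2 * B)
    refine squeeze_zero (fun n => norm_nonneg _) (fun n => ?_) h2
    rw [norm_div, Real.norm_natCast, Real.norm_eq_abs]
    apply div_le_div_of_nonneg_right _ (Nat.cast_nonneg n)
    calc |b n - b 0| ≤ |b n| + |b 0| := abs_sub _ _
      _ ≤ 2 * B := by linarith [hB n, hB 0]
  rw [add_zero] at h1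
  refine h1.congr fun n => ?_
  unfold ces
  have h3 : ∑ j ∈ Finset.range n, b (j + 1) = ∑ j ∈ Finset.range n, b j + (b n - b 0) := by
    have h4 := Finset.sum_range_succ b n
    have h5 := Finset.sum_range_succ' b n
    linarith
  rw [h3, add_div]

end

end Pool.Agent.H741R3.DH
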