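import Pool.Agent.H741R3.DH4

/-!
Derrida-Hilhorst singularity, part 5: the logarithmic identity and the growth of `Λ(x^α)`.
-/

open MeasureTheory ProbabilityTheory Filter Topology

namespace Pool.Agent.H741R3.DH

noncomputable section

variable {Ω : Type*} [mΩ : MeasurableSpace Ω] {P : Measure Ω} {Z : ℕ → Ω → ℝ} {α : ℝ}

lemma log_split {a x : ℝ} (ha : 0 < a) (hx : 0 ≤ x) :
    x ^ α * Real.log x - W a x ^ α * Real.log (W a x)
      = (x ^ α * Real.log x - (1 + x) ^ α * Real.log (1 + x)) + Real.log (1 / a) * Bf α a x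
        + Bf α a x * Real.log (a * (1 + x)) + W a x ^ α * Real.log (1 + a * x) := by
  have hV : 0 < 1 + x := by linarith
  have h1 : Real.log (W a x) = Real.log (1 + x) - Real.log (1 + a * x) := by
    unfold W; exact Real.log_div hV.ne' (H_pos ha hx).ne'
  have h2 : Real.log (a * (1 + x)) = Real.log a + Real.log (1 + x) :=
    Real.log_mul ha.ne' hV.ne'
  rw [h1, h2, Real.log_div one_ne_zero ha.ne', Real.log_one]
  unfold Bf
  ring

lemma T1_le {x : ℝ} (hα : 0 ≤ α) (hx : 0 ≤ x) :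
    x ^ α * Real.log x ≤ (1 + x) ^ α * Real.log (1 + x) := by
  have h2 : 0 ≤ Real.log (1 + x) := Real.log_nonneg (by linarith)
  have h3 : 0 ≤ (1 + x) ^ α := Real.rpow_nonneg (by linarith) _
  rcases le_total x 1 with h | h
  · have : x ^ α * Real.log x ≤ 0 :=
      mul_nonpos_of_nonneg_of_nonpos (Real.rpow_nonneg hx _) (Real.log_nonpos hx h)
    have : 0 ≤ (1 + x) ^ α * Real.log (1 + x) := mul_nonneg h3 h2
    linarith
  · exact mul_le_mul (Real.rpow_le_rpow hx (by linarith) hα)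
      (Real.log_le_log (by linarith) (by linarith)) (Real.log_nonneg h) h3

lemma T1_ge {x : ℝ} (hα : 1 ≤ α) (hx : 0 ≤ x) :
    -((2 * α + 1) * (1 + x) ^ (α - 1 / 2))
      ≤ x ^ α * Real.log x - (1 + x) ^ α * Real.log (1 + x) := by
  have hV : 0 < 1 + x := by linarith
  have hV1 : 1 ≤ 1 + x := by linarith
  have hlog : 0 ≤ Real.log (1 + x) := Real.log_nonneg hV1
  have hVα : 0 < (1 + x) ^ α := Real.rpow_pos_of_pos hV _
  have hVhalf : 0 < (1 + x) ^ (α - 1 / 2) := Real.rpow_pos_of_pos hV _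
  have hVm : 0 < (1 + x) ^ (α - 1) := Real.rpow_pos_of_pos hV _
  have h4 : (1 + x) ^ (α - 1) = (1 + x) ^ α * (1 + x)⁻¹ := by
    rw [Real.rpow_sub_one hV.ne', div_eq_mul_inv]
  -- main: V^α log V - x^α log x ≤ V^(α-1) (α log V + 1)
  have hmain : (1 + x) ^ α * Real.log (1 + x) - x ^ α * Real.log x
      ≤ (1 + x) ^ (α - 1) * (α * Real.log (1 + x) + 1) := by
    rcases hx.eq_or_lt with rfl | hx'
    · simp only [add_zero, Real.log_one, mul_zero, Real.log_zero, sub_self, zero_add, mul_one]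
      exact (Real.rpow_pos_of_pos one_pos _).le
    · set r := x / (1 + x) with hr
      have hr0 : 0 < r := div_pos hx' hV
      have hr1 : r ≤ 1 := (div_le_one hV).2 (by linarith)
      have hr2 : 1 - r = (1 + x)⁻¹ := by rw [hr]; field_simp; ring
      have hxr : x = (1 + x) * r := by rw [hr]; field_simp
      have e1 : x ^ α = (1 + x) ^ α * r ^ α := by
        conv_lhs => rw [hxr]
        rw [Real.mul_rpow hV.le hr0.le]
      have e2 : Real.log x = Real.log (1 + x) + Real.log r := by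
        conv_lhs => rw [hxr]
        rw [Real.log_mul hV.ne' hr0.ne']
      have h1 : 1 - r ^ α ≤ α * (1 + x)⁻¹ := by
        have h := one_add_mul_self_le_rpow_one_add (s := r - 1) (by linarith) hα
        rw [add_sub_cancel] at h
        rw [← hr2]; linarith
      have h2 : -(r ^ α * Real.log r) ≤ (1 + x)⁻¹ := by
        have h5 : r ^ α ≤ r := by
          have := Real.rpow_le_rpow_of_exponent_ge hr0 hr1 hα
          rwa [Real.rpow_one] at this
        have h6 : Real.log r ≤ 0 := Real.log_nonpos hr0.le hr1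
        have h7 := Real.log_le_sub_one_of_pos (inv_pos.2 hr0)
        rw [Real.log_inv] at h7
        have h8 : r * (-Real.log r) ≤ r * (r⁻¹ - 1) := mul_le_mul_of_nonneg_left h7 hr0.le
        have h9 : r * (r⁻¹ - 1) = 1 - r := by field_simp
        have h10 : r * Real.log r ≤ r ^ α * Real.log r := mul_le_mul_of_nonpos_right h5 h6
        rw [← hr2]; linarith
      rw [e1, e2, h4]
      have e3 : (1 + x) ^ α * Real.log (1 + x)
            - (1 + x) ^ α * r ^ α * (Real.log (1 + x) + Real.log r)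
          = (1 + x) ^ α * ((1 - r ^ α) * Real.log (1 + x) + -(r ^ α * Real.log r)) := by ring
      rw [e3]
      have e4 : (1 + x) ^ α * (1 + x)⁻¹ * (α * Real.log (1 + x) + 1)
          = (1 + x) ^ α * (α * (1 + x)⁻¹ * Real.log (1 + x) + (1 + x)⁻¹) := by ring
      rw [e4]
      apply mul_le_mul_of_nonneg_left _ hVα.le
      have := mul_le_mul_of_nonneg_right h1 hlog
      linarith
  have h5 : Real.log (1 + x) ≤ 2 * (1 + x) ^ (1 / 2 : ℝ) := by
    have := Real.log_le_rpow_div hV.le (by norm_num : (0 : ℝ) < 1 / 2)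
    linarith
  have h6 : 1 ≤ (1 + x) ^ (1 / 2 : ℝ) := Real.one_le_rpow hV1 (by norm_num)
  have h7 : (1 + x) ^ (α - 1 / 2) = (1 + x) ^ (α - 1) * (1 + x) ^ (1 / 2 : ℝ) := by
    rw [← Real.rpow_add hV]; congr 1; ring
  have h8 : (1 + x) ^ (α - 1) * (α * Real.log (1 + x) + 1)
      ≤ (2 * α + 1) * (1 + x) ^ (α - 1 / 2) := by
    rw [h7]
    have h9 : α * Real.log (1 + x) + 1 ≤ (2 * α + 1) * (1 + x) ^ (1 / 2 : ℝ) := by
      have := mul_le_mul_of_nonneg_left h5 (by linarith : 0 ≤ α)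
      nlinarith
    have := mul_le_mul_of_nonneg_left h9 hVm.le
    linarith
  linarith

lemma T2_le {a x : ℝ} (ha : 0 < a) (hα : 0 < α) (hx : 0 ≤ x) :
    W a x ^ α * Real.log (1 + a * x) ≤ (1 / α) * Bf α a x := by
  have hH := H_pos ha hx
  have hu : 0 < (1 + a * x) ^ α := Real.rpow_pos_of_pos hH _
  have h1 : Real.log ((1 + a * x) ^ α) ≤ (1 + a * x) ^ α - 1 := Real.log_le_sub_one_of_pos hu
  rw [Real.log_rpow hH] at h1
  have hWV : W a x ^ α * (1 + a * x) ^ α = (1 + x) ^ α := by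
    unfold W
    rw [Real.div_rpow (by linarith) hH.le]; field_simp
  have hW : 0 ≤ W a x ^ α := Real.rpow_nonneg (W_pos ha hx).le _
  have h2 := mul_le_mul_of_nonneg_left h1 hW
  have h3 : W a x ^ α * ((1 + a * x) ^ α - 1) = Bf α a x := by
    unfold Bf; rw [mul_sub, hWV, mul_one]
  rw [h3] at h2
  rw [one_div, ← div_eq_inv_mul, le_div_iff₀ hα]
  linarith

lemma T2_ge {a x : ℝ} (ha : 0 < a) (hx : 0 ≤ x) :
    0 ≤ W a x ^ α * Real.log (1 + a * x) :=
  mul_nonneg (Real.rpow_nonneg (W_pos ha hx).le _) (Real.log_nonneg (by nlinarith))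

/-- The tail function along the chain. -/
def fR (α a R x : ℝ) : ℝ := if R < a * (1 + x) then (1 + x) ^ α * Real.log (a * (1 + x)) else 0

/-- The tail function of `Z`. -/
def FR (α R z : ℝ) : ℝ := if R < 1 + z then (1 + z) ^ α * Real.log (1 + z) else 0

lemma measurable_fR (α a R : ℝ) : Measurable (fR α a R) := by
  unfold fR
  exact Measurable.ite (measurableSet_lt measurable_const
      (measurable_const.mul (measurable_const.add measurable_id)))
    (((measurable_const.add measurable_id).pow_const α).mul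
      (Real.measurable_log.comp (measurable_const.mul (measurable_const.add measurable_id))))
    measurable_const

lemma measurable_FR (α R : ℝ) : Measurable (FR α R) := by
  unfold FR
  exact Measurable.ite (measurableSet_lt measurable_const (measurable_const.add measurable_id))
    (((measurable_const.add measurable_id).pow_const α).mul
      (Real.measurable_log.comp (measurable_const.add measurable_id)))
    measurable_const

lemma fR_nonneg {a R x : ℝ} (hR : 1 ≤ R) (hx : 0 ≤ x) : 0 ≤ fR α a R x := by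
  unfold fR
  split_ifs with h
  · exact mul_nonneg (Real.rpow_nonneg (by linarith) _) (Real.log_nonneg (by linarith))
  · exact le_rfl

lemma FR_nonneg {R z : ℝ} (hz : 0 ≤ z) : 0 ≤ FR α R z := by
  unfold FR
  split_ifs with h
  · exact mul_nonneg (Real.rpow_nonneg (by linarith) _) (Real.log_nonneg (by linarith))
  · exact le_rfl

lemma FR_le {R z : ℝ} (hz : 0 ≤ z) : FR α R z ≤ w α z := by
  have h1 : 0 ≤ (1 + z) ^ α := Real.rpow_nonneg (by linarith) _
  have h2 : 0 ≤ Real.log (1 + z) := Real.log_nonneg (by linarith)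
  unfold FR w
  split_ifs with h
  · nlinarith
  · positivity

lemma cl_fR {a R : ℝ} (ha : 0 < a) (ha1 : a ≤ 1) (hR : 1 ≤ R) (hα : 0 ≤ α) :
    Cl α (fR α a R) := by
  refine (cl_VlogV hα).of_le (measurable_fR α a R) fun x hx => ?_
  rw [abs_of_nonneg (fR_nonneg hR hx)]
  have h1 : 0 ≤ (1 + x) ^ α := Real.rpow_nonneg (by linarith) _
  have h2 : 0 ≤ Real.log (1 + x) := Real.log_nonneg (by linarith)
  unfold fR
  split_ifs with h
  · apply mul_le_mul_of_nonneg_left _ h1
    exact Real.log_le_log (by linarith) (by nlinarith)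
  · positivity

lemma T3_le {a R x : ℝ} (ha : 0 < a) (hR : 1 ≤ R) (hα : 1 ≤ α) (hx : 0 ≤ x) :
    Bf α a x * Real.log (a * (1 + x)) ≤ Real.log R * Bf α a x + fR α a R x := by
  have hB := B_nonneg (α := α) ha hα hx
  have hlR := Real.log_nonneg hR
  unfold fR
  split_ifs with h
  · have h1 : 0 ≤ Real.log (a * (1 + x)) := Real.log_nonneg (by linarith)
    have h2 := mul_le_mul_of_nonneg_right (B_le_V (α := α) ha hx) h1
    have h3 := mul_nonneg hlR hB
    linarith
  · push Not at h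
    have h1 : Real.log (a * (1 + x)) ≤ Real.log R := Real.log_le_log (by positivity) h
    have h2 := mul_le_mul_of_nonneg_left h1 hB
    linarith

lemma fR_step {a R x z : ℝ} (ha : 0 < a) (ha1 : a ≤ 1) (hR : 1 ≤ R) (hα : 0 ≤ α) (hx : 0 ≤ x)
    (hz : 0 < z) : fR α a R (z * W a x) ≤ FR α R z * W a x ^ α := by
  have hW1 := one_le_W ha ha1 hx
  have hW := W_pos ha hx
  have haW : a * W a x ≤ 1 := by
    have := W_le_inv ha ha1 hx
    rw [le_div_iff₀ ha] at this
    linarith
  have hWα : 0 ≤ W a x ^ α := Real.rpow_nonneg hW.le _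
  have h1 : a * (1 + z * W a x) ≤ 1 + z := by nlinarith
  have h2 : 1 + z * W a x ≤ (1 + z) * W a x := by nlinarith
  unfold fR FR
  split_ifs with h3 h4 h4
  · have h5 : (1 + z * W a x) ^ α ≤ (1 + z) ^ α * W a x ^ α := by
      rw [← Real.mul_rpow (by linarith) hW.le]
      exact Real.rpow_le_rpow (by positivity) h2 hα
    have h6 : Real.log (a * (1 + z * W a x)) ≤ Real.log (1 + z) :=
      Real.log_le_log (by linarith) h1
    have h7 : 0 ≤ Real.log (a * (1 + z * W a x)) := Real.log_nonneg (by linarith)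
    calc (1 + z * W a x) ^ α * Real.log (a * (1 + z * W a x))
        ≤ ((1 + z) ^ α * W a x ^ α) * Real.log (1 + z) :=
          mul_le_mul h5 h6 h7 (mul_nonneg (Real.rpow_nonneg (by linarith) _) hWα)
      _ = _ := by ring
  · exact absurd (lt_of_lt_of_le h3 h1) h4
  · exact mul_nonneg (mul_nonneg (Real.rpow_nonneg (by linarith) _)
      (Real.log_nonneg (by linarith))) hWα
  · simp

/-- `τ(R)`. -/
def tau (P : Measure Ω) (Z : ℕ → Ω → ℝ) (α R : ℝ) : ℝ := ∫ ω, FR α R (Z 0 ω) ∂P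

/-- `M(a) = Λ(x^α)`. -/
def Mf (P : Measure Ω) (Z : ℕ → Ω → ℝ) (α a : ℝ) : ℝ := Lam P Z a (fun x => x ^ α)

/-- `m = E[Z^α log Z]`. -/
def mm (P : Measure Ω) (Z : ℕ → Ω → ℝ) (α : ℝ) : ℝ := ∫ ω, (Z 0 ω) ^ α * Real.log (Z 0 ω) ∂P

namespace Setup

lemma int_FR (S : Setup P Z α) (R : ℝ) : Integrable (fun ω => FR α R (Z 0 ω)) P := by
  refine S.int_w.mono' ((measurable_FR α R).comp (S.meas 0)).aestronglyMeasurable ?_
  filter_upwards [S.pos] with ω hω
  rw [Real.norm_eq_abs, abs_of_nonneg (FR_nonneg hω.le)]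
  exact FR_le hω.le

lemma tau_nonneg (S : Setup P Z α) (R : ℝ) : 0 ≤ tau P Z α R := by
  apply integral_nonneg_of_ae
  filter_upwards [S.pos] with ω hω using FR_nonneg hω.le

lemma tau_tendsto (S : Setup P Z α) : Tendsto (tau P Z α) atTop (𝓝 0) := by
  have h : Tendsto (fun R => ∫ ω, FR α R (Z 0 ω) ∂P) atTop (𝓝 (∫ _, (0 : ℝ) ∂P)) := by
    refine tendsto_integral_filter_of_dominated_convergence (fun ω => w α (Z 0 ω))
      (Eventually.of_forall fun R => ((measurable_FR α R).comp (S.meas 0)).aestronglyMeasurable)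
      (Eventually.of_forall fun R => ?_) S.int_w (Eventually.of_forall fun ω => ?_)
    · filter_upwards [S.pos] with ω hω
      rw [Real.norm_eq_abs, abs_of_nonneg (FR_nonneg hω.le)]
      exact FR_le hω.le
    · refine tendsto_const_nhds.congr' ?_
      filter_upwards [eventually_ge_atTop (1 + Z 0 ω)] with R hR
      unfold FR
      rw [if_neg (not_lt.2 hR)]
  rw [integral_zero] at h
  exact h

lemma log_identity (S : Setup P Z α) {a : ℝ} (ha : 0 < a) (ha1 : a ≤ 1) :
    mm P Z α * Mf P Z α a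
      = Lam P Z a (fun x => x ^ α * Real.log x - W a x ^ α * Real.log (W a x)) := by
  have hα := S.α_pos.le
  have h := S.Lam_step_eq ha ha1 (cl_xlogx S.hα) (F₁ := fun z => z ^ α * Real.log z)
    ((measurable_id.pow_const α).mul Real.measurable_log) S.logint (cl_W ha hα le_rfl)
    (F₂ := fun z => z ^ α) (measurable_id.pow_const α) S.int_α (cl_WlogW ha ha1 hα) (by
      intro z x hz hx
      have hW := W_pos ha hx
      rw [Real.mul_rpow hz.le hW.le, Real.log_mul hz.ne' hW.ne']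
      ring)
  rw [S.one, S.M_eq ha ha1] at h
  rw [S.Lam_sub ha ha1 (cl_xlogx S.hα) (cl_WlogW ha ha1 hα), h]
  unfold mm Mf
  ring

lemma Mf_nonneg (S : Setup P Z α) {a : ℝ} (ha : 0 < a) (ha1 : a ≤ 1) : 0 ≤ Mf P Z α a :=
  S.Lam_nonneg ha ha1 (cl_pow S.α_pos.le le_rfl) fun x hx => Real.rpow_nonneg hx _

lemma tail_le (S : Setup P Z α) {a R : ℝ} (ha : 0 < a) (ha1 : a ≤ 1) (hR : 1 ≤ R) :
    Lam P Z a (fR α a R) ≤ tau P Z α R * Mf P Z α a := by
  have hα := S.α_pos.le
  have hprob := S.prob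
  have h := S.Lam_step_le ha ha1 (cl_fR ha ha1 hR hα) (F₁ := FR α R)
    (measurable_FR α R) (S.int_FR R) (cl_W ha hα le_rfl)
    (F₂ := fun _ => (0 : ℝ)) measurable_const (integrable_const _) (Cl.const hα (0 : ℝ)) (by
      intro z x hz hx
      have := fR_step ha ha1 hR hα hx hz
      linarith)
  rw [S.M_eq ha ha1] at h
  simp only [integral_const, smul_eq_mul, mul_zero, zero_mul, add_zero] at h
  exact h

lemma upper (S : Setup P Z α) {a R : ℝ} (ha : 0 < a) (ha1 : a ≤ 1) (hR : 1 ≤ R) :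
    mm P Z α * Mf P Z α a ≤ (Real.log (1 / a) + 1 / α + Real.log R) * G P Z α a
      + tau P Z α R * Mf P Z α a := by
  have hα := S.α_pos.le
  rw [S.log_identity ha ha1]
  have hB := cl_B ha hα
  have h1 : Lam P Z a (fun x => x ^ α * Real.log x - W a x ^ α * Real.log (W a x))
      ≤ Lam P Z a (fun x => (Real.log (1 / a) + 1 / α + Real.log R) * Bf α a x + fR α a R x) := by
    apply S.Lam_mono ha ha1 ((cl_xlogx S.hα).sub (cl_WlogW ha ha1 hα))
      ((hB.const_mul _).add (cl_fR ha ha1 hR hα))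
    intro x hx
    rw [log_split ha hx]
    have t1 := T1_le (α := α) hα hx
    have t2 := T2_le (α := α) ha S.α_pos hx
    have t3 := T3_le ha hR S.hα hx
    linarith
  rw [S.Lam_add ha ha1 (hB.const_mul _) (cl_fR ha ha1 hR hα), S.Lam_const_mul ha ha1 hB,
    S.Lam_B ha ha1] at h1
  have h2 := S.tail_le ha ha1 hR
  linarith

lemma T3_ge {a δ x : ℝ} (ha : 0 < a) (ha1 : a ≤ 1) (hδ : 0 < δ) (hα : 1 ≤ α)
    (hx : 0 ≤ x) : -(δ * Real.log (1 / a) * Bf α a x
      + (α * Real.log (1 / a) * a ^ (δ / 2)) * (1 + x) ^ (α - δ / 2))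
      ≤ Bf α a x * Real.log (a * (1 + x)) := by
  have hB := B_nonneg (α := α) ha hα hx
  have hV : 0 < 1 + x := by linarith
  have hl : 0 ≤ Real.log (1 / a) := Real.log_nonneg (by rw [le_div_iff₀ ha]; linarith)
  have hla : Real.log (1 / a) = - Real.log a := by
    rw [Real.log_div one_ne_zero ha.ne', Real.log_one, zero_sub]
  have hVe : 0 < (1 + x) ^ (α - δ / 2) := Real.rpow_pos_of_pos hV _
  have haδ : 0 < a ^ (δ / 2) := Real.rpow_pos_of_pos ha _
  rcases le_total (a ^ δ) (a * (1 + x)) with h | h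
  · have h1 : Real.log (a ^ δ) ≤ Real.log (a * (1 + x)) :=
      Real.log_le_log (Real.rpow_pos_of_pos ha _) h
    rw [Real.log_rpow ha] at h1
    have h2 : -(δ * Real.log (1 / a)) ≤ Real.log (a * (1 + x)) := by rw [hla]; linarith
    have h3 := mul_le_mul_of_nonneg_left h2 hB
    have h4 : 0 ≤ (α * Real.log (1 / a) * a ^ (δ / 2)) * (1 + x) ^ (α - δ / 2) := by positivity
    linarith
  · have h1 : -Real.log (1 / a) ≤ Real.log (a * (1 + x)) := by
      rw [hla, neg_neg]
      exact Real.log_le_log ha (by nlinarith)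
    have h2 := mul_le_mul_of_nonneg_left h1 hB
    have h3 : Bf α a x ≤ α * a ^ (δ / 2) * (1 + x) ^ (α - δ / 2) := by
      have h4 := B_le (α := α) ha hα hx
      have haV : 0 < a * (1 + x) := by positivity
      have h5 : a * (1 + x) ≤ 1 := h.trans (Real.rpow_le_one ha.le ha1 hδ.le)
      -- V^α = V^(α-δ/2) V^(δ/2)
      have h6 : (1 + x) ^ α = (1 + x) ^ (α - δ / 2) * (1 + x) ^ (δ / 2) := by
        rw [← Real.rpow_add hV]; congr 1; ring
      have h7 : a ^ (δ / 2) * (1 + x) ^ (δ / 2) ≤ 1 := by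
        rw [← Real.mul_rpow ha.le hV.le]
        exact Real.rpow_le_one haV.le h5 (by linarith)
      have h8 : a ^ δ = a ^ (δ / 2) * a ^ (δ / 2) := by
        rw [← Real.rpow_add ha]; congr 1; ring
      have h9 : (1 + x) ^ (δ / 2) * (a * (1 + x)) ≤ a ^ (δ / 2) := by
        have hVd : 0 ≤ (1 + x) ^ (δ / 2) := Real.rpow_nonneg hV.le _
        calc (1 + x) ^ (δ / 2) * (a * (1 + x)) ≤ (1 + x) ^ (δ / 2) * a ^ δ :=
              mul_le_mul_of_nonneg_left h hVd
          _ = (a ^ (δ / 2) * (1 + x) ^ (δ / 2)) * a ^ (δ / 2) := by rw [h8]; ring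
          _ ≤ 1 * a ^ (δ / 2) := mul_le_mul_of_nonneg_right h7 haδ.le
          _ = a ^ (δ / 2) := one_mul _
      calc Bf α a x ≤ α * (1 + x) ^ α * (a * (1 + x)) := h4
        _ = α * (1 + x) ^ (α - δ / 2) * ((1 + x) ^ (δ / 2) * (a * (1 + x))) := by rw [h6]; ring
        _ ≤ α * (1 + x) ^ (α - δ / 2) * a ^ (δ / 2) :=
            mul_le_mul_of_nonneg_left h9 (by positivity)
        _ = _ := by ring
    have h4 := mul_le_mul_of_nonneg_left h3 hl
    have h5 : 0 ≤ δ * Real.log (1 / a) * Bf α a x := by positivity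
    linarith

lemma lower (S : Setup P Z α) {δ : ℝ} (hδ : 0 < δ) (hδ1 : δ < 1) :
    ∃ C, 0 ≤ C ∧ ∀ a, 0 < a → a ≤ 1 →
      (Real.log (1 / a) - δ * Real.log (1 / a)) * G P Z α a - C
        - C * (Real.log (1 / a) * a ^ (δ / 2)) ≤ mm P Z α * Mf P Z α a := by
  have hα := S.α_pos.le
  have hα1 := S.hα
  obtain ⟨C₁, hC₁0, hC₁⟩ := S.V_bound (s := α - 1 / 2) (by linarith) (by linarith)
  obtain ⟨C₂, hC₂0, hC₂⟩ := S.V_bound (s := α - δ / 2) (by linarith) (by linarith)
  refine ⟨(2 * α + 1) * C₁ + α * C₂, by positivity, fun a ha ha1 => ?_⟩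
  rw [S.log_identity ha ha1]
  have hB := cl_B ha hα
  have hc1 := cl_V hα (by linarith : α - 1 / 2 ≤ α)
  have hc2 := cl_V hα (by linarith : α - δ / 2 ≤ α)
  have hl : 0 ≤ Real.log (1 / a) := Real.log_nonneg (by rw [le_div_iff₀ ha]; linarith)
  have h1 : Lam P Z a (fun x => ((Real.log (1 / a) - δ * Real.log (1 / a)) * Bf α a x
        + (-(2 * α + 1)) * (1 + x) ^ (α - 1 / 2))
        + (-(α * Real.log (1 / a) * a ^ (δ / 2))) * (1 + x) ^ (α - δ / 2))
      ≤ Lam P Z a (fun x => x ^ α * Real.log x - W a x ^ α * Real.log (W a x)) := by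
    apply S.Lam_mono ha ha1 (((hB.const_mul _).add (hc1.const_mul _)).add (hc2.const_mul _))
      ((cl_xlogx S.hα).sub (cl_WlogW ha ha1 hα))
    intro x hx
    rw [log_split ha hx]
    have t1 := T1_ge (α := α) hα1 hx
    have t2 := T2_ge (α := α) ha hx
    have t3 := T3_ge ha ha1 hδ hα1 hx
    linarith
  rw [S.Lam_add ha ha1 ((hB.const_mul _).add (hc1.const_mul _)) (hc2.const_mul _),
    S.Lam_add ha ha1 (hB.const_mul _) (hc1.const_mul _),
    S.Lam_const_mul ha ha1 hB, S.Lam_const_mul ha ha1 hc1, S.Lam_const_mul ha ha1 hc2,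
    S.Lam_B ha ha1] at h1
  have h2 := mul_le_mul_of_nonneg_left (hC₁ a ha ha1) (by linarith : 0 ≤ 2 * α + 1)
  have haδ : 0 < a ^ (δ / 2) := Real.rpow_pos_of_pos ha _
  have h3 := mul_le_mul_of_nonneg_left (hC₂ a ha ha1)
    (by positivity : 0 ≤ α * Real.log (1 / a) * a ^ (δ / 2))
  have h4 : 0 ≤ (2 * α + 1) * C₁ * (Real.log (1 / a) * a ^ (δ / 2)) := by positivity
  have h5 : 0 ≤ α * C₂ := by positivity
  nlinarith

lemma tendsto_ell : Tendsto (fun a : ℝ => Real.log (1 / a)) (𝓝[>] 0) atTop := by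
  have h := Real.tendsto_log_atTop.comp (tendsto_inv_nhdsGT_zero (𝕜 := ℝ))
  refine h.congr fun a => ?_
  simp [one_div]

lemma tendsto_rpow_zero {s : ℝ} (hs : 0 < s) : Tendsto (fun a : ℝ => a ^ s) (𝓝[>] 0) (𝓝 0) := by
  have h : Tendsto (fun a : ℝ => a ^ s) (𝓝 0) (𝓝 ((0 : ℝ) ^ s)) :=
    (Real.continuousAt_rpow_const 0 s (Or.inr hs.le)).tendsto
  rw [Real.zero_rpow hs.ne'] at h
  exact h.mono_left nhdsWithin_le_nhds

lemma ev_Ioc : ∀ᶠ a : ℝ in 𝓝[>] 0, 0 < a ∧ a ≤ 1 := by
  filter_upwards [Ioc_mem_nhdsGT (zero_lt_one' ℝ)] with a ha using ⟨ha.1, ha.2⟩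

lemma Mf_bound (S : Setup P Z α) : ∃ C, 0 < C ∧ ∀ᶠ a in 𝓝[>] (0 : ℝ),
    Mf P Z α a ≤ C * Real.log (1 / a) := by
  obtain ⟨CG, hCG0, hCG⟩ := S.G_bound
  have hα := S.α_pos
  have hm : 0 < mm P Z α := S.m_pos
  obtain ⟨R, hR⟩ := ((S.tau_tendsto.eventually_lt_const (by linarith : 0 < mm P Z α / 2)).and
    (eventually_ge_atTop 1)).exists
  set c := 1 / α + Real.log R with hc
  have hc0 : 0 ≤ c := add_nonneg (by positivity) (Real.log_nonneg hR.2)
  refine ⟨2 / mm P Z α * ((1 + c) * CG) + 1, by positivity, ?_⟩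
  filter_upwards [ev_Ioc, tendsto_ell.eventually_ge_atTop 1] with a ha hl
  have h1 := S.upper ha.1 ha.2 hR.2
  have h2 := S.Mf_nonneg ha.1 ha.2
  have h3 := hCG a ha.1 ha.2
  have h4 := S.one_le_G ha.1 ha.2
  set l := Real.log (1 / a) with hl'
  have h5 : (l + 1 / α + Real.log R) * G P Z α a ≤ (1 + c) * CG * l := by
    have e : l + 1 / α + Real.log R = l + c := by rw [hc]; ring
    rw [e]
    have h6 : l + c ≤ (1 + c) * l := by nlinarith
    calc (l + c) * G P Z α a ≤ ((1 + c) * l) * CG :=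
          mul_le_mul h6 h3 (by linarith) (by positivity)
      _ = _ := by ring
  have h6 : tau P Z α R * Mf P Z α a ≤ mm P Z α / 2 * Mf P Z α a :=
    mul_le_mul_of_nonneg_right hR.1.le h2
  have h7 : mm P Z α / 2 * Mf P Z α a ≤ (1 + c) * CG * l := by linarith
  have h8 : Mf P Z α a ≤ 2 / mm P Z α * ((1 + c) * CG * l) := by
    rw [div_mul_eq_mul_div, le_div_iff₀ hm]; linarith
  have h9 : 2 / mm P Z α * ((1 + c) * CG * l) = 2 / mm P Z α * ((1 + c) * CG) * l := by ring
  rw [h9] at h8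
  linarith

/-- Growth of `Λ(x^α)`. -/
theorem Mf_growth (S : Setup P Z α) :
    Tendsto (fun a => Mf P Z α a / Real.log (1 / a) - G P Z α a / mm P Z α) (𝓝[>] 0) (𝓝 0) := by
  obtain ⟨CG, hCG0, hCG⟩ := S.G_bound
  obtain ⟨C', hC'0, hC'⟩ := S.Mf_bound
  have hα := S.α_pos
  have hm : 0 < mm P Z α := S.m_pos
  have key : ∀ η : ℝ, 0 < η → ∀ᶠ a in 𝓝[>] (0 : ℝ),
      |mm P Z α * Mf P Z α a - Real.log (1 / a) * G P Z α a| ≤ η * Real.log (1 / a) := by
    intro η hη
    -- upper
    obtain ⟨R, hR⟩ := ((S.tau_tendsto.eventually_lt_const (by positivity : 0 < η / 2 / C')).and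
      (eventually_ge_atTop 1)).exists
    set c := 1 / α + Real.log R with hc
    have hc0 : 0 ≤ c := add_nonneg (by positivity) (Real.log_nonneg hR.2)
    -- lower
    set δ := min (1 / 2) (η / 3 / (CG + 1)) with hδ
    have hδ0 : 0 < δ := lt_min (by norm_num) (by positivity)
    have hδ1 : δ < 1 := lt_of_le_of_lt (min_le_left _ _) (by norm_num)
    have hδC : δ * CG ≤ η / 3 := by
      have h1 : δ ≤ η / 3 / (CG + 1) := min_le_right _ _
      have h2 : δ * (CG + 1) ≤ η / 3 := by rwa [le_div_iff₀ (by positivity)] at h1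
      nlinarith
    obtain ⟨C, hC0, hC⟩ := S.lower hδ0 hδ1
    have hsmall : ∀ᶠ a in 𝓝[>] (0 : ℝ), C * a ^ (δ / 2) < η / 3 := by
      have h := (tendsto_rpow_zero (by linarith : 0 < δ / 2)).const_mul C
      rw [mul_zero] at h
      exact h.eventually_lt_const (by positivity)
    filter_upwards [ev_Ioc, tendsto_ell.eventually_ge_atTop 1,
      tendsto_ell.eventually_ge_atTop (c * CG / (η / 2)),
      tendsto_ell.eventually_ge_atTop (C / (η / 3)), hsmall, hC'] with a ha hl hl2 hl3 hs hM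
    have h1 := S.upper ha.1 ha.2 hR.2
    have h2 := S.Mf_nonneg ha.1 ha.2
    have h3 := hCG a ha.1 ha.2
    have h4 := S.one_le_G ha.1 ha.2
    have h5 := hC a ha.1 ha.2
    set l := Real.log (1 / a) with hl'
    rw [div_le_iff₀ (by positivity)] at hl2 hl3
    rw [abs_le]
    constructor
    · have e1 : δ * l * G P Z α a ≤ η / 3 * l := by
        calc δ * l * G P Z α a ≤ δ * l * CG := mul_le_mul_of_nonneg_left h3 (by positivity)
          _ = δ * CG * l := by ring
          _ ≤ η / 3 * l := mul_le_mul_of_nonneg_right hδC (by linarith)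
      have e2 : C * (l * a ^ (δ / 2)) ≤ η / 3 * l := by
        have := mul_le_mul_of_nonneg_right hs.le (by linarith : 0 ≤ l)
        linarith
      linarith
    · have e1 : tau P Z α R * Mf P Z α a ≤ η / 2 * l := by
        have e2 : tau P Z α R * C' ≤ η / 2 := by
          have := hR.1.le
          rwa [le_div_iff₀ hC'0] at this
        calc tau P Z α R * Mf P Z α a ≤ tau P Z α R * (C' * l) :=
              mul_le_mul_of_nonneg_left hM (S.tau_nonneg R)
          _ = tau P Z α R * C' * l := by ring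
          _ ≤ η / 2 * l := mul_le_mul_of_nonneg_right e2 (by linarith)
      have e2 : (l + 1 / α + Real.log R) * G P Z α a ≤ l * G P Z α a + c * CG := by
        have e : l + 1 / α + Real.log R = l + c := by rw [hc]; ring
        rw [e, add_mul]
        have := mul_le_mul_of_nonneg_left h3 hc0
        linarith
      linarith
  rw [Metric.tendsto_nhds]
  intro η hη
  filter_upwards [key (η / 2 * mm P Z α) (by positivity), tendsto_ell.eventually_ge_atTop 1]
    with a h hl
  have hl0 : 0 < Real.log (1 / a) := by linarith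
  rw [Real.dist_0_eq_abs]
  have e : Mf P Z α a / Real.log (1 / a) - G P Z α a / mm P Z α
      = (mm P Z α * Mf P Z α a - Real.log (1 / a) * G P Z α a)
        / (mm P Z α * Real.log (1 / a)) := by
    field_simp
  rw [e, abs_div, abs_of_pos (mul_pos hm hl0), div_lt_iff₀ (mul_pos hm hl0)]
  have : η / 2 * mm P Z α * Real.log (1 / a) < η * (mm P Z α * Real.log (1 / a)) := by
    have := mul_pos hm hl0
    nlinarith
  linarith

end Setup

end

end Pool.Agent.H741R3.DH
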