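import Pool.Agent.H741R3.DH5

/-!
Derrida-Hilhorst singularity, part 6: elementary expansions and alternating asymptotic expansions.
-/

open MeasureTheory ProbabilityTheory Filter Topology Asymptotics

namespace Pool.Agent.H741R3.DH

noncomputable section

lemma geom_mul (b : ℕ → ℝ) (y : ℝ) (N : ℕ) :
    (1 + y) * ∑ n ∈ Finset.range N, (∑ j ∈ Finset.range (n + 1), b j) * (-y) ^ n
      = ∑ n ∈ Finset.range N, b n * (-y) ^ n - (∑ j ∈ Finset.range N, b j) * (-y) ^ N := by
  induction N with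
  | zero => simp
  | succ N ih =>
    rw [Finset.sum_range_succ, mul_add, ih, Finset.sum_range_succ (fun n => b n * (-y) ^ n),
      Finset.sum_range_succ b N]
    ring

lemma geom_one (y : ℝ) (N : ℕ) :
    (1 + y) * ∑ n ∈ Finset.range N, (1 : ℝ) * (-y) ^ n = 1 - (-y) ^ N := by
  induction N with
  | zero => simp
  | succ N ih =>
    rw [Finset.sum_range_succ, mul_add, ih]
    ring

lemma inv_expand (k : ℕ) (hk : 1 ≤ k) : ∃ b : ℕ → ℝ, b 0 = 1 ∧ (∀ j, 0 ≤ b j) ∧
    ∀ N, ∃ K, 0 ≤ K ∧ ∀ y : ℝ, 0 ≤ y →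
      |((1 + y) ^ k)⁻¹ - ∑ j ∈ Finset.range N, b j * (-y) ^ j| ≤ K * (y ^ N / (1 + y)) := by
  induction k, hk using Nat.le_induction with
  | base =>
    refine ⟨fun _ => 1, rfl, fun _ => zero_le_one, fun N => ⟨1, zero_le_one, fun y hy => ?_⟩⟩
    have h := geom_one y N
    have hy1 : 0 < 1 + y := by linarith
    have h2 : ((1 + y) ^ 1)⁻¹ - ∑ j ∈ Finset.range N, (1 : ℝ) * (-y) ^ j
        = (-y) ^ N / (1 + y) := by
      rw [eq_div_iff hy1.ne', sub_mul, mul_comm _ (1 + y), mul_comm _ (1 + y), h, pow_one,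
        mul_inv_cancel₀ hy1.ne']
      ring
    rw [h2, abs_div, abs_pow, abs_neg, abs_of_nonneg hy, abs_of_pos hy1, one_mul]
  | succ k hk ih =>
    obtain ⟨b, hb0, hb, hN⟩ := ih
    refine ⟨fun n => ∑ j ∈ Finset.range (n + 1), b j, by simp [hb0],
      fun n => Finset.sum_nonneg fun j _ => hb j, fun N => ?_⟩
    obtain ⟨K, hK, h⟩ := hN N
    have hB : 0 ≤ ∑ j ∈ Finset.range N, b j := Finset.sum_nonneg fun j _ => hb j
    refine ⟨K + ∑ j ∈ Finset.range N, b j, add_nonneg hK hB, fun y hy => ?_⟩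
    have hy1 : 0 < 1 + y := by linarith
    have h1 := h y hy
    have h2 := geom_mul b y N
    set S' := ∑ n ∈ Finset.range N, (∑ j ∈ Finset.range (n + 1), b j) * (-y) ^ n with hS'
    set T := ∑ n ∈ Finset.range N, b n * (-y) ^ n with hT
    set B := ∑ j ∈ Finset.range N, b j with hBdef
    have h3 : ((1 + y) ^ (k + 1))⁻¹ - S'
        = ((((1 + y) ^ k)⁻¹ - T) + B * (-y) ^ N) / (1 + y) := by
      rw [eq_div_iff hy1.ne', sub_mul, mul_comm S', h2, pow_succ, mul_inv, mul_assoc,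
        inv_mul_cancel₀ hy1.ne']
      ring
    have hyN : 0 ≤ y ^ N := pow_nonneg hy N
    rw [h3, abs_div, abs_of_pos hy1, div_le_iff₀ hy1]
    have h4 : (K + B) * (y ^ N / (1 + y)) * (1 + y) = (K + B) * y ^ N := by field_simp
    rw [h4]
    have h5 : y ^ N / (1 + y) ≤ y ^ N := div_le_self hyN (by linarith)
    calc |((1 + y) ^ k)⁻¹ - T + B * (-y) ^ N|
        ≤ |((1 + y) ^ k)⁻¹ - T| + |B * (-y) ^ N| := abs_add_le _ _
      _ ≤ K * (y ^ N / (1 + y)) + B * y ^ N := by
          apply add_le_add h1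
          rw [abs_mul, abs_pow, abs_neg, abs_of_nonneg hy, abs_of_nonneg hB]
      _ ≤ K * y ^ N + B * y ^ N := by
          have := mul_le_mul_of_nonneg_left h5 hK
          linarith
      _ = _ := by ring

/-- The remainder of the logarithm. -/
def logE (N : ℕ) (y : ℝ) : ℝ :=
  Real.log (1 + y) + ∑ k ∈ Finset.range N, (-y) ^ (k + 1) / (k + 1)

lemma hasDerivAt_logE (N : ℕ) {y : ℝ} (hy : 0 ≤ y) :
    HasDerivAt (logE N) ((-y) ^ N / (1 + y)) y := by
  have hy1 : 0 < 1 + y := by linarith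
  have h1 : HasDerivAt (fun y : ℝ => Real.log (1 + y)) (1 / (1 + y)) y := by
    have h := ((hasDerivAt_id y).const_add 1).log hy1.ne'
    simpa using h
  have h2 : ∀ k ∈ Finset.range N,
      HasDerivAt (fun y : ℝ => (-y) ^ (k + 1) / (k + 1)) (-((1 : ℝ) * (-y) ^ k)) y := by
    intro k _
    have h := (((hasDerivAt_id y).neg).pow (k + 1)).div_const ((k : ℝ) + 1)
    have hk : (k : ℝ) + 1 ≠ 0 := by positivity
    refine h.congr_deriv ?_
    simp only [id, Nat.cast_add, Nat.cast_one, Nat.add_sub_cancel, Pi.neg_apply]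
    field_simp
  have h3 := h1.add (HasDerivAt.fun_sum h2)
  refine h3.congr_deriv ?_
  have h4 := geom_one y N
  rw [Finset.sum_neg_distrib]
  have h5 : ∑ n ∈ Finset.range N, (1 : ℝ) * (-y) ^ n = (1 - (-y) ^ N) / (1 + y) := by
    rw [eq_div_iff hy1.ne', mul_comm]; exact h4
  rw [h5]
  field_simp
  ring

lemma logE_le (N : ℕ) (hN : 1 ≤ N) {y : ℝ} (hy : 0 ≤ y) :
    |logE N y| ≤ y ^ (N + 1) / (1 + y) := by
  have hQ : ∀ x : ℝ, 0 ≤ x → HasDerivAt (fun x : ℝ => x ^ (N + 1) / (1 + x))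
      ((((N : ℝ) + 1) * x ^ N * (1 + x) - x ^ (N + 1)) / (1 + x) ^ 2) x := by
    intro x hx
    have hx1 : 0 < 1 + x := by linarith
    have h := ((hasDerivAt_id x).pow (N + 1)).div ((hasDerivAt_id x).const_add 1) hx1.ne'
    refine h.congr_deriv ?_
    simp
  have hQge : ∀ x : ℝ, 0 ≤ x →
      x ^ N / (1 + x) ≤ (((N : ℝ) + 1) * x ^ N * (1 + x) - x ^ (N + 1)) / (1 + x) ^ 2 := by
    intro x hx
    have hx1 : 0 < 1 + x := by linarith
    rw [div_le_div_iff₀ hx1 (by positivity)]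
    have hxN : 0 ≤ x ^ N := pow_nonneg hx N
    have hN1 : (1 : ℝ) ≤ N := by exact_mod_cast hN
    have e : (((N : ℝ) + 1) * x ^ N * (1 + x) - x ^ (N + 1)) * (1 + x) - x ^ N * (1 + x) ^ 2
        = x ^ N * (1 + x) * (((N : ℝ) + 1) * (1 + x) - x - (1 + x)) := by ring
    have h2 : 0 ≤ ((N : ℝ) + 1) * (1 + x) - x - (1 + x) := by nlinarith
    have h3 : 0 ≤ x ^ N * (1 + x) * (((N : ℝ) + 1) * (1 + x) - x - (1 + x)) := by positivity
    linarith
  have hQ0 : (0 : ℝ) ^ (N + 1) / (1 + 0) = 0 := by simp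
  have hE0 : logE N 0 = 0 := by simp [logE]
  have key : ∀ s : ℝ, |s| = 1 → 0 ≤ y ^ (N + 1) / (1 + y) + s * logE N y := by
    intro s hs
    have hder : ∀ x : ℝ, 0 ≤ x → HasDerivAt (fun x : ℝ => x ^ (N + 1) / (1 + x) + s * logE N x)
        ((((N : ℝ) + 1) * x ^ N * (1 + x) - x ^ (N + 1)) / (1 + x) ^ 2
          + s * ((-x) ^ N / (1 + x))) x :=
      fun x hx => (hQ x hx).add ((hasDerivAt_logE N hx).const_mul s)
    have hmono : MonotoneOn (fun x : ℝ => x ^ (N + 1) / (1 + x) + s * logE N x)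
        (Set.Ici 0) := by
      apply monotoneOn_of_deriv_nonneg (convex_Ici 0)
      · exact fun x hx => (hder x hx).continuousAt.continuousWithinAt
      · intro x hx
        rw [interior_Ici] at hx
        exact (hder x (le_of_lt hx)).differentiableAt.differentiableWithinAt
      · intro x hx
        rw [interior_Ici] at hx
        have hx0 : 0 ≤ x := le_of_lt hx
        have hx1 : 0 < 1 + x := by linarith
        rw [(hder x hx0).deriv]
        have h1 := hQge x hx0
        have h2 : |s * ((-x) ^ N / (1 + x))| = x ^ N / (1 + x) := by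
          rw [abs_mul, hs, one_mul, abs_div, abs_pow, abs_neg, abs_of_nonneg hx0, abs_of_pos hx1]
        have h3 := neg_abs_le (s * ((-x) ^ N / (1 + x)))
        linarith
    have h := hmono (Set.mem_Ici.2 le_rfl) (Set.mem_Ici.2 hy) hy
    simp only [hE0, mul_zero, add_zero] at h
    rw [zero_pow (Nat.succ_ne_zero N), zero_div] at h
    exact h
  rw [abs_le]
  constructor
  · have := key 1 (by simp); linarith
  · have := key (-1) (by simp); linarith

/-- Alternating asymptotic expansion of order `N` with nonnegative coefficients. -/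
def AE (N : ℕ) (F : ℝ → ℝ) : Prop := ∃ μ : ℕ → ℝ, (∀ n, 0 ≤ μ n) ∧
  (fun a => F a - ∑ n ∈ Finset.range N, μ n * (-a) ^ n) =O[𝓝[>] 0] (fun a => a ^ N)

lemma AE.of_isBigO {N : ℕ} {F : ℝ → ℝ} (h : F =O[𝓝[>] 0] (fun a => a ^ N)) : AE N F := by
  refine ⟨fun _ => 0, fun _ => le_rfl, ?_⟩
  simpa using h

lemma AE.congr {N : ℕ} {F G : ℝ → ℝ} (h : AE N F) (hFG : F =ᶠ[𝓝[>] 0] G) : AE N G := by
  obtain ⟨μ, hμ, hF⟩ := h
  refine ⟨μ, hμ, hF.congr' ?_ EventuallyEq.rfl⟩
  filter_upwards [hFG] with a ha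
  rw [ha]

lemma AE.add {N : ℕ} {F G : ℝ → ℝ} (hF : AE N F) (hG : AE N G) : AE N (fun a => F a + G a) := by
  obtain ⟨μ, hμ, hF⟩ := hF
  obtain ⟨ν, hν, hG⟩ := hG
  refine ⟨fun n => μ n + ν n, fun n => add_nonneg (hμ n) (hν n), (hF.add hG).congr_left ?_⟩
  intro a
  simp only [add_mul, Finset.sum_add_distrib]
  ring

lemma AE.smul {N : ℕ} {F : ℝ → ℝ} (hF : AE N F) {c : ℝ} (hc : 0 ≤ c) :
    AE N (fun a => c * F a) := by
  obtain ⟨μ, hμ, hF⟩ := hF
  refine ⟨fun n => c * μ n, fun n => mul_nonneg hc (hμ n), (hF.const_mul_left c).congr_left ?_⟩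
  intro a
  simp only [mul_assoc, ← Finset.mul_sum]
  ring

lemma AE.zero (N : ℕ) : AE N (fun _ => 0) := AE.of_isBigO (isBigO_zero _ _)

lemma AE.sum {ι : Type*} (s : Finset ι) {N : ℕ} {F : ι → ℝ → ℝ} (h : ∀ i ∈ s, AE N (F i)) :
    AE N (fun a => ∑ i ∈ s, F i a) := by
  classical
  induction s using Finset.induction_on with
  | empty => simpa using AE.zero N
  | insert i s hi ih =>
    have h1 := (h i (Finset.mem_insert_self i s)).add
      (ih fun j hj => h j (Finset.mem_insert_of_mem hj))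
    refine h1.congr (Eventually.of_forall fun a => ?_)
    simp only [Finset.sum_insert hi]

lemma AE.shift1 {N : ℕ} {F : ℝ → ℝ} (h : AE N F) : AE (N + 1) (fun a => (-a) * F a) := by
  obtain ⟨μ, hμ, hF⟩ := h
  refine ⟨fun n => Nat.casesOn n 0 μ, fun n => ?_, ?_⟩
  · cases n with
    | zero => exact le_rfl
    | succ n => exact hμ n
  · have h1 : (fun a : ℝ => (-a) * (F a - ∑ n ∈ Finset.range N, μ n * (-a) ^ n))
        =O[𝓝[>] 0] (fun a : ℝ => a * a ^ N) :=
      ((isBigO_refl (fun a : ℝ => a) _).neg_left).mul hF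
    refine (h1.congr_left ?_).congr_right ?_
    · intro a
      rw [Finset.sum_range_succ', mul_sub, Finset.mul_sum]
      have e : ∑ i ∈ Finset.range N, -a * (μ i * (-a) ^ i)
          = ∑ x ∈ Finset.range N, μ x * (-a) ^ (x + 1) := by
        apply Finset.sum_congr rfl
        intro n _
        rw [pow_succ]; ring
      rw [e]
      change _ = -a * F a - (∑ x ∈ Finset.range N, μ x * (-a) ^ (x + 1) + 0 * (-a) ^ 0)
      ring
    · intro a
      rw [pow_succ]; ring

lemma AE.shift {N : ℕ} {F : ℝ → ℝ} (h : AE N F) (j : ℕ) :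
    AE (N + j) (fun a => (-a) ^ j * F a) := by
  induction j with
  | zero => simpa using h
  | succ j ih =>
    have h1 := ih.shift1
    refine h1.congr (Eventually.of_forall fun a => ?_)
    simp only
    rw [pow_succ]; ring

lemma isBigO_pow_le {m n : ℕ} (h : m ≤ n) :
    (fun a : ℝ => a ^ n) =O[𝓝[>] 0] (fun a : ℝ => a ^ m) := by
  refine IsBigO.of_bound 1 ?_
  filter_upwards [Setup.ev_Ioc] with a ha
  rw [one_mul, norm_pow, norm_pow]
  exact pow_le_pow_of_le_one (norm_nonneg _)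
    (by rw [Real.norm_eq_abs, abs_of_pos ha.1]; exact ha.2) h

lemma AE.drop1 {N : ℕ} {F : ℝ → ℝ} (h : AE (N + 1) F) : AE N F := by
  obtain ⟨μ, hμ, hF⟩ := h
  refine ⟨μ, hμ, ?_⟩
  have h1 := hF.trans (isBigO_pow_le (Nat.le_succ N))
  have h2 : (fun a : ℝ => μ N * (-a) ^ N) =O[𝓝[>] 0] (fun a : ℝ => a ^ N) := by
    refine IsBigO.of_bound (|μ N|) (Eventually.of_forall fun a => ?_)
    rw [norm_mul, norm_pow, norm_neg, ← norm_pow, Real.norm_eq_abs]
  refine (h1.add h2).congr_left ?_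
  intro a
  rw [Finset.sum_range_succ]
  ring

lemma AE.mono {N N' : ℕ} {F : ℝ → ℝ} (h : AE N F) (hN : N' ≤ N) : AE N' F := by
  induction N, hN using Nat.le_induction with
  | base => exact h
  | succ N hN ih => exact ih h.drop1

lemma AE.const (N : ℕ) {c : ℝ} (hc : 0 ≤ c) : AE N (fun _ => c) := by
  have h : AE (N + 1) (fun _ => c) := by
    refine ⟨fun n => if n = 0 then c else 0, fun n => ?_, ?_⟩
    · dsimp only
      split_ifs
      · exact hc
      · exact le_rfl
    · have e : (fun a : ℝ => c - ∑ n ∈ Finset.range (N + 1), (if n = 0 then c else 0) * (-a) ^ n)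
          = fun _ => 0 := by
        funext a
        rw [Finset.sum_range_succ']
        simp
      rw [e]
      exact isBigO_zero _ _
  exact h.drop1

end

end Pool.Agent.H741R3.DH
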