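import Pool.Agent.H741R3.DH6

/-!
Derrida-Hilhorst singularity, part 7: the moment recursion for integer exponent.
-/

open MeasureTheory ProbabilityTheory Filter Topology Asymptotics

namespace Pool.Agent.H741R3.DH

noncomputable section

variable {Ω : Type*} [mΩ : MeasurableSpace Ω] {P : Measure Ω} {Z : ℕ → Ω → ℝ} {α : ℝ} {p : ℕ}

/-- `M_k(a) = Λ(x^k)`. -/
def Mk (P : Measure Ω) (Z : ℕ → Ω → ℝ) (k : ℕ) (a : ℝ) : ℝ := Lam P Z a (fun x => x ^ k)

/-- `q_k = E[Z^k]`. -/
def qk (P : Measure Ω) (Z : ℕ → Ω → ℝ) (k : ℕ) : ℝ := ∫ ω, (Z 0 ω) ^ k ∂P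

/-- `r_k = q_k / (1 - q_k)`. -/
def rk (P : Measure Ω) (Z : ℕ → Ω → ℝ) (k : ℕ) : ℝ := qk P Z k / (1 - qk P Z k)

/-- The Lyapunov exponent in terms of the chain. -/
def Lf (P : Measure Ω) (Z : ℕ → Ω → ℝ) (a : ℝ) : ℝ := Lam P Z a (fun x => Real.log (1 + a * x))

lemma cl_npow {k : ℕ} (hk : (k : ℝ) ≤ α) : Cl α (fun x : ℝ => x ^ k) := by
  have h := cl_pow (α := α) (s := k) (Nat.cast_nonneg k) hk
  simpa only [Real.rpow_natCast] using h

lemma cl_nV {k : ℕ} (hk : (k : ℝ) ≤ α) : Cl α (fun x : ℝ => (1 + x) ^ k) := by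
  have h := cl_V (α := α) (s := k) ((Nat.cast_nonneg k).trans hk) hk
  simpa only [Real.rpow_natCast] using h

lemma cl_nW {a : ℝ} (ha : 0 < a) {k : ℕ} (hk : (k : ℝ) ≤ α) : Cl α (fun x : ℝ => (W a x) ^ k) := by
  have h := cl_W (α := α) (s := k) ha (Nat.cast_nonneg k) hk
  simpa only [Real.rpow_natCast] using h

lemma cl_xV {j k : ℕ} (h : ((j + k : ℕ) : ℝ) ≤ α) : Cl α (fun x : ℝ => x ^ j * (1 + x) ^ k) := by
  refine (cl_nV h).of_le ((measurable_id.pow_const j).mul
    ((measurable_const.add measurable_id).pow_const k)) fun x hx => ?_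
  rw [abs_of_nonneg (by positivity), pow_add]
  exact mul_le_mul_of_nonneg_right (pow_le_pow_left₀ hx (by linarith) j) (by positivity)

lemma cl_nVkap {a : ℝ} (ha : 0 < a) {k : ℕ} (hk : (k : ℝ) ≤ α) :
    Cl α (fun x : ℝ => (1 + x) ^ k * kap a x) := by
  have h := cl_Vkap (α := α) (s := k) ha ((Nat.cast_nonneg k).trans hk) hk
  simpa only [Real.rpow_natCast] using h

lemma cl_sum {ι : Type*} (hα : 0 ≤ α) (s : Finset ι) {f : ι → ℝ → ℝ} (hf : ∀ i ∈ s, Cl α (f i)) :
    Cl α (fun x => ∑ i ∈ s, f i x) := by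
  classical
  induction s using Finset.induction_on with
  | empty => simpa using Cl.const hα 0
  | insert i s hi ih =>
    have h1 := (hf i (Finset.mem_insert_self i s)).add
      (ih fun j hj => hf j (Finset.mem_insert_of_mem hj))
    simpa only [Finset.sum_insert hi] using h1

namespace Setup

lemma Lam_sum (S : Setup P Z α) {a : ℝ} (ha : 0 < a) (ha1 : a ≤ 1) {ι : Type*} (s : Finset ι)
    {f : ι → ℝ → ℝ} (hf : ∀ i ∈ s, Cl α (f i)) :
    Lam P Z a (fun x => ∑ i ∈ s, f i x) = ∑ i ∈ s, Lam P Z a (f i) := by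
  classical
  induction s using Finset.induction_on with
  | empty => simpa using S.Lam_const (a := a) 0
  | insert i s hi ih =>
    have h0 := hf i (Finset.mem_insert_self i s)
    have h1 : ∀ j ∈ s, Cl α (f j) := fun j hj => hf j (Finset.mem_insert_of_mem hj)
    rw [Finset.sum_insert hi, ← ih h1,
      ← S.Lam_add ha ha1 h0 (cl_sum S.α_pos.le s h1)]
    simp only [Finset.sum_insert hi]

lemma Lam_xV (S : Setup P Z α) {a : ℝ} (ha : 0 < a) (ha1 : a ≤ 1) {j k : ℕ}
    (h : ((j + k : ℕ) : ℝ) ≤ α) :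
    Lam P Z a (fun x => x ^ j * (1 + x) ^ k)
      = ∑ i ∈ Finset.range (k + 1), (k.choose i : ℝ) * Mk P Z (i + j) a := by
  have e : (fun x : ℝ => x ^ j * (1 + x) ^ k)
      = fun x => ∑ i ∈ Finset.range (k + 1), (k.choose i : ℝ) * x ^ (i + j) := by
    funext x
    rw [add_comm 1 x, add_pow, Finset.mul_sum]
    apply Finset.sum_congr rfl
    intro i _
    rw [one_pow, pow_add]; ring
  have hcl : ∀ i ∈ Finset.range (k + 1), Cl α (fun x : ℝ => x ^ (i + j)) := by
    intro i hi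
    apply cl_npow
    refine le_trans ?_ h
    have := Finset.mem_range.1 hi
    exact_mod_cast (by omega : i + j ≤ j + k)
  rw [e, S.Lam_sum ha ha1 _ (fun i hi => (hcl i hi).const_mul _)]
  apply Finset.sum_congr rfl
  intro i hi
  rw [S.Lam_const_mul ha ha1 (hcl i hi)]
  rfl

lemma Mk_zero (S : Setup P Z α) (a : ℝ) : Mk P Z 0 a = 1 := by
  unfold Mk
  simpa using S.Lam_const (a := a) 1

lemma Mk_eq (S : Setup P Z α) {a : ℝ} (ha : 0 < a) (ha1 : a ≤ 1) {k : ℕ} (hk : (k : ℝ) ≤ α) :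
    Mk P Z k a = qk P Z k * Lam P Z a (fun x => (W a x) ^ k) := by
  have hprob := S.prob
  have hi : Integrable (fun ω => (Z 0 ω) ^ k) P := by
    have := S.int_rpow (Nat.cast_nonneg k) hk
    simpa only [Real.rpow_natCast] using this
  have h := S.Lam_step_eq ha ha1 (cl_npow hk) (F₁ := fun z => z ^ k)
    (measurable_id.pow_const k) hi (cl_nW ha hk) (F₂ := fun _ => (0 : ℝ))
    measurable_const (integrable_const _) (Cl.const S.α_pos.le (0 : ℝ)) (by
      intro z x hz hx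
      rw [mul_pow]; ring)
  simp only [integral_const, smul_eq_mul, mul_zero, zero_mul, add_zero] at h
  exact h

lemma qk_nonneg (S : Setup P Z α) (k : ℕ) : 0 ≤ qk P Z k := by
  apply integral_nonneg_of_ae
  filter_upwards [S.pos] with ω hω using pow_nonneg hω.le _

lemma qk_pos (S : Setup P Z α) {k : ℕ} (hk : (k : ℝ) ≤ α) : 0 < qk P Z k := by
  have hprob := S.prob
  have hi : Integrable (fun ω => (Z 0 ω) ^ k) P := by
    have := S.int_rpow (Nat.cast_nonneg k) hk
    simpa only [Real.rpow_natCast] using this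
  unfold qk
  rw [integral_pos_iff_support_of_nonneg_ae _ hi]
  · have : Function.support (fun ω => (Z 0 ω) ^ k) =ᵐ[P] Set.univ := by
      filter_upwards [S.pos] with ω hω
      have : ω ∈ Function.support (fun ω => (Z 0 ω) ^ k) := (pow_pos hω k).ne'
      exact propext ⟨fun _ => trivial, fun _ => this⟩
    rw [measure_congr this]
    simp
  · filter_upwards [S.pos] with ω hω using pow_nonneg hω.le _

lemma qk_lt_one (S : Setup P Z α) {k : ℕ} (hk0 : 1 ≤ k) (hk : (k : ℝ) < α) : qk P Z k < 1 := by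
  have := S.q_lt_one (s := k) (by exact_mod_cast hk0) hk
  simp only [Real.rpow_natCast] at this
  exact this

lemma rk_pos (S : Setup P Z α) {k : ℕ} (hk0 : 1 ≤ k) (hk : (k : ℝ) < α) : 0 < rk P Z k := by
  have h1 := S.qk_lt_one hk0 hk
  have h2 := S.qk_pos hk.le
  exact div_pos h2 (by linarith)

lemma Vkap_nat (S : Setup P Z (p : ℝ)) : ∃ C, 0 ≤ C ∧ ∀ a, 0 < a → a ≤ 1 →
    Lam P Z a (fun x => (1 + x) ^ p * kap a x) ≤ C := by
  have h := S.Vkap_bound
  simpa only [Real.rpow_natCast] using h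

lemma rel (S : Setup P Z (p : ℝ)) {k : ℕ} (hk1 : 1 ≤ k) (hkp : k ≤ p) :
    ∃ b : ℕ → ℝ, b 0 = 1 ∧ (∀ j, 0 ≤ b j) ∧
      (fun a => Mk P Z k a - qk P Z k * ∑ j ∈ Finset.range (p - k + 1), b j * (-a) ^ j *
        ∑ i ∈ Finset.range (k + 1), (k.choose i : ℝ) * Mk P Z (i + j) a)
        =O[𝓝[>] 0] (fun a : ℝ => a ^ (p - k)) := by
  obtain ⟨b, hb0, hb, hN⟩ := inv_expand k hk1
  obtain ⟨K, hK0, hK⟩ := hN (p - k + 1)
  obtain ⟨C, hC0, hC⟩ := S.Vkap_nat
  refine ⟨b, hb0, hb, IsBigO.of_bound (qk P Z k * (K * C)) ?_⟩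
  filter_upwards [ev_Ioc] with a ha
  have ha0 := ha.1
  have hkp' : (k : ℝ) ≤ p := by exact_mod_cast hkp
  have hcl : ∀ j ∈ Finset.range (p - k + 1), Cl (p : ℝ) (fun x : ℝ => x ^ j * (1 + x) ^ k) := by
    intro j hj
    apply cl_xV
    have := Finset.mem_range.1 hj
    exact_mod_cast (by omega : j + k ≤ p)
  have hsum : ∑ j ∈ Finset.range (p - k + 1), b j * (-a) ^ j *
        ∑ i ∈ Finset.range (k + 1), (k.choose i : ℝ) * Mk P Z (i + j) a
      = Lam P Z a (fun x => ∑ j ∈ Finset.range (p - k + 1),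
          b j * (-a) ^ j * (x ^ j * (1 + x) ^ k)) := by
    rw [S.Lam_sum ha.1 ha.2 _ (fun j hj => (hcl j hj).const_mul _)]
    apply Finset.sum_congr rfl
    intro j hj
    have hjk : ((j + k : ℕ) : ℝ) ≤ p := by
      have := Finset.mem_range.1 hj
      exact_mod_cast (by omega : j + k ≤ p)
    rw [S.Lam_const_mul ha.1 ha.2 (hcl j hj), S.Lam_xV ha.1 ha.2 hjk]
  have hclS := cl_sum S.α_pos.le (Finset.range (p - k + 1))
    (fun j hj => (hcl j hj).const_mul (b j * (-a) ^ j))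
  rw [hsum, S.Mk_eq ha.1 ha.2 hkp', ← mul_sub, ← S.Lam_sub ha.1 ha.2 (cl_nW ha.1 hkp') hclS]
  have hpt : ∀ x : ℝ, 0 ≤ x → |(W a x) ^ k
      - ∑ j ∈ Finset.range (p - k + 1), b j * (-a) ^ j * (x ^ j * (1 + x) ^ k)|
      ≤ (K * a ^ (p - k)) * ((1 + x) ^ p * kap a x) := by
    intro x hx
    have hax : 0 ≤ a * x := by positivity
    have hH : 0 < 1 + a * x := by positivity
    have hV : 0 ≤ (1 + x) ^ k := by positivity
    have h1 := hK (a * x) hax
    have e1 : (W a x) ^ k = (1 + x) ^ k * ((1 + a * x) ^ k)⁻¹ := by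
      unfold W; rw [div_pow, div_eq_mul_inv]
    have e2 : ∑ j ∈ Finset.range (p - k + 1), b j * (-a) ^ j * (x ^ j * (1 + x) ^ k)
        = (1 + x) ^ k * ∑ j ∈ Finset.range (p - k + 1), b j * (-(a * x)) ^ j := by
      rw [Finset.mul_sum]
      apply Finset.sum_congr rfl
      intro j _
      have : (-(a * x)) ^ j = (-a) ^ j * x ^ j := by rw [← mul_pow]; ring_nf
      rw [this]; ring
    rw [e1, e2, ← mul_sub, abs_mul, abs_of_nonneg hV]
    have h2 := mul_le_mul_of_nonneg_left h1 hV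
    refine h2.trans ?_
    have hxk : x ^ (p - k) ≤ (1 + x) ^ (p - k) := pow_le_pow_left₀ hx (by linarith) _
    have hpk : (1 + x) ^ p = (1 + x) ^ k * (1 + x) ^ (p - k) := by
      rw [← pow_add]; congr 1; omega
    have hkap := kap_nonneg ha0 hx
    have e3 : (1 + x) ^ k * (K * ((a * x) ^ (p - k + 1) / (1 + a * x)))
        = (K * a ^ (p - k)) * ((1 + x) ^ k * x ^ (p - k) * kap a x) := by
      unfold kap
      rw [pow_succ, mul_pow]
      ring
    rw [e3, hpk]
    have haK : 0 ≤ K * a ^ (p - k) := by positivity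
    apply mul_le_mul_of_nonneg_left _ haK
    apply mul_le_mul_of_nonneg_right _ hkap
    exact mul_le_mul_of_nonneg_left hxk hV
  have hb2 := S.Lam_abs_le ha.1 ha.2 ((cl_nW ha.1 hkp').sub hclS)
    ((cl_nVkap ha0 le_rfl).const_mul _) hpt
  rw [S.Lam_const_mul ha.1 ha.2 (cl_nVkap ha0 le_rfl)] at hb2
  rw [Real.norm_eq_abs, Real.norm_eq_abs, abs_mul, abs_of_nonneg (S.qk_nonneg k),
    abs_of_nonneg (by positivity : 0 ≤ a ^ (p - k)), mul_assoc]
  apply mul_le_mul_of_nonneg_left _ (S.qk_nonneg k)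
  refine hb2.trans ?_
  have := mul_le_mul_of_nonneg_left (hC a ha.1 ha.2) (by positivity : 0 ≤ K * a ^ (p - k))
  linarith

lemma rel' (S : Setup P Z (p : ℝ)) {k : ℕ} (hk1 : 1 ≤ k) (hkp : k < p) :
    ∃ b : ℕ → ℝ, (∀ j, 0 ≤ b j) ∧
      (fun a => Mk P Z k a - (rk P Z k * ∑ i ∈ Finset.range k, (k.choose i : ℝ) * Mk P Z i a
        + ∑ j ∈ Finset.range (p - k), rk P Z k * b j * ((-a) ^ (j + 1) *
          ∑ i ∈ Finset.range (k + 1), (k.choose i : ℝ) * Mk P Z (i + (j + 1)) a)))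
        =O[𝓝[>] 0] (fun a : ℝ => a ^ (p - k)) := by
  obtain ⟨b, hb0, hb, h⟩ := S.rel hk1 hkp.le
  have hq : qk P Z k < 1 := S.qk_lt_one hk1 (by exact_mod_cast hkp)
  refine ⟨fun j => b (j + 1), fun j => hb _, ?_⟩
  refine (h.const_mul_left ((1 - qk P Z k)⁻¹)).congr_left fun a => ?_
  rw [Finset.sum_range_succ', Finset.sum_range_succ]
  simp only [add_zero, pow_zero, mul_one, hb0, one_mul, Nat.choose_self, Nat.cast_one]
  have h1 : 1 - qk P Z k ≠ 0 := by linarith
  have e : ∑ j ∈ Finset.range (p - k), rk P Z k * b (j + 1) * ((-a) ^ (j + 1) *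
          ∑ i ∈ Finset.range (k + 1), (k.choose i : ℝ) * Mk P Z (i + (j + 1)) a)
      = rk P Z k * ∑ j ∈ Finset.range (p - k), b (j + 1) * (-a) ^ (j + 1) *
          ∑ i ∈ Finset.range (k + 1), (k.choose i : ℝ) * Mk P Z (i + (j + 1)) a := by
    rw [Finset.mul_sum]
    apply Finset.sum_congr rfl
    intro j _
    ring
  rw [e]
  unfold rk
  field_simp
  ring

lemma Mk_nonneg (S : Setup P Z α) {a : ℝ} (ha : 0 < a) (ha1 : a ≤ 1) {k : ℕ} (hk : (k : ℝ) ≤ α) :
    0 ≤ Mk P Z k a :=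
  S.Lam_nonneg ha ha1 (cl_npow hk) fun x hx => pow_nonneg hx _

lemma Mk_p (P : Measure Ω) (Z : ℕ → Ω → ℝ) (p : ℕ) (a : ℝ) :
    Mk P Z p a = Mf P Z (p : ℝ) a := by
  unfold Mk Mf
  simp only [Real.rpow_natCast]

lemma Mk_le (S : Setup P Z (p : ℝ)) {a : ℝ} (ha : 0 < a) (ha1 : a ≤ 1) {k : ℕ} (hk : k ≤ p) :
    Mk P Z k a ≤ 1 + Mk P Z p a := by
  have hk' : (k : ℝ) ≤ p := by exact_mod_cast hk
  have h := S.Lam_mono ha ha1 (cl_npow hk') ((Cl.const S.α_pos.le 1).add (cl_npow le_rfl))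
    (fun x hx => by
      rcases le_total x 1 with h | h
      · have h1 : x ^ k ≤ 1 := pow_le_one₀ hx h
        have h2 : 0 ≤ x ^ p := pow_nonneg hx _
        linarith
      · have h1 : x ^ k ≤ x ^ p := pow_le_pow_right₀ h hk
        linarith)
  rw [S.Lam_add ha ha1 (Cl.const S.α_pos.le 1) (cl_npow le_rfl), S.Lam_const] at h
  exact h

/-- `a^(1/2) M_p(a)` is bounded. -/
lemma half_bdd (S : Setup P Z (p : ℝ)) : ∃ C, 0 ≤ C ∧ ∀ᶠ a in 𝓝[>] (0 : ℝ),
    a * Mk P Z p a ≤ C * a ^ (1 / 2 : ℝ) := by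
  obtain ⟨C, hC0, hC⟩ := S.Mf_bound
  refine ⟨2 * C, by positivity, ?_⟩
  filter_upwards [ev_Ioc, hC] with a ha h
  rw [Mk_p]
  have h1 := Real.log_le_rpow_div (one_div_pos.2 ha.1).le (by norm_num : (0 : ℝ) < 1 / 2)
  have h2 : (1 / a) ^ (1 / 2 : ℝ) = a ^ (-(1 / 2) : ℝ) := by
    rw [one_div, Real.inv_rpow ha.1.le, ← Real.rpow_neg ha.1.le]
  rw [h2] at h1
  have h3 : a * a ^ (-(1 / 2) : ℝ) = a ^ (1 / 2 : ℝ) := by
    have := Real.rpow_add ha.1 1 (-(1 / 2))
    rw [Real.rpow_one] at this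
    rw [← this]; norm_num
  calc a * Mf P Z (p : ℝ) a ≤ a * (C * Real.log (1 / a)) :=
        mul_le_mul_of_nonneg_left h ha.1.le
    _ ≤ a * (C * (a ^ (-(1 / 2) : ℝ) / (1 / 2))) :=
        mul_le_mul_of_nonneg_left (mul_le_mul_of_nonneg_left h1 hC0.le) ha.1.le
    _ = 2 * C * (a * a ^ (-(1 / 2) : ℝ)) := by ring
    _ = _ := by rw [h3]

lemma aM_bdd (S : Setup P Z (p : ℝ)) {k : ℕ} (hk : k ≤ p) : AE 0 (fun a => (-a) * Mk P Z k a) := by
  obtain ⟨C, hC0, hC⟩ := S.half_bdd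
  refine AE.of_isBigO (IsBigO.of_bound (1 + C) ?_)
  filter_upwards [ev_Ioc, hC] with a ha h
  have hk' : (k : ℝ) ≤ p := by exact_mod_cast hk
  have h1 := S.Mk_le ha.1 ha.2 hk
  have h2 := S.Mk_nonneg ha.1 ha.2 hk'
  have h3 : a ^ (1 / 2 : ℝ) ≤ 1 := Real.rpow_le_one ha.1.le ha.2 (by norm_num)
  rw [norm_mul, norm_neg, Real.norm_eq_abs, Real.norm_eq_abs, abs_of_pos ha.1, abs_of_nonneg h2,
    pow_zero, norm_one, mul_one]
  have h4 := mul_le_mul_of_nonneg_left h1 ha.1.le
  have h5 := mul_le_mul_of_nonneg_left h3 hC0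
  nlinarith [ha.2]

/-- Lower moments have expansions. -/
lemma exp1 (S : Setup P Z (p : ℝ)) : ∀ N k, k + N < p → AE N (Mk P Z k) := by
  intro N
  induction N using Nat.strong_induction_on with
  | _ N ihN =>
  intro k
  induction k using Nat.strong_induction_on with
  | _ k ihk =>
  intro hkN
  rcases Nat.eq_zero_or_pos k with rfl | hk
  · exact (AE.const N zero_le_one).congr (Eventually.of_forall fun a => (S.Mk_zero a).symm)
  · obtain ⟨b, hb, hrel⟩ := S.rel' hk (by omega : k < p)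
    have hr : 0 ≤ rk P Z k := (S.rk_pos hk (by exact_mod_cast (by omega : k < p))).le
    have h1 := AE.of_isBigO (hrel.trans (isBigO_pow_le (by omega : N ≤ p - k)))
    have h2 : AE N (fun a => rk P Z k * ∑ i ∈ Finset.range k,
        (k.choose i : ℝ) * Mk P Z i a) :=
      (AE.sum _ fun i hi => (ihk i (Finset.mem_range.1 hi)
        (by have := Finset.mem_range.1 hi; omega)).smul (Nat.cast_nonneg _)).smul hr
    have h3 : AE N (fun a => ∑ j ∈ Finset.range (p - k), rk P Z k * b j * ((-a) ^ (j + 1) *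
          ∑ i ∈ Finset.range (k + 1), (k.choose i : ℝ) * Mk P Z (i + (j + 1)) a)) := by
      refine AE.sum _ fun j hj => AE.smul ?_ (mul_nonneg hr (hb j))
      have hj' := Finset.mem_range.1 hj
      have h4 : AE N (fun a => ∑ i ∈ Finset.range (k + 1),
          (k.choose i : ℝ) * ((-a) ^ (j + 1) * Mk P Z (i + (j + 1)) a)) := by
        refine AE.sum _ fun i hi => AE.smul ?_ (Nat.cast_nonneg _)
        have hi' := Finset.mem_range.1 hi
        by_cases hjN : j + 1 ≤ N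
        · have h5 := (ihN (N - (j + 1)) (by omega) (i + (j + 1)) (by omega)).shift (j + 1)
          rwa [Nat.sub_add_cancel hjN] at h5
        · have h5 := ((S.aM_bdd (k := i + (j + 1)) (by omega)).shift j).mono
            (by omega : N ≤ 0 + j)
          refine h5.congr (Eventually.of_forall fun a => ?_)
          simp only
          rw [pow_succ]; ring
      refine h4.congr (Eventually.of_forall fun a => ?_)
      simp only [Finset.mul_sum]
      apply Finset.sum_congr rfl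
      intro i _
      ring
    refine ((h1.add h2).add h3).congr (Eventually.of_forall fun a => ?_)
    simp only
    ring

/-- The constant part used to get strict positivity. -/
def rho (P : Measure Ω) (Z : ℕ → Ω → ℝ) (p k : ℕ) : ℝ := if k < p then rk P Z k else 0

lemma rho_nonneg (S : Setup P Z (p : ℝ)) {k : ℕ} (hk : 1 ≤ k) : 0 ≤ rho P Z p k := by
  unfold rho
  split_ifs with h
  · exact (S.rk_pos hk (by exact_mod_cast h)).le
  · exact le_rfl

/-- The moments up to order `p`, in terms of the last one. -/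
lemma exp2 (S : Setup P Z (p : ℝ)) : ∀ d k, 1 ≤ k → k + d = p →
    ∃ c, 0 ≤ c ∧ (d = 0 → c = 1) ∧
      AE d (fun a => Mk P Z k a - rho P Z p k - c * ((-a) ^ d * Mk P Z p a)) := by
  intro d
  induction d using Nat.strong_induction_on with
  | _ d ih =>
  intro k hk hkd
  rcases Nat.eq_zero_or_pos d with rfl | hd
  · refine ⟨1, zero_le_one, fun _ => rfl, (AE.zero 0).congr (Eventually.of_forall fun a => ?_)⟩
    have hkp : k = p := by omega
    subst hkp
    simp [rho]
  · have hkp : k < p := by omega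
    have hpk : p - k = d := by omega
    obtain ⟨b, hb, hrel⟩ := S.rel' hk hkp
    rw [hpk] at hrel
    have hr : 0 ≤ rk P Z k := (S.rk_pos hk (by exact_mod_cast hkp)).le
    have hc' : ∀ j, ∃ c, 0 ≤ c ∧ (j < d → AE (d - (j + 1)) (fun a =>
        Mk P Z (k + (j + 1)) a - rho P Z p (k + (j + 1))
          - c * ((-a) ^ (d - (j + 1)) * Mk P Z p a))) := by
      intro j
      by_cases hj : j < d
      · obtain ⟨c, hc0, _, hc⟩ := ih (d - (j + 1)) (by omega) (k + (j + 1)) (by omega) (by omega)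
        exact ⟨c, hc0, fun _ => hc⟩
      · exact ⟨0, le_rfl, fun h => absurd h hj⟩
    choose c hc0 hc using hc'
    refine ⟨∑ j ∈ Finset.range d, rk P Z k * b j * c j,
      Finset.sum_nonneg fun j _ => mul_nonneg (mul_nonneg hr (hb j)) (hc0 j), by omega, ?_⟩
    have h1 := AE.of_isBigO hrel
    obtain ⟨k', rfl⟩ : ∃ k', k = k' + 1 := ⟨k - 1, by omega⟩
    have h2 : AE d (fun a => rk P Z (k' + 1) * ∑ i ∈ Finset.range k',
        ((k' + 1).choose (i + 1) : ℝ) * Mk P Z (i + 1) a) :=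
      (AE.sum _ fun i hi => (S.exp1 d (i + 1)
        (by have := Finset.mem_range.1 hi; omega)).smul (Nat.cast_nonneg _)).smul hr
    have h3 : AE d (fun a => ∑ j ∈ Finset.range d, rk P Z (k' + 1) * b j *
        (∑ i ∈ Finset.range (k' + 1), ((k' + 1).choose i : ℝ)
            * ((-a) ^ (j + 1) * Mk P Z (i + (j + 1)) a)
          + ((-a) ^ (j + 1) * (Mk P Z (k' + 1 + (j + 1)) a - rho P Z p (k' + 1 + (j + 1))
              - c j * ((-a) ^ (d - (j + 1)) * Mk P Z p a))
            + (-a) ^ (j + 1) * rho P Z p (k' + 1 + (j + 1))))) := by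
      refine AE.sum _ fun j hj => AE.smul ?_ (mul_nonneg hr (hb j))
      have hj' := Finset.mem_range.1 hj
      refine AE.add (AE.sum _ fun i hi => AE.smul ?_ (Nat.cast_nonneg _)) (AE.add ?_ ?_)
      · have hi' := Finset.mem_range.1 hi
        have h5 := (S.exp1 (d - (j + 1)) (i + (j + 1)) (by omega)).shift (j + 1)
        rwa [Nat.sub_add_cancel (by omega : j + 1 ≤ d)] at h5
      · have h5 := (hc j hj').shift (j + 1)
        rwa [Nat.sub_add_cancel (by omega : j + 1 ≤ d)] at h5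
      · have h5 := (AE.const (d - (j + 1))
          (S.rho_nonneg (k := k' + 1 + (j + 1)) (by omega))).shift (j + 1)
        rwa [Nat.sub_add_cancel (by omega : j + 1 ≤ d)] at h5
    refine ((h1.add h2).add h3).congr (Eventually.of_forall fun a => ?_)
    have hrho : rho P Z p (k' + 1) = rk P Z (k' + 1) := by unfold rho; rw [if_pos hkp]
    have e1 : ∑ i ∈ Finset.range (k' + 1), ((k' + 1).choose i : ℝ) * Mk P Z i a
        = ∑ i ∈ Finset.range k', ((k' + 1).choose (i + 1) : ℝ) * Mk P Z (i + 1) a + 1 := by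
      rw [Finset.sum_range_succ', Nat.choose_zero_right, S.Mk_zero]; simp
    have e2 : ∀ j ∈ Finset.range d, rk P Z (k' + 1) * b j *
        (∑ i ∈ Finset.range (k' + 1), ((k' + 1).choose i : ℝ)
            * ((-a) ^ (j + 1) * Mk P Z (i + (j + 1)) a)
          + ((-a) ^ (j + 1) * (Mk P Z (k' + 1 + (j + 1)) a - rho P Z p (k' + 1 + (j + 1))
              - c j * ((-a) ^ (d - (j + 1)) * Mk P Z p a))
            + (-a) ^ (j + 1) * rho P Z p (k' + 1 + (j + 1))))
        = rk P Z (k' + 1) * b j * ((-a) ^ (j + 1) *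
          ∑ i ∈ Finset.range (k' + 1 + 1), ((k' + 1).choose i : ℝ) * Mk P Z (i + (j + 1)) a)
          - rk P Z (k' + 1) * b j * c j * ((-a) ^ d * Mk P Z p a) := by
      intro j hj
      have hj' := Finset.mem_range.1 hj
      have hd' : (-a) ^ d = (-a) ^ (j + 1) * (-a) ^ (d - (j + 1)) := by
        rw [← pow_add]; congr 1; omega
      rw [Finset.sum_range_succ _ (k' + 1), Nat.choose_self, hd']
      have e3 : ∑ i ∈ Finset.range (k' + 1), ((k' + 1).choose i : ℝ)
            * ((-a) ^ (j + 1) * Mk P Z (i + (j + 1)) a)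
          = (-a) ^ (j + 1) * ∑ i ∈ Finset.range (k' + 1), ((k' + 1).choose i : ℝ)
            * Mk P Z (i + (j + 1)) a := by
        rw [Finset.mul_sum]
        apply Finset.sum_congr rfl
        intro i _
        ring
      rw [e3]
      push_cast
      ring
    simp only
    rw [Finset.sum_congr rfl e2, Finset.sum_sub_distrib, ← Finset.sum_mul, e1, hrho]
    ring

end Setup

end

end Pool.Agent.H741R3.DH
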