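import Mathlib

/-!
Real polynomial matrices, positive semidefinite on the imaginary axis: basic tools.
-/

open Polynomial Matrix
open scoped ComplexOrder

namespace Pool.Agent.H741R3.Skew

noncomputable section

/-- The involution `s ↦ -s` of `ℝ[s]`. -/
def sig : ℝ[X] →+* ℝ[X] := compRingHom (-X)

/-- Evaluation of a real polynomial at a complex number. -/
def evz (z : ℂ) : ℝ[X] →+* ℂ := eval₂RingHom Complex.ofRealHom z

/-- Evaluation of a real polynomial at `i w`. -/
def ev (w : ℝ) : ℝ[X] →+* ℂ := evz ((w : ℂ) * Complex.I)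

@[simp] lemma evz_C (z : ℂ) (a : ℝ) : evz z (C a) = a := by simp [evz]
@[simp] lemma evz_X (z : ℂ) : evz z X = z := by simp [evz]
lemma evz_eq (z : ℂ) (p : ℝ[X]) : evz z p = (p.map Complex.ofRealHom).eval z := by
  simp [evz, eval_map]

@[simp] lemma sig_C (a : ℝ) : sig (C a) = C a := by simp [sig]
@[simp] lemma sig_X : sig X = -X := by simp [sig]

@[simp] lemma sig_sig (p : ℝ[X]) : sig (sig p) = p := by
  have : sig.comp sig = RingHom.id _ := by
    apply Polynomial.ringHom_ext
    · intro a; simp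
    · simp
  exact congrArg (fun f : ℝ[X] →+* ℝ[X] => f p) this

lemma evz_sig (z : ℂ) (p : ℝ[X]) : evz z (sig p) = evz (-z) p := by
  have : (evz z).comp sig = evz (-z) := by
    apply Polynomial.ringHom_ext
    · intro a; simp
    · simp
  exact congrArg (fun f : ℝ[X] →+* ℂ => f p) this

lemma star_evz (z : ℂ) (p : ℝ[X]) : (starRingEnd ℂ) (evz z p) = evz ((starRingEnd ℂ) z) p := by
  have : (starRingEnd ℂ).comp (evz z) = evz ((starRingEnd ℂ) z) := by
    apply Polynomial.ringHom_ext
    · intro a; simp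
    · simp
  exact congrArg (fun f : ℝ[X] →+* ℂ => f p) this

lemma ev_sig (w : ℝ) (p : ℝ[X]) : ev w (sig p) = star (ev w p) := by
  unfold ev
  rw [evz_sig]
  change _ = (starRingEnd ℂ) _
  rw [star_evz]
  simp

lemma sig_injective : Function.Injective sig := by
  intro a b h
  have := congrArg sig h
  simpa using this

lemma natDegree_sig (p : ℝ[X]) : (sig p).natDegree = p.natDegree := by
  change (p.comp (-X)).natDegree = _
  rw [natDegree_comp]; simp

lemma finite_ev_zero {p : ℝ[X]} (hp : p ≠ 0) : {w : ℝ | ev w p = 0}.Finite := by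
  have h1 : (p.map Complex.ofRealHom) ≠ 0 := by
    rwa [Ne, Polynomial.map_eq_zero_iff Complex.ofRealHom.injective]
  have h2 : {z : ℂ | (p.map Complex.ofRealHom).IsRoot z}.Finite := finite_setOfPred_isRoot h1
  have h3 : Function.Injective (fun w : ℝ => (w : ℂ) * Complex.I) := by
    intro a b h
    have := mul_right_cancel₀ Complex.I_ne_zero h
    exact_mod_cast this
  refine (h2.preimage h3.injOn).subset ?_
  intro w hw
  simp only [Set.mem_preimage, Set.mem_ofPred_eq, IsRoot.def]
  rw [← evz_eq]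
  exact hw

/-- A polynomial vanishing at `i w` whenever `g` does not vanish there is zero. -/
lemma eq_zero_of_ev {p g : ℝ[X]} (hg : g ≠ 0) (h : ∀ w : ℝ, ev w g ≠ 0 → ev w p = 0) : p = 0 := by
  by_contra hp
  have h1 : {w : ℝ | ev w (p * g) = 0}.Finite := finite_ev_zero (mul_ne_zero hp hg)
  have h2 : {w : ℝ | ev w (p * g) = 0} = Set.univ := by
    ext w
    simp only [map_mul, Set.mem_ofPred_eq, Set.mem_univ, iff_true, mul_eq_zero]
    by_cases hw : ev w g = 0
    · exact Or.inr hw
    · exact Or.inl (h w hw)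
  rw [h2] at h1
  exact Set.infinite_univ h1

lemma eq_of_ev {p q g : ℝ[X]} (hg : g ≠ 0) (h : ∀ w : ℝ, ev w g ≠ 0 → ev w p = ev w q) :
    p = q := by
  rw [← sub_eq_zero]
  apply eq_zero_of_ev hg
  intro w hw
  rw [map_sub, h w hw, sub_self]

lemma continuous_ev (p : ℝ[X]) : Continuous (fun w : ℝ => ev w p) := by
  have : (fun w : ℝ => ev w p) = fun w : ℝ => (p.map Complex.ofRealHom).eval ((w : ℂ) * Complex.I) := by
    funext w; exact evz_eq _ _
  rw [this]
  exact (p.map Complex.ofRealHom).continuous.comp (by fun_prop)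

lemma hasDerivAt_ev (p : ℝ[X]) (w : ℝ) :
    HasDerivAt (fun w : ℝ => ev w p) (ev w (derivative p) * Complex.I) w := by
  have h0 : (fun w : ℝ => ev w p) = fun w : ℝ => (p.map Complex.ofRealHom).eval ((w : ℂ) * Complex.I) := by
    funext w; exact evz_eq _ _
  rw [h0]
  have h1 := (p.map Complex.ofRealHom).hasDerivAt ((w : ℂ) * Complex.I)
  have h2 : HasDerivAt (fun t : ℝ => (t : ℂ) * Complex.I) Complex.I w := by
    have h3 : HasDerivAt (fun t : ℝ => (t : ℂ)) 1 w := Complex.ofRealCLM.hasDerivAt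
    simpa using h3.mul_const Complex.I
  have h4 := h1.comp w h2
  have h5 : (derivative (p.map Complex.ofRealHom)).eval ((w : ℂ) * Complex.I) = ev w (derivative p) := by
    rw [derivative_map]
    exact (evz_eq _ _).symm
  rw [h5] at h4
  exact h4

variable {n : ℕ}

/-- The adjoint of a real polynomial matrix with respect to `s ↦ -s`. -/
def st (M : Matrix (Fin n) (Fin n) ℝ[X]) : Matrix (Fin n) (Fin n) ℝ[X] := (M.map sig)ᵀ

lemma st_apply (M : Matrix (Fin n) (Fin n) ℝ[X]) (i j : Fin n) : st M i j = sig (M j i) := rfl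

@[simp] lemma st_st (M : Matrix (Fin n) (Fin n) ℝ[X]) : st (st M) = M := by
  ext i j; simp [st_apply]

lemma st_mul (M N : Matrix (Fin n) (Fin n) ℝ[X]) : st (M * N) = st N * st M := by
  unfold st
  rw [← Matrix.transpose_mul]
  congr 1
  exact Matrix.map_mul

lemma st_neg (M : Matrix (Fin n) (Fin n) ℝ[X]) : st (-M) = - st M := by
  ext i j; simp [st_apply]

lemma st_one : st (1 : Matrix (Fin n) (Fin n) ℝ[X]) = 1 := by
  ext i j
  rw [st_apply, Matrix.one_apply, Matrix.one_apply]
  split_ifs with h h' h' <;> simp_all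

lemma st_smul (a : ℝ[X]) (M : Matrix (Fin n) (Fin n) ℝ[X]) : st (a • M) = sig a • st M := by
  ext i j; simp [st_apply]

lemma det_st (M : Matrix (Fin n) (Fin n) ℝ[X]) : (st M).det = sig M.det := by
  unfold st
  rw [Matrix.det_transpose, RingHom.map_det]; rfl

/-- Evaluation of a matrix at `i w`. -/
def evM (w : ℝ) (M : Matrix (Fin n) (Fin n) ℝ[X]) : Matrix (Fin n) (Fin n) ℂ := M.map (ev w)

lemma evM_apply (w : ℝ) (M : Matrix (Fin n) (Fin n) ℝ[X]) (i j : Fin n) :
    evM w M i j = ev w (M i j) := rfl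

lemma evM_mul (w : ℝ) (M N : Matrix (Fin n) (Fin n) ℝ[X]) :
    evM w (M * N) = evM w M * evM w N := Matrix.map_mul

lemma evM_st (w : ℝ) (M : Matrix (Fin n) (Fin n) ℝ[X]) : evM w (st M) = (evM w M)ᴴ := by
  ext i j
  rw [evM_apply, st_apply, ev_sig, Matrix.conjTranspose_apply, evM_apply]

lemma evM_smul (w : ℝ) (a : ℝ[X]) (M : Matrix (Fin n) (Fin n) ℝ[X]) :
    evM w (a • M) = ev w a • evM w M := by
  ext i j; simp [evM_apply]

lemma evM_neg (w : ℝ) (M : Matrix (Fin n) (Fin n) ℝ[X]) : evM w (-M) = - evM w M := by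
  ext i j; simp [evM_apply]

lemma det_evM (w : ℝ) (M : Matrix (Fin n) (Fin n) ℝ[X]) : (evM w M).det = ev w M.det := by
  rw [RingHom.map_det]; rfl

lemma mat_eq_of_ev {M N : Matrix (Fin n) (Fin n) ℝ[X]} {g : ℝ[X]} (hg : g ≠ 0)
    (h : ∀ w : ℝ, ev w g ≠ 0 → evM w M = evM w N) : M = N := by
  ext1 i j
  apply eq_of_ev hg
  intro w hw
  exact congrFun (congrFun (h w hw) i) j

/-- Positive semidefinite at every point of the imaginary axis. -/
def Psd (M : Matrix (Fin n) (Fin n) ℝ[X]) : Prop := ∀ w : ℝ, (evM w M).PosSemidef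

lemma Psd.st_eq {M : Matrix (Fin n) (Fin n) ℝ[X]} (h : Psd M) : st M = M := by
  apply mat_eq_of_ev (g := 1) one_ne_zero
  intro w _
  rw [evM_st]
  exact (h w).1

lemma psd_of_cofinite {M : Matrix (Fin n) (Fin n) ℝ[X]} {g : ℝ[X]} (hg : g ≠ 0)
    (h : ∀ w : ℝ, ev w g ≠ 0 → (evM w M).PosSemidef) : Psd M := by
  have hdense : Dense {w : ℝ | ev w g ≠ 0} := by
    have h1 : {w : ℝ | ev w g ≠ 0} = {w : ℝ | ev w g = 0}ᶜ := by ext; simp
    rw [h1]
    exact (finite_ev_zero hg).countable.dense_compl ℝ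
  have hst : st M = M := by
    apply mat_eq_of_ev hg
    intro w hw
    rw [evM_st]
    exact (h w hw).1
  intro w
  apply Matrix.PosSemidef.of_dotProduct_mulVec_nonneg
  · change (evM w M)ᴴ = evM w M
    rw [← evM_st, hst]
  · intro x
    have hc : Continuous (fun w : ℝ => star x ⬝ᵥ (evM w M *ᵥ x)) := by
      simp only [dotProduct, mulVec, evM_apply]
      apply continuous_finsetSum
      intro i _
      apply Continuous.mul continuous_const
      apply continuous_finsetSum
      intro j _
      exact (continuous_ev _).mul continuous_const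
    have hcl : IsClosed {w : ℝ | 0 ≤ star x ⬝ᵥ (evM w M *ᵥ x)} := by
      have : {w : ℝ | 0 ≤ star x ⬝ᵥ (evM w M *ᵥ x)}
          = {w : ℝ | 0 ≤ (star x ⬝ᵥ (evM w M *ᵥ x)).re}
            ∩ {w : ℝ | (star x ⬝ᵥ (evM w M *ᵥ x)).im = 0} := by
        ext w
        simp only [Set.mem_ofPred_eq, Set.mem_inter_iff, Complex.le_def, Complex.zero_re,
          Complex.zero_im]
        constructor
        · rintro ⟨a, b⟩; exact ⟨a, b.symm⟩
        · rintro ⟨a, b⟩; exact ⟨a, b.symm⟩
      rw [this]
      exact (isClosed_le continuous_const (Complex.continuous_re.comp hc)).inter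
        (isClosed_eq (Complex.continuous_im.comp hc) continuous_const)
    have hsub : {w : ℝ | ev w g ≠ 0} ⊆ {w : ℝ | 0 ≤ star x ⬝ᵥ (evM w M *ᵥ x)} := by
      intro w hw
      exact (h w hw).dotProduct_mulVec_nonneg x
    have := hcl.closure_subset_iff.2 hsub
    rw [hdense.closure_eq] at this
    exact this (Set.mem_univ w)

/-- If a matrix positive semidefinite on the imaginary axis vanishes at a point there, so does its
derivative. -/
lemma Psd.deriv_zero {Z : Matrix (Fin n) (Fin n) ℝ[X]} (h : Psd Z) (w₀ : ℝ)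
    (h0 : ∀ i j, ev w₀ (Z i j) = 0) (i j : Fin n) : ev w₀ (derivative (Z i j)) = 0 := by
  let N : Matrix (Fin n) (Fin n) ℂ := fun i j => ev w₀ (derivative (Z i j)) * Complex.I
  have key : ∀ c : Fin n → ℂ, star c ⬝ᵥ (N *ᵥ c) = 0 := by
    intro c
    have hd : HasDerivAt (fun w : ℝ => star c ⬝ᵥ (evM w Z *ᵥ c)) (star c ⬝ᵥ (N *ᵥ c)) w₀ := by
      simp only [dotProduct, mulVec, evM_apply, N]
      apply HasDerivAt.fun_sum
      intro i _
      apply HasDerivAt.const_mul
      apply HasDerivAt.fun_sum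
      intro j _
      exact (hasDerivAt_ev _ _).mul_const _
    have hre : HasDerivAt (fun w : ℝ => (star c ⬝ᵥ (evM w Z *ᵥ c)).re)
        (star c ⬝ᵥ (N *ᵥ c)).re w₀ := by
      exact (Complex.reCLM.hasFDerivAt.comp_hasDerivAt w₀ hd)
    have him : HasDerivAt (fun w : ℝ => (star c ⬝ᵥ (evM w Z *ᵥ c)).im)
        (star c ⬝ᵥ (N *ᵥ c)).im w₀ := by
      exact (Complex.imCLM.hasFDerivAt.comp_hasDerivAt w₀ hd)
    have hzero : star c ⬝ᵥ (evM w₀ Z *ᵥ c) = 0 := by
      simp only [dotProduct, mulVec, evM_apply, h0]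
      simp
    apply Complex.ext
    · have hmin : IsLocalMin (fun w : ℝ => (star c ⬝ᵥ (evM w Z *ᵥ c)).re) w₀ := by
        apply Filter.Eventually.of_forall
        intro w
        simp only [hzero, Complex.zero_re]
        exact (Complex.le_def.1 ((h w).dotProduct_mulVec_nonneg c)).1
      simpa using hmin.hasDerivAt_eq_zero hre
    · have hconst : (fun w : ℝ => (star c ⬝ᵥ (evM w Z *ᵥ c)).im) = fun _ => 0 := by
        funext w
        exact (Complex.le_def.1 ((h w).dotProduct_mulVec_nonneg c)).2.symm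
      rw [hconst] at him
      simpa using him.unique (hasDerivAt_const w₀ (0 : ℝ))
  -- polarization
  have hN : N i j = 0 := by
    have e1 : ∀ a b : ℂ, ∀ k l : Fin n,
        star (Pi.single k a + Pi.single l b : Fin n → ℂ) ⬝ᵥ
          (N *ᵥ (Pi.single k a + Pi.single l b))
        = star a * N k k * a + star a * N k l * b + star b * N l k * a + star b * N l l * b := by
      intro a b k l
      rw [star_add, add_dotProduct, mulVec_add, dotProduct_add, dotProduct_add]
      simp only [Pi.star_single, single_dotProduct, mulVec_single, Matrix.col_apply,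
        Pi.smul_apply, MulOpposite.smul_eq_mul_unop, MulOpposite.unop_op]
      ring
    have h1 := key (Pi.single i 1 + Pi.single j 1)
    have h2 := key (Pi.single i 1 + Pi.single j Complex.I)
    have h3 := key (Pi.single i 1 + Pi.single j 0)
    have h4 := key (Pi.single i 0 + Pi.single j 1)
    rw [e1] at h1 h2 h3 h4
    simp only [star_one, star_zero, one_mul, mul_one, mul_zero, zero_mul, add_zero, zero_add]
      at h1 h2 h3 h4
    have hI : star Complex.I = -Complex.I := Complex.conj_I
    rw [hI] at h2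
    have hII : Complex.I * Complex.I = -1 := Complex.I_mul_I
    linear_combination (1 / 2) * h1 - (Complex.I / 2) * h2
      + (-1 / 2 + Complex.I / 2) * h3 + (-1 / 2 + Complex.I / 2) * h4
      + ((N i j) / 2 - (N j i) / 2 - (Complex.I / 2) * N j j) * hII
  have : ev w₀ (derivative (Z i j)) * Complex.I = 0 := hN
  rcases mul_eq_zero.1 this with h | h
  · exact h
  · exact absurd h Complex.I_ne_zero

end

end Pool.Agent.H741R3.Skew
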