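import Pool.Agent.H741R3.Skew1

/-!
Enlargement step: from a nonunimodular pair `(H, X)` to one with smaller determinant degree.
-/

open Polynomial Matrix
open scoped ComplexOrder

namespace Pool.Agent.H741R3.Skew

noncomputable section

variable {n : ℕ}

/-- A pair `(H, X)`: `H` is positive semidefinite on the imaginary axis, nonsingular, `X` is
skew-adjoint for `H` and has characteristic polynomial `P`. -/
structure Good (P : ℝ[X][X]) (H X : Matrix (Fin n) (Fin n) ℝ[X]) : Prop where
  psd : Psd H
  det_ne : H.det ≠ 0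
  skew : H * X = -(st X * H)
  char : X.charpoly = P

/-- A real polynomial vanishing at a complex root of an irreducible one is a multiple of it. -/
lemma dvd_of_root {q p : ℝ[X]} (hq : Irreducible q) {z : ℂ} (hz : evz z q = 0)
    (hp : evz z p = 0) : q ∣ p := by
  by_contra h
  obtain ⟨a, b, hab⟩ := (hq.coprime_iff_not_dvd).2 h
  have := congrArg (evz z) hab
  rw [map_add, map_mul, map_mul, hz, hp, map_one] at this
  simp at this

lemma exists_root {q : ℝ[X]} (hq : Irreducible q) : ∃ z : ℂ, evz z q = 0 := by
  have h1 : (q.map Complex.ofRealHom).degree ≠ 0 := by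
    rw [degree_map]
    exact (degree_pos_of_irreducible hq).ne'
  obtain ⟨z, hz⟩ := IsAlgClosed.exists_root _ h1
  exact ⟨z, by rw [evz_eq]; exact hz⟩

lemma exists_imag_root {q : ℝ[X]} (hq : Irreducible q) (h : q ∣ sig q) :
    ∃ w : ℝ, ev w q = 0 := by
  obtain ⟨z, hz⟩ := exists_root hq
  have h1 : evz (-z) q = 0 := by
    rw [← evz_sig]
    obtain ⟨c, hc⟩ := h
    rw [hc, map_mul, hz, zero_mul]
  let r : ℝ[X] := X ^ 2 - C (2 * z.re) * X + C (z.re ^ 2 + z.im ^ 2)
  have hr : ∀ u : ℂ, evz u r = (u - z) * (u - (starRingEnd ℂ) z) := by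
    intro u
    change evz u (X ^ 2 - C (2 * z.re) * X + C (z.re ^ 2 + z.im ^ 2)) = _
    rw [map_add, map_sub, map_pow, map_mul, evz_X, evz_C, evz_C]
    have e1 : ((2 * z.re : ℝ) : ℂ) = z + (starRingEnd ℂ) z := by
      rw [Complex.add_conj]
    have e2 : ((z.re ^ 2 + z.im ^ 2 : ℝ) : ℂ) = z * (starRingEnd ℂ) z := by
      rw [Complex.mul_conj, Complex.normSq_apply]; push_cast; ring
    rw [e1, e2]
    ring
  have hrz : evz z r = 0 := by rw [hr]; simp
  obtain ⟨c, hc⟩ := dvd_of_root hq hz hrz
  have h2 : evz (-z) r = 0 := by rw [hc, map_mul, h1, zero_mul]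
  rw [hr] at h2
  refine ⟨z.im, ?_⟩
  unfold ev
  have hz' : (z.im : ℂ) * Complex.I = z := by
    rcases mul_eq_zero.1 h2 with h3 | h3
    · have : z = 0 := by linear_combination (-1 / 2) * h3
      rw [this]; simp
    · have h4 := congrArg Complex.re h3
      simp at h4
      apply Complex.ext
      · simp; linarith
      · simp
  rw [hz']
  exact hz

/-- Conjugate matrices over a domain have the same characteristic polynomial. -/
lemma charpoly_eq_of_conj {X X' T : Matrix (Fin n) (Fin n) ℝ[X]} (hT : T.det ≠ 0)
    (h : X * T = T * X') : X'.charpoly = X.charpoly := by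
  have h1 : charmatrix X * (T.map C) = (T.map C) * charmatrix X' := by
    unfold charmatrix
    rw [sub_mul, mul_sub]
    congr 1
    · exact (Matrix.scalar_commute _ (fun _ => Commute.all _ _) _).eq
    · have e1 : (C.mapMatrix X) * T.map C = (X * T).map C := by
        rw [Matrix.map_mul]; rfl
      have e2 : T.map C * (C.mapMatrix X') = (T * X').map C := by
        rw [Matrix.map_mul]; rfl
      rw [e1, e2, h]
  have h2 := congrArg Matrix.det h1
  rw [Matrix.det_mul, Matrix.det_mul] at h2
  have h3 : (T.map C).det ≠ 0 := by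
    have : (T.map C).det = C T.det := by rw [RingHom.map_det]; rfl
    rw [this]
    exact C_ne_zero.2 hT
  have h4 : (T.map C).det * X'.charpoly = (T.map C).det * X.charpoly := by
    unfold Matrix.charpoly
    rw [← h2]; ring
  exact mul_left_cancel₀ h3 h4

/-- A matrix whose columns form a basis of `{v | H v ≡ 0 mod q}`. -/
lemma exists_lattice_basis (H : Matrix (Fin n) (Fin n) ℝ[X]) {q : ℝ[X]} (hq0 : q ≠ 0) :
    ∃ T : Matrix (Fin n) (Fin n) ℝ[X], (∀ i j, q ∣ (H * T) i j) ∧
      ∀ v : Fin n → ℝ[X], (∀ i, q ∣ (H *ᵥ v) i) → ∃ c : Fin n → ℝ[X], T *ᵥ c = v := by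
  let L : Submodule ℝ[X] (Fin n → ℝ[X]) :=
    { carrier := {v | ∀ i, q ∣ (H *ᵥ v) i}
      add_mem' := by
        intro a b ha hb i
        rw [mulVec_add]
        exact dvd_add (ha i) (hb i)
      zero_mem' := by
        intro i
        rw [mulVec_zero]
        exact dvd_zero _
      smul_mem' := by
        intro c a ha i
        rw [mulVec_smul]
        exact (ha i).mul_left c }
  have qmem : ∀ v : Fin n → ℝ[X], q • v ∈ L := by
    intro v i
    rw [mulVec_smul]
    exact Dvd.intro _ rfl
  have memL : ∀ v, v ∈ L → ∀ i, q ∣ (H *ᵥ v) i := fun v hv => hv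
  have memL' : ∀ v, (∀ i, q ∣ (H *ᵥ v) i) → v ∈ L := fun v hv => hv
  clear_value L
  have hrank : Module.finrank ℝ[X] L = n := by
    apply le_antisymm
    · have := Submodule.finrank_le L
      simpa using this
    · let φ : (Fin n → ℝ[X]) →ₗ[ℝ[X]] L :=
        LinearMap.codRestrict L (q • LinearMap.id) (by
          intro v
          rw [LinearMap.smul_apply, LinearMap.id_apply]
          exact qmem v)
      have hφ : Function.Injective φ := by
        intro a b hab
        have h1 := congrArg (fun x : L => (x : Fin n → ℝ[X])) hab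
        simp only [φ, LinearMap.codRestrict_apply, LinearMap.smul_apply, LinearMap.id_apply] at h1
        exact smul_right_injective _ hq0 h1
      have := LinearMap.finrank_le_finrank_of_injective hφ
      simpa using this
  obtain ⟨b⟩ : Nonempty (Module.Basis (Fin n) ℝ[X] L) :=
    ⟨Module.finBasisOfFinrankEq ℝ[X] L hrank⟩
  refine ⟨Matrix.of fun i j => ((b j : L) : Fin n → ℝ[X]) i, ?_, ?_⟩
  · intro i j
    have h1 : (H * Matrix.of fun i j => ((b j : L) : Fin n → ℝ[X]) i) i j
        = (H *ᵥ ((b j : L) : Fin n → ℝ[X])) i := by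
      rw [Matrix.mul_apply]
      simp only [mulVec, dotProduct, Matrix.of_apply]
    rw [h1]
    exact memL _ (b j).2 i
  intro v hv
  refine ⟨b.repr ⟨v, memL' v hv⟩, ?_⟩
  have h1 := b.sum_repr ⟨v, memL' v hv⟩
  have h2 := congrArg (fun x : L => (x : Fin n → ℝ[X])) h1
  simp only [AddSubmonoidClass.coe_finsetSum, SetLike.val_smul] at h2
  funext i
  have h3 := congrFun h2 i
  rw [Finset.sum_apply] at h3
  rw [← h3]
  simp only [mulVec, dotProduct, Matrix.of_apply]
  apply Finset.sum_congr rfl
  intro j _
  rw [Pi.smul_apply, smul_eq_mul, mul_comm]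

/-- The enlargement step. -/
theorem Good.step {P : ℝ[X][X]} {H X : Matrix (Fin n) (Fin n) ℝ[X]} (hg : Good P H X)
    (hdeg : 0 < H.det.natDegree) :
    ∃ H' X' : Matrix (Fin n) (Fin n) ℝ[X], Good P H' X' ∧ H'.det.natDegree < H.det.natDegree := by
  have hst : st H = H := hg.psd.st_eq
  have hunit : ¬ IsUnit H.det := by
    intro h
    have := natDegree_eq_zero_of_isUnit h
    omega
  obtain ⟨q, hq, hqd⟩ := WfDvdMonoid.exists_irreducible_factor hunit hg.det_ne
  have hq0 : q ≠ 0 := hq.ne_zero
  obtain ⟨T, hHT, hTL⟩ := exists_lattice_basis H hq0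
  have qmem : ∀ v : Fin n → ℝ[X], ∀ i, q ∣ (H *ᵥ (q • v)) i := by
    intro v i
    rw [mulVec_smul]
    exact Dvd.intro _ rfl
  -- matrices N and X'
  have hN : ∃ N : Matrix (Fin n) (Fin n) ℝ[X], T * N = q • (1 : Matrix (Fin n) (Fin n) ℝ[X]) := by
    choose c hc using fun j : Fin n => hTL (q • (Pi.single j 1)) (qmem _)
    refine ⟨Matrix.of fun i j => c j i, ?_⟩
    ext1 i j
    have := congrFun (hc j) i
    rw [Matrix.mul_apply]
    simp only [mulVec, dotProduct] at this
    simp only [Matrix.of_apply]
    rw [this]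
    simp [Matrix.one_apply, Pi.single_apply]
  obtain ⟨N, hTN⟩ := hN
  have hX' : ∃ X' : Matrix (Fin n) (Fin n) ℝ[X], T * X' = X * T := by
    have hmem : ∀ j : Fin n, ∀ i, q ∣ (H *ᵥ (fun i => (X * T) i j)) i := by
      intro j i
      have e : (H *ᵥ fun i => (X * T) i j) i = (H * (X * T)) i j := rfl
      rw [e, ← Matrix.mul_assoc, hg.skew, Matrix.neg_mul, Matrix.mul_assoc, Matrix.neg_apply,
        dvd_neg, Matrix.mul_apply]
      exact Finset.dvd_sum fun k _ => (hHT k j).mul_left _
    choose c hc using fun j : Fin n => hTL _ (hmem j)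
    refine ⟨Matrix.of fun i j => c j i, ?_⟩
    ext1 i j
    have := congrFun (hc j) i
    rw [Matrix.mul_apply]
    simp only [mulVec, dotProduct] at this
    simp only [Matrix.of_apply]
    exact this
  obtain ⟨X', hX'⟩ := hX'
  have hdet : T.det * N.det = q ^ n := by
    rw [← Matrix.det_mul, hTN, Matrix.det_smul]; simp
  have hTdet : T.det ≠ 0 := by
    intro h
    rw [h, zero_mul] at hdet
    exact pow_ne_zero n hq0 hdet.symm
  have hNdet : N.det ≠ 0 := by
    intro h
    rw [h, mul_zero] at hdet
    exact pow_ne_zero n hq0 hdet.symm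
  -- cancellation by T
  have hcancel : ∀ A B : Matrix (Fin n) (Fin n) ℝ[X], T * A = T * B → A = B := by
    intro A B h
    have h1 : T.adjugate * (T * A) = T.adjugate * (T * B) := by rw [h]
    rw [← Matrix.mul_assoc, ← Matrix.mul_assoc, Matrix.adjugate_mul, Matrix.smul_mul,
      Matrix.smul_mul, Matrix.one_mul, Matrix.one_mul] at h1
    exact smul_right_injective _ hTdet h1
  have hNT : N * T = q • (1 : Matrix (Fin n) (Fin n) ℝ[X]) := by
    apply hcancel
    rw [← Matrix.mul_assoc, hTN, Matrix.smul_mul, Matrix.one_mul, Matrix.mul_smul, Matrix.mul_one]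
  -- the Gram matrix of L
  let Z : Matrix (Fin n) (Fin n) ℝ[X] := st T * H * T
  have hZpsd : Psd Z := by
    intro w
    change (evM w (st T * H * T)).PosSemidef
    rw [evM_mul, evM_mul, evM_st]
    exact (hg.psd w).conjTranspose_mul_mul_same _
  have hZst : st Z = Z := hZpsd.st_eq
  have hZq : ∀ i j, q ∣ Z i j := by
    intro i j
    change q ∣ (st T * H * T) i j
    rw [Matrix.mul_assoc, Matrix.mul_apply]
    exact Finset.dvd_sum fun k _ => (hHT k j).mul_left _
  have hZsq : ∀ i j, sig q ∣ Z i j := by
    intro i j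
    have h1 : Z i j = sig (Z j i) := by
      conv_lhs => rw [← hZst]
      rfl
    rw [h1]
    exact map_dvd sig (hZq j i)
  have hZqq : ∀ i j, q * sig q ∣ Z i j := by
    intro i j
    by_cases hc : q ∣ sig q
    · have hc' : sig q ∣ q := by
        have := map_dvd sig hc
        rwa [sig_sig] at this
      obtain ⟨w₀, hw₀⟩ := exists_imag_root hq hc
      have hz : ∀ i j, ev w₀ (Z i j) = 0 := by
        intro i j
        obtain ⟨c, hc⟩ := hZq i j
        rw [hc, map_mul, hw₀, zero_mul]
      have hd := hZpsd.deriv_zero w₀ hz i j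
      have hdq : q ∣ derivative (Z i j) := dvd_of_root hq hw₀ hd
      obtain ⟨g, hg'⟩ := hZq i j
      rw [hg', derivative_mul] at hdq
      have h2 : q ∣ derivative q * g := by
        have h3 : q ∣ q * derivative g := Dvd.intro _ rfl
        exact (dvd_add_left h3).1 hdq
      have h4 : q ∣ g := by
        rcases hq.prime.dvd_or_dvd h2 with h | h
        · exfalso
          have hpos : 0 < q.natDegree := Irreducible.natDegree_pos hq
          have hne : derivative q ≠ 0 := by
            intro h0
            have := Polynomial.derivative_eq_zero.1 h0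
            omega
          have := natDegree_le_of_dvd h hne
          have h5 := natDegree_derivative_lt hpos.ne'
          omega
        · exact h
      rw [hg']
      exact mul_dvd_mul_left q (hc'.trans h4)
    · have hcop : IsCoprime q (sig q) := (hq.coprime_iff_not_dvd).2 hc
      exact hcop.mul_dvd (hZq i j) (hZsq i j)
  choose H'' hH'' using hZqq
  let H' : Matrix (Fin n) (Fin n) ℝ[X] := Matrix.of H''
  have hsq0 : sig q ≠ 0 := by
    intro h
    apply hq0
    have := congrArg sig h
    simpa using this
  have hqq0 : q * sig q ≠ 0 := mul_ne_zero hq0 hsq0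
  have hZH' : Z = (q * sig q) • H' := by
    ext1 i j
    rw [hH'' i j]; rfl
  have hHH' : H = st N * H' * N := by
    have h1 : (q * sig q) • (st N * H' * N) = (q * sig q) • H := by
      calc (q * sig q) • (st N * H' * N) = st N * ((q * sig q) • H') * N := by
            rw [Matrix.mul_smul, Matrix.smul_mul]
        _ = st N * (st T * H * T) * N := by rw [← hZH']
        _ = (st N * st T) * H * (T * N) := by simp only [Matrix.mul_assoc]
        _ = st (T * N) * H * (T * N) := by rw [st_mul]
        _ = (q * sig q) • H := by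
            rw [hTN, st_smul, st_one, Matrix.smul_mul, Matrix.one_mul, Matrix.smul_mul,
              Matrix.mul_smul, Matrix.mul_one, smul_smul, mul_comm]
    exact (smul_right_injective _ hqq0 h1).symm
  have hdetH : H.det = sig N.det * H'.det * N.det := by
    conv_lhs => rw [hHH']
    rw [Matrix.det_mul, Matrix.det_mul, det_st]
  have hH'det : H'.det ≠ 0 := by
    intro h
    apply hg.det_ne
    rw [hdetH, h]; simp
  refine ⟨H', X', ⟨?_, hH'det, ?_, ?_⟩, ?_⟩
  · -- psd
    apply psd_of_cofinite hq0
    intro w hw
    have h1 : evM w Z = (ev w q * star (ev w q)) • evM w H' := by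
      rw [hZH', evM_smul, map_mul, ev_sig]
    have h2 : evM w H' = (((Complex.normSq (ev w q))⁻¹ : ℝ) : ℂ) • evM w Z := by
      rw [h1, smul_smul]
      have h3 : ev w q * star (ev w q) = ((Complex.normSq (ev w q) : ℝ) : ℂ) :=
        Complex.mul_conj _
      have h4 : ((Complex.normSq (ev w q) : ℝ) : ℂ) ≠ 0 := by
        rw [Complex.ofReal_ne_zero, Ne, Complex.normSq_eq_zero]
        exact hw
      rw [h3, Complex.ofReal_inv, inv_mul_cancel₀ h4, one_smul]
    rw [h2]
    apply (hZpsd w).smul
    rw [Complex.le_def]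
    constructor
    · simp only [Complex.zero_re, Complex.ofReal_re]
      exact inv_nonneg.2 (Complex.normSq_nonneg _)
    · simp
  · -- skew
    have h1 : (q * sig q) • (H' * X') = (q * sig q) • (-(st X' * H')) := by
      calc (q * sig q) • (H' * X') = Z * X' := by rw [hZH', Matrix.smul_mul]
        _ = st T * (H * X) * T := by
            change st T * H * T * X' = _
            rw [Matrix.mul_assoc (st T * H) T X', hX']
            simp only [Matrix.mul_assoc]
        _ = -(st T * st X * H * T) := by
            rw [hg.skew]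
            simp only [Matrix.mul_neg, Matrix.neg_mul, Matrix.mul_assoc]
        _ = -(st (X * T) * H * T) := by rw [st_mul]
        _ = -(st X' * Z) := by
            rw [← hX', st_mul]
            simp only [Z, Matrix.mul_assoc]
        _ = (q * sig q) • (-(st X' * H')) := by
            rw [hZH', Matrix.mul_smul, smul_neg]
    exact smul_right_injective _ hqq0 h1
  · -- char
    rw [← hg.char]
    exact charpoly_eq_of_conj hTdet hX'.symm
  · -- degree
    have hNpos : 0 < N.det.natDegree := by
      by_contra hcon
      have hN0 : N.det.natDegree = 0 := by omega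
      have hNu : IsUnit N.det := by
        rw [natDegree_eq_zero] at hN0
        obtain ⟨c, hc⟩ := hN0
        rw [← hc]
        apply isUnit_C.2
        apply isUnit_iff_ne_zero.2
        intro h0
        rw [h0, C_0] at hc
        exact hNdet hc.symm
      -- every vector of L is divisible by q
      have hL : ∀ v : Fin n → ℝ[X], (∀ i, q ∣ (H *ᵥ v) i) → ∀ i, q ∣ v i := by
        intro v hv
        obtain ⟨c, hc⟩ := hTL v hv
        have h1 : N *ᵥ v = q • c := by
          rw [← hc, mulVec_mulVec, hNT, smul_mulVec, one_mulVec]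
        have h2 : v = N⁻¹ *ᵥ (q • c) := by
          rw [← h1, mulVec_mulVec, Matrix.nonsing_inv_mul _ hNu, one_mulVec]
        intro i
        rw [h2, mulVec_smul]
        exact Dvd.intro _ rfl
      -- but H is singular modulo q
      have : (Ideal.span {q}).IsPrime := (Ideal.span_singleton_prime hq0).2 hq.prime
      let mk : ℝ[X] →+* ℝ[X] ⧸ Ideal.span {q} := Ideal.Quotient.mk _
      have hdet0 : (H.map mk).det = 0 := by
        have : (H.map mk).det = mk H.det := by rw [RingHom.map_det]; rfl
        rw [this]
        exact Ideal.Quotient.eq_zero_iff_mem.2 (Ideal.mem_span_singleton.2 hqd)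
      obtain ⟨v, hv0, hv⟩ := (Matrix.exists_mulVec_eq_zero_iff (M := H.map mk)).2 hdet0
      choose u hu using fun i => Ideal.Quotient.mk_surjective (I := Ideal.span {q}) (v i)
      have huL : ∀ i, q ∣ (H *ᵥ u) i := by
        intro i
        rw [← Ideal.mem_span_singleton, ← Ideal.Quotient.eq_zero_iff_mem]
        have h1 := congrFun hv i
        have h2 : Ideal.Quotient.mk (Ideal.span {q}) ((H *ᵥ u) i) = ((H.map mk) *ᵥ v) i := by
          simp only [mulVec, dotProduct, map_sum, map_mul, Matrix.map_apply]
          apply Finset.sum_congr rfl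
          intro j _
          rw [← hu j]
        rw [h2, h1]; rfl
      apply hv0
      funext i
      rw [← hu i]
      exact Ideal.Quotient.eq_zero_iff_mem.2 (Ideal.mem_span_singleton.2 (hL u huL i))
    have h1 : sig N.det ≠ 0 := by
      intro h
      apply hNdet
      have := congrArg sig h
      simpa using this
    rw [hdetH, natDegree_mul (mul_ne_zero h1 hH'det) hNdet, natDegree_mul h1 hH'det]
    omega

/-- There is a pair with unit determinant. -/
theorem Good.exists_unimodular {P : ℝ[X][X]} {H X : Matrix (Fin n) (Fin n) ℝ[X]}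
    (hg : Good P H X) : ∃ H' X' : Matrix (Fin n) (Fin n) ℝ[X],
      Good P H' X' ∧ H'.det.natDegree = 0 := by
  induction hk : H.det.natDegree using Nat.strong_induction_on generalizing H X with
  | _ k ih =>
    rcases Nat.eq_zero_or_pos k with h | h
    · exact ⟨H, X, hg, by omega⟩
    · obtain ⟨H', X', hg', hlt⟩ := hg.step (by omega)
      exact ih _ (by omega) hg' rfl

end

end Pool.Agent.H741R3.Skew
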