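import Pool.Agent.H741R3.Skew2

/-!
Reduction of a unimodular pair `(H, X)` to `H = 1`.
-/

open Polynomial Matrix Filter Topology
open scoped ComplexOrder

namespace Pool.Agent.H741R3.Skew

noncomputable section

variable {n : ℕ}

lemma coeff_sig (p : ℝ[X]) (k : ℕ) : (sig p).coeff k = (-1) ^ k * p.coeff k := by
  induction p using Polynomial.induction_on' with
  | add p q hp hq => rw [map_add, coeff_add, coeff_add, hp, hq]; ring
  | monomial m a =>
    rw [← C_mul_X_pow_eq_monomial, map_mul, map_pow, sig_C, sig_X, neg_pow]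
    rw [← mul_assoc, mul_comm (C a), mul_assoc, ← C_1, ← C_neg, ← C_pow, coeff_C_mul]
    rw [coeff_C_mul, coeff_X_pow]
    split_ifs with h
    · subst h; ring
    · ring

/-- Growth of a real polynomial along the imaginary axis. -/
lemma tendsto_ev_div (p : ℝ[X]) (k : ℕ) (hk : p.natDegree ≤ k) :
    Tendsto (fun w : ℝ => ev w p / ((w : ℂ) * Complex.I) ^ k) atTop (𝓝 (p.coeff k : ℂ)) := by
  have hz : Tendsto (fun w : ℝ => ((w : ℂ) * Complex.I)⁻¹) atTop (𝓝 0) := by
    have h1 : Tendsto (fun w : ℝ => ((w⁻¹ : ℝ) : ℂ) * Complex.I⁻¹) atTop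
        (𝓝 (((0 : ℝ) : ℂ) * Complex.I⁻¹)) :=
      ((Complex.continuous_ofReal.tendsto 0).comp tendsto_inv_atTop_zero).mul_const _
    simp only [Complex.ofReal_zero, zero_mul] at h1
    refine h1.congr ?_
    intro w
    rw [mul_inv]; push_cast; rfl
  have hcont : Continuous (fun u : ℂ => ∑ i ∈ Finset.range (k + 1), (p.coeff i : ℂ) * u ^ (k - i)) := by
    fun_prop
  have h2 := (hcont.tendsto 0).comp hz
  have h3 : (∑ i ∈ Finset.range (k + 1), (p.coeff i : ℂ) * (0 : ℂ) ^ (k - i)) = p.coeff k := by
    rw [Finset.sum_eq_single k]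
    · simp
    · intro i hi hik
      have : k - i ≠ 0 := by
        have := Finset.mem_range.1 hi
        omega
      rw [zero_pow this, mul_zero]
    · intro h; exact absurd (Finset.mem_range.2 (Nat.lt_succ_self k)) h
  rw [h3] at h2
  refine h2.congr' ?_
  filter_upwards [eventually_gt_atTop 0] with w hw
  have hw0 : ((w : ℂ) * Complex.I) ≠ 0 :=
    mul_ne_zero (by exact_mod_cast hw.ne') Complex.I_ne_zero
  have hev : ev w p = ∑ i ∈ Finset.range (k + 1), (p.coeff i : ℂ) * ((w : ℂ) * Complex.I) ^ i := by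
    unfold ev
    rw [evz_eq, eval_eq_sum_range' (n := k + 1)]
    · simp
    · rw [natDegree_map]; omega
  simp only [Function.comp_apply]
  rw [hev, Finset.sum_div]
  apply Finset.sum_congr rfl
  intro i hi
  have hik : i ≤ k := by
    have := Finset.mem_range.1 hi
    omega
  rw [inv_pow, mul_div_assoc]
  congr 1
  rw [eq_div_iff (pow_ne_zero _ hw0), inv_mul_eq_div, div_eq_iff (pow_ne_zero _ hw0), ← pow_add]
  congr 1
  omega

lemma tendsto_norm_ev_div (p : ℝ[X]) (k : ℕ) (hk : p.natDegree ≤ k) :
    Tendsto (fun w : ℝ => ‖ev w p‖ / w ^ k) atTop (𝓝 |p.coeff k|) := by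
  have h := (tendsto_ev_div p k hk).norm
  have h1 : ‖(p.coeff k : ℂ)‖ = |p.coeff k| := by
    rw [Complex.norm_real]; rfl
  rw [h1] at h
  refine h.congr' ?_
  filter_upwards [eventually_gt_atTop 0] with w hw
  rw [norm_div, norm_pow, norm_mul, Complex.norm_I, mul_one, Complex.norm_real, Real.norm_eq_abs,
    abs_of_pos hw]

/-- Degree comparison from growth. -/
lemma natDegree_le_of_growth {a b : ℝ[X]} (h : ∀ w : ℝ, ‖ev w a‖ ^ 2 ≤ ‖ev w b‖) (k : ℕ)
    (hb : b.natDegree ≤ 2 * k) : a.natDegree ≤ k := by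
  by_contra hcon
  push Not at hcon
  set m := a.natDegree with hm
  have ha0 : a ≠ 0 := by
    intro h0
    rw [h0, natDegree_zero] at hm
    omega
  have h1 := (tendsto_norm_ev_div a m le_rfl).pow 2
  have h2 := tendsto_norm_ev_div b (2 * m) (by omega)
  have h3 : b.coeff (2 * m) = 0 := coeff_eq_zero_of_natDegree_lt (by omega)
  rw [h3, abs_zero] at h2
  have h4 : |a.coeff m| ^ 2 ≤ 0 := by
    apply le_of_tendsto_of_tendsto h1 h2
    filter_upwards [eventually_gt_atTop 0] with w hw
    rw [div_pow, ← pow_mul, mul_comm m 2]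
    exact div_le_div_of_nonneg_right (h w) (pow_nonneg hw.le _)
  have h5 : a.coeff m ≠ 0 := by
    rw [hm]; exact leadingCoeff_ne_zero.2 ha0
  have h6 : 0 < |a.coeff m| ^ 2 := pow_pos (abs_pos.2 h5) 2
  linarith

/-- Cauchy–Schwarz for the entries of a positive semidefinite matrix. -/
lemma psd_entry {M : Matrix (Fin n) (Fin n) ℂ} (h : M.PosSemidef) (i j : Fin n) :
    ‖M i j‖ ^ 2 ≤ ‖M i i‖ * ‖M j j‖ := by
  have h1 := (h.submatrix (![i, j] : Fin 2 → Fin n)).det_nonneg
  rw [Matrix.det_fin_two] at h1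
  simp only [Matrix.submatrix_apply, Matrix.cons_val_zero, Matrix.cons_val_one] at h1
  have h2 : M j i = star (M i j) := by
    have := congrFun (congrFun h.1 j) i
    rw [Matrix.conjTranspose_apply] at this
    exact this.symm
  rw [h2] at h1
  have h3 : M i j * star (M i j) = ((‖M i j‖ ^ 2 : ℝ) : ℂ) := by
    have := Complex.mul_conj (M i j)
    rw [Complex.normSq_eq_norm_sq] at this
    exact this
  rw [h3] at h1
  have h4 : ∀ k, M k k = ((‖M k k‖ : ℝ) : ℂ) := by
    intro k
    have h5 := h.diag_nonneg (i := k)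
    exact Complex.eq_coe_norm_of_nonneg h5
  rw [h4 i, h4 j] at h1
  have h6 : ((0 : ℝ) : ℂ) ≤ ((‖M i i‖ * ‖M j j‖ - ‖M i j‖ ^ 2 : ℝ) : ℂ) := by
    push_cast
    push_cast at h1
    exact h1
  have h7 := Complex.real_le_real.1 h6
  linarith

lemma Psd.entry {H : Matrix (Fin n) (Fin n) ℝ[X]} (h : Psd H) (i j : Fin n) (w : ℝ) :
    ‖ev w (H i j)‖ ^ 2 ≤ ‖ev w (H i i * H j j)‖ := by
  rw [map_mul, norm_mul]
  exact psd_entry (h w) i j

lemma Psd.det_zero_of_diag {H : Matrix (Fin n) (Fin n) ℝ[X]} (h : Psd H) {j : Fin n}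
    (hj : H j j = 0) : H.det = 0 := by
  apply Matrix.det_eq_zero_of_column_eq_zero j
  intro i
  apply eq_zero_of_ev (g := 1) one_ne_zero
  intro w _
  have h1 := h.entry i j w
  rw [hj, mul_zero, map_zero, norm_zero] at h1
  have h2 : ‖ev w (H i j)‖ ^ 2 = 0 := le_antisymm h1 (sq_nonneg _)
  exact norm_eq_zero.1 (pow_eq_zero_iff (two_ne_zero) |>.1 h2)

/-- Change of basis by an invertible matrix. -/
lemma Good.conj {P : ℝ[X][X]} {H X : Matrix (Fin n) (Fin n) ℝ[X]} (hg : Good P H X)
    {E : Matrix (Fin n) (Fin n) ℝ[X]} (hE : IsUnit E.det) :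
    Good P (st E * H * E) (E⁻¹ * X * E) := by
  have hE0 : E.det ≠ 0 := hE.ne_zero
  have hEE : E * E⁻¹ = 1 := Matrix.mul_nonsing_inv _ hE
  refine ⟨?_, ?_, ?_, ?_⟩
  · intro w
    rw [evM_mul, evM_mul, evM_st]
    exact (hg.psd w).conjTranspose_mul_mul_same _
  · rw [Matrix.det_mul, Matrix.det_mul, det_st]
    refine mul_ne_zero (mul_ne_zero ?_ hg.det_ne) hE0
    intro h
    apply hE0
    have := congrArg sig h
    simpa using this
  · have h1 : st (E⁻¹) * st E = 1 := by rw [← st_mul, hEE, st_one]
    calc st E * H * E * (E⁻¹ * X * E) = st E * H * (E * E⁻¹) * X * E := by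
          simp only [Matrix.mul_assoc]
      _ = st E * (H * X) * E := by rw [hEE, Matrix.mul_one]; simp only [Matrix.mul_assoc]
      _ = -(st E * st X * (H * E)) := by
          rw [hg.skew]; simp only [Matrix.mul_neg, Matrix.neg_mul, Matrix.mul_assoc]
      _ = -(st E * st X * (st (E⁻¹) * st E) * (H * E)) := by rw [h1, Matrix.mul_one]
      _ = -(st (E⁻¹ * X * E) * (st E * H * E)) := by
          rw [st_mul, st_mul]; simp only [Matrix.mul_assoc]
  · rw [← hg.char]
    apply charpoly_eq_of_conj hE0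
    rw [← Matrix.mul_assoc, ← Matrix.mul_assoc, hEE, Matrix.one_mul]

lemma even_natDegree {p : ℝ[X]} (h : sig p = p) : Even p.natDegree := by
  by_cases hp : p = 0
  · subst hp; simp
  have h1 := coeff_sig p p.natDegree
  rw [h] at h1
  have h2 : p.coeff p.natDegree ≠ 0 := leadingCoeff_ne_zero.2 hp
  by_contra hodd
  rw [Nat.not_even_iff_odd] at hodd
  rw [hodd.neg_one_pow] at h1
  apply h2
  linarith

/-- One reduction step. -/
theorem Good.reduce_step {P : ℝ[X][X]} {H X : Matrix (Fin n) (Fin n) ℝ[X]} (hg : Good P H X)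
    (hdet : H.det.natDegree = 0) (hsum : 0 < ∑ j, (H j j).natDegree) :
    ∃ H' X' : Matrix (Fin n) (Fin n) ℝ[X], Good P H' X' ∧ H'.det.natDegree = 0 ∧
      ∑ j, (H' j j).natDegree < ∑ j, (H j j).natDegree := by
  have hst : st H = H := hg.psd.st_eq
  have hsig : ∀ i j, sig (H i j) = H j i := by
    intro i j
    have := congrFun (congrFun hst j) i
    rw [st_apply] at this
    exact this
  let N : Fin n → ℕ := fun j => (H j j).natDegree / 2
  have hN : ∀ j, (H j j).natDegree = 2 * N j := by
    intro j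
    obtain ⟨r, hr⟩ := even_natDegree (hsig j j)
    simp only [N]; omega
  have hdeg : ∀ i j, (H i j).natDegree ≤ N i + N j := by
    intro i j
    apply natDegree_le_of_growth (hg.psd.entry i j)
    refine natDegree_mul_le.trans ?_
    rw [hN, hN]; omega
  let Pm : Matrix (Fin n) (Fin n) ℝ := fun i j => (H i j).coeff (N i + N j)
  -- the determinant of the leading matrix vanishes
  have hPm : Pm.det = 0 := by
    let z : ℝ → ℂ := fun w => (w : ℂ) * Complex.I
    have hlim1 : Tendsto (fun w : ℝ => (Matrix.of fun i j => ev w (H i j) / (z w) ^ (N i + N j)).det)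
        atTop (𝓝 (Pm.map Complex.ofRealHom).det) := by
      simp only [Matrix.det_apply]
      apply tendsto_finsetSum
      intro σ _
      apply Tendsto.const_smul
      apply tendsto_finsetProd
      intro i _
      exact tendsto_ev_div _ _ (hdeg _ _)
    have hlim2 : Tendsto (fun w : ℝ => (Matrix.of fun i j => ev w (H i j) / (z w) ^ (N i + N j)).det)
        atTop (𝓝 0) := by
      have h1 := tendsto_ev_div H.det (2 * ∑ j, N j) (by omega)
      have h2 : H.det.coeff (2 * ∑ j, N j) = 0 := by
        apply coeff_eq_zero_of_natDegree_lt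
        rw [hdet]
        have : ∑ j, (H j j).natDegree = 2 * ∑ j, N j := by
          rw [Finset.mul_sum]
          exact Finset.sum_congr rfl fun j _ => hN j
        omega
      rw [h2, Complex.ofReal_zero] at h1
      refine h1.congr' ?_
      filter_upwards [eventually_gt_atTop 0] with w hw
      have hw0 : z w ≠ 0 := mul_ne_zero (by exact_mod_cast hw.ne') Complex.I_ne_zero
      have h3 : (Matrix.of fun i j => ev w (H i j) / (z w) ^ (N i + N j))
          = Matrix.diagonal (fun i => ((z w) ^ (N i))⁻¹) * evM w H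
            * Matrix.diagonal (fun i => ((z w) ^ (N i))⁻¹) := by
        ext i j
        rw [Matrix.mul_diagonal, Matrix.diagonal_mul, Matrix.of_apply, evM_apply, pow_add]
        field_simp
      rw [h3, Matrix.det_mul, Matrix.det_mul, Matrix.det_diagonal, det_evM, Finset.prod_inv_distrib,
        Finset.prod_pow_eq_pow_sum, two_mul, pow_add]
      change _ / (z w ^ _ * z w ^ _) = _
      field_simp
    have h4 := tendsto_nhds_unique hlim1 hlim2
    have h5 : (Pm.map Complex.ofRealHom).det = ((Pm.det : ℝ) : ℂ) := by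
      have := RingHom.map_det Complex.ofRealHom Pm
      exact this.symm
    rw [h5] at h4
    exact_mod_cast h4
  obtain ⟨u, hu0, hu⟩ := (Matrix.exists_mulVec_eq_zero_iff (M := Pm)).2 hPm
  -- index with maximal N in the support
  obtain ⟨i₀, hi₀⟩ : ∃ i, u i ≠ 0 := by
    by_contra hcon
    push Not at hcon
    exact hu0 (funext hcon)
  obtain ⟨j, hjmem, hjmax⟩ := Finset.exists_max_image (Finset.univ.filter fun i => u i ≠ 0) N
    ⟨i₀, by simpa using hi₀⟩
  have huj : u j ≠ 0 := by simpa using hjmem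
  have hmax : ∀ i, u i ≠ 0 → N i ≤ N j := fun i hi => hjmax i (by simpa using hi)
  let g : Fin n → ℝ[X] := fun i => C (u i) * Polynomial.X ^ (N j - N i)
  let E : Matrix (Fin n) (Fin n) ℝ[X] := (1 : Matrix (Fin n) (Fin n) ℝ[X]).updateCol j g
  have hEdet : E.det = C (u j) := by
    have h1 : E.det = Matrix.cramer (1 : Matrix (Fin n) (Fin n) ℝ[X]) g j := by
      rw [Matrix.cramer_apply]
    rw [h1, Matrix.cramer_one]
    simp [g]
  have hEunit : IsUnit E.det := by
    rw [hEdet]
    exact isUnit_C.2 (isUnit_iff_ne_zero.2 huj)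
  have hg' := hg.conj hEunit
  have hEcol : ∀ i k, k ≠ j → E i k = (1 : Matrix (Fin n) (Fin n) ℝ[X]) i k := by
    intro i k hk
    exact Matrix.updateCol_ne hk
  have hEj : ∀ i, E i j = g i := by
    intro i
    exact Matrix.updateCol_self
  have hdiag : ∀ k, k ≠ j → (st E * H * E) k k = H k k := by
    intro k hk
    rw [Matrix.mul_apply]
    rw [Finset.sum_eq_single k]
    · rw [hEcol k k hk, Matrix.one_apply_eq, mul_one, Matrix.mul_apply, Finset.sum_eq_single k]
      · rw [st_apply, hEcol k k hk, Matrix.one_apply_eq, map_one, one_mul]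
      · intro l _ hl
        rw [st_apply, hEcol l k hk, Matrix.one_apply_ne hl, map_zero, zero_mul]
      · intro h; exact absurd (Finset.mem_univ _) h
    · intro l _ hl
      rw [hEcol l k hk, Matrix.one_apply_ne hl, mul_zero]
    · intro h; exact absurd (Finset.mem_univ _) h
  have hjj : (st E * H * E) j j = ∑ k, ∑ i, sig (g i) * H i k * g k := by
    rw [Matrix.mul_apply]
    apply Finset.sum_congr rfl
    intro k _
    rw [hEj, Matrix.mul_apply, Finset.sum_mul]
    apply Finset.sum_congr rfl
    intro i _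
    rw [st_apply, hEj]
  have hterm : ∀ i k, sig (g i) * H i k * g k
      = C ((-1) ^ (N j - N i) * u i * u k) * (Polynomial.X ^ ((N j - N i) + (N j - N k)) * H i k) := by
    intro i k
    simp only [g, map_mul, map_pow, sig_C, sig_X]
    rw [neg_pow (Polynomial.X : ℝ[X])]
    simp only [map_neg, map_one]
    rw [pow_add]
    ring
  have hc : ∀ i k, (sig (g i) * H i k * g k).coeff (2 * N j)
      = (-1) ^ (N j - N i) * u i * (Pm i k * u k) := by
    intro i k
    rw [hterm, coeff_C_mul]
    by_cases hi : u i = 0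
    · rw [hi]; ring
    by_cases hk : u k = 0
    · rw [hk]; ring
    have hi' := hmax i hi
    have hk' := hmax k hk
    have e : 2 * N j = (N i + N k) + ((N j - N i) + (N j - N k)) := by omega
    rw [e, coeff_X_pow_mul]
    simp only [Pm]
    ring
  have hcoef : ((st E * H * E) j j).coeff (2 * N j) = 0 := by
    rw [hjj, finsetSum_coeff]
    have h1 : ∀ k, (∑ i, sig (g i) * H i k * g k).coeff (2 * N j)
        = ∑ i, (-1) ^ (N j - N i) * u i * (Pm i k * u k) := by
      intro k
      rw [finsetSum_coeff]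
      exact Finset.sum_congr rfl fun i _ => hc i k
    rw [Finset.sum_congr rfl fun k _ => h1 k, Finset.sum_comm]
    apply Finset.sum_eq_zero
    intro i _
    rw [← Finset.mul_sum]
    have h2 := congrFun hu i
    simp only [mulVec, dotProduct, Pi.zero_apply] at h2
    rw [h2, mul_zero]
  have hdegjj : ((st E * H * E) j j).natDegree ≤ 2 * N j := by
    rw [hjj]
    apply natDegree_sum_le_of_forall_le
    intro k _
    apply natDegree_sum_le_of_forall_le
    intro i _
    rw [hterm]
    by_cases hi : u i = 0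
    · rw [hi]; simp
    by_cases hk : u k = 0
    · rw [hk]; simp
    have hi' := hmax i hi
    have hk' := hmax k hk
    refine (natDegree_C_mul_le _ _).trans ?_
    refine natDegree_mul_le.trans ?_
    rw [natDegree_X_pow]
    have := hdeg i k
    omega
  have hjj0 : (st E * H * E) j j ≠ 0 := fun h0 => hg'.det_ne (hg'.psd.det_zero_of_diag h0)
  have hlt : ((st E * H * E) j j).natDegree < 2 * N j := by
    refine lt_of_le_of_ne hdegjj ?_
    intro h
    rw [← h] at hcoef
    exact hjj0 (leadingCoeff_eq_zero.1 hcoef)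
  refine ⟨st E * H * E, E⁻¹ * X * E, hg', ?_, ?_⟩
  · rw [Matrix.det_mul, Matrix.det_mul, det_st, hEdet, sig_C]
    have h1 : (C (u j) * H.det * C (u j)).natDegree ≤ 0 := by
      refine natDegree_mul_le.trans ?_
      rw [natDegree_C, add_zero]
      refine (natDegree_C_mul_le _ _).trans ?_
      omega
    omega
  · apply Finset.sum_lt_sum
    · intro k _
      by_cases hk : k = j
      · subst hk; rw [hN k]; omega
      · rw [hdiag k hk]
    · exact ⟨j, Finset.mem_univ _, by rw [hN j]; exact hlt⟩

/-- A pair with all diagonal entries constant. -/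
theorem Good.exists_const {P : ℝ[X][X]} {H X : Matrix (Fin n) (Fin n) ℝ[X]}
    (hg : Good P H X) (hdet : H.det.natDegree = 0) : ∃ H' X' : Matrix (Fin n) (Fin n) ℝ[X],
      Good P H' X' ∧ ∀ i j, (H' i j).natDegree = 0 := by
  induction hk : (∑ j, (H j j).natDegree) using Nat.strong_induction_on generalizing H X with
  | _ k ih =>
    rcases Nat.eq_zero_or_pos k with h | h
    · refine ⟨H, X, hg, ?_⟩
      have h1 : ∀ j, (H j j).natDegree = 0 := by
        intro j
        have := (Finset.sum_eq_zero_iff.1 (hk.trans h)) j (Finset.mem_univ _)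
        exact this
      intro i j
      have := natDegree_le_of_growth (hg.psd.entry i j) 0 (by
        refine natDegree_mul_le.trans ?_
        rw [h1, h1])
      omega
    · obtain ⟨H', X', hg', hd', hlt⟩ := hg.reduce_step hdet (by omega)
      exact ih _ (by omega) hg' hd' rfl

open scoped MatrixOrder in
/-- A skew-adjoint matrix with the given characteristic polynomial. -/
theorem Good.exists_skew {P : ℝ[X][X]} {H X : Matrix (Fin n) (Fin n) ℝ[X]}
    (hg : Good P H X) : ∃ X' : Matrix (Fin n) (Fin n) ℝ[X], st X' = -X' ∧ X'.charpoly = P := by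
  obtain ⟨H₁, X₁, hg₁, hd₁⟩ := hg.exists_unimodular
  obtain ⟨H₂, X₂, hg₂, hd₂⟩ := hg₁.exists_const hd₁
  let A : Matrix (Fin n) (Fin n) ℝ := fun i j => (H₂ i j).coeff 0
  have hA : H₂ = A.map C := by
    ext1 i j
    exact eq_C_of_natDegree_eq_zero (hd₂ i j)
  have hev : evM 0 H₂ = A.map Complex.ofRealHom := by
    ext i j
    rw [evM_apply, hA]
    simp [ev]
  have hpsdC : (A.map Complex.ofRealHom).PosSemidef := hev ▸ hg₂.psd 0
  have hpsd : A.PosSemidef := by
    apply Matrix.PosSemidef.of_dotProduct_mulVec_nonneg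
    · ext i j
      have := congrFun (congrFun hpsdC.1 i) j
      simp only [Matrix.conjTranspose_apply, Matrix.map_apply] at this
      have h2 : ((A j i : ℝ) : ℂ) = ((A i j : ℝ) : ℂ) := by
        have h3 : star (Complex.ofRealHom (A j i)) = Complex.ofRealHom (A j i) :=
          Complex.conj_ofReal _
        rw [h3] at this
        exact this
      rw [Matrix.conjTranspose_apply]
      exact_mod_cast h2
    · intro x
      have h1 := hpsdC.dotProduct_mulVec_nonneg (fun i => (x i : ℂ))
      have h2 : star (fun i => (x i : ℂ)) ⬝ᵥ (A.map Complex.ofRealHom *ᵥ fun i => (x i : ℂ))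
          = ((star x ⬝ᵥ (A *ᵥ x) : ℝ) : ℂ) := by
        simp only [dotProduct, mulVec, Matrix.map_apply, Pi.star_apply]
        push_cast
        apply Finset.sum_congr rfl
        intro i _
        congr 1
        exact Complex.conj_ofReal _
      rw [h2] at h1
      exact_mod_cast h1
  obtain ⟨S, hS⟩ := CStarAlgebra.nonneg_iff_eq_star_mul_self.mp hpsd.nonneg
  have hSdet : S.det ≠ 0 := by
    intro h
    apply hg₂.det_ne
    have h1 : H₂.det = C A.det := by
      rw [hA, RingHom.map_det]; rfl
    have h2 : A.det = 0 := by rw [hS, Matrix.det_mul, h, mul_zero]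
    rw [h1, h2, C_0]
  let E : Matrix (Fin n) (Fin n) ℝ[X] := (S⁻¹).map C
  have hEdet : IsUnit E.det := by
    have h1 : E.det = C (S⁻¹).det := by
      simp only [E]
      rw [RingHom.map_det]; rfl
    rw [h1]
    apply isUnit_C.2
    apply (Matrix.isUnit_nonsing_inv_det_iff).2
    exact isUnit_iff_ne_zero.2 hSdet
  have hg₃ := hg₂.conj hEdet
  have hSu : IsUnit S.det := isUnit_iff_ne_zero.2 hSdet
  have hone : st E * H₂ * E = 1 := by
    have h1 : st E = ((S⁻¹)ᵀ).map C := by
      ext1 i j
      rw [st_apply]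
      simp [E]
    rw [h1, hA, ← Matrix.map_mul, ← Matrix.map_mul]
    have h2 : (S⁻¹)ᵀ * A * S⁻¹ = 1 := by
      have h3 : A = Sᵀ * S := by
        rw [hS]
        congr 1
      rw [h3, Matrix.mul_assoc, Matrix.mul_assoc, Matrix.mul_nonsing_inv _ hSu, Matrix.mul_one,
        ← Matrix.transpose_mul, Matrix.mul_nonsing_inv _ hSu, Matrix.transpose_one]
    rw [h2]
    ext1 i j
    rw [Matrix.map_apply, Matrix.one_apply, Matrix.one_apply]
    split_ifs <;> simp
  refine ⟨E⁻¹ * X₂ * E, ?_, hg₃.char⟩
  have h := hg₃.skew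
  rw [hone, Matrix.one_mul, Matrix.mul_one] at h
  have h' := congrArg Neg.neg h
  rw [neg_neg] at h'
  exact h'.symm

end

end Pool.Agent.H741R3.Skew
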