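import Pool.Agent.H741R3.Skew3

/-!
Linear growth: a skew matrix with linearly growing imaginary eigenvalues is a linear pencil; and
the initial pair from a separable polynomial.
-/

open Polynomial Matrix Filter Topology
open scoped ComplexOrder

namespace Pool.Agent.H741R3.Skew

noncomputable section

variable {n : ℕ}

/-- Entries of a skew-Hermitian matrix are bounded by the size of its eigenvalues. -/
lemma entry_bound {M : Matrix (Fin n) (Fin n) ℂ} (hM : Mᴴ = -M) {c : ℝ}
    (hroot : ∀ z : ℂ, M.charpoly.IsRoot z → z.re = 0 ∧ ‖z‖ ≤ c) (hc : 0 ≤ c) (i j : Fin n) :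
    ‖M i j‖ ≤ 2 * c := by
  have key : ∀ η : ℂ, (η = Complex.I ∨ η = -Complex.I) →
      ((c : ℂ) • (1 : Matrix (Fin n) (Fin n) ℂ) + η • M).PosSemidef := by
    intro η hη
    have hη0 : η ≠ 0 := by
      rcases hη with rfl | rfl
      · exact Complex.I_ne_zero
      · exact neg_ne_zero.2 Complex.I_ne_zero
    have hstar : star η = -η := by
      rcases hη with rfl | rfl
      · exact Complex.conj_I
      · rw [star_neg]
        congr 1
        exact Complex.conj_I
    rw [Matrix.posSemidef_iff_isHermitian_and_spectrum_nonneg]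
    constructor
    · change _ᴴ = _
      rw [Matrix.conjTranspose_add, Matrix.conjTranspose_smul, Matrix.conjTranspose_smul,
        Matrix.conjTranspose_one, hM, hstar]
      congr 1
      · congr 1
        exact Complex.conj_ofReal c
      · rw [neg_smul, smul_neg, neg_neg]
    · intro μ hμ
      have h1 : ((algebraMap ℂ (Matrix (Fin n) (Fin n) ℂ)) μ
          - ((c : ℂ) • (1 : Matrix (Fin n) (Fin n) ℂ) + η • M)).det = 0 := by
        by_contra h
        exact hμ ((Matrix.isUnit_iff_isUnit_det _).2 (isUnit_iff_ne_zero.2 h))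
      have h2 : (algebraMap ℂ (Matrix (Fin n) (Fin n) ℂ)) μ
          - ((c : ℂ) • (1 : Matrix (Fin n) (Fin n) ℂ) + η • M)
          = η • (Matrix.scalar (Fin n) ((μ - c) / η) - M) := by
        rw [smul_sub, Algebra.algebraMap_eq_smul_one]
        have e : η • Matrix.scalar (Fin n) ((μ - c) / η)
            = μ • (1 : Matrix (Fin n) (Fin n) ℂ) - (c : ℂ) • (1 : Matrix (Fin n) (Fin n) ℂ) := by
          ext k l
          simp only [Matrix.smul_apply, Matrix.scalar_apply, Matrix.sub_apply, Matrix.one_apply,
            Matrix.diagonal_apply, smul_eq_mul]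
          split_ifs
          · field_simp
          · simp
        rw [e]
        abel
      rw [h2, Matrix.det_smul] at h1
      have h3 : (Matrix.scalar (Fin n) ((μ - c) / η) - M).det = 0 := by
        rcases mul_eq_zero.1 h1 with h | h
        · exact absurd h (pow_ne_zero _ hη0)
        · exact h
      have h4 : M.charpoly.IsRoot ((μ - c) / η) := by
        rw [IsRoot.def, Matrix.eval_charpoly]
        exact h3
      obtain ⟨h5, h6⟩ := hroot _ h4
      set z := (μ - c) / η with hz
      have h7 : μ = c + z * η := by rw [hz]; field_simp; ring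
      change 0 ≤ μ
      have hzim : |z.im| ≤ c := (Complex.abs_im_le_norm z).trans h6
      obtain ⟨h8, h9⟩ := abs_le.1 hzim
      rw [Complex.le_def, h7]
      rcases hη with rfl | rfl
      · simp [h5]; linarith
      · simp [h5]; linarith
  have hentry : ∀ η : ℂ, (η = Complex.I ∨ η = -Complex.I) → ∀ k,
      ‖((c : ℂ) • (1 : Matrix (Fin n) (Fin n) ℂ) + η • M) k k‖ ≤ 2 * c := by
    intro η hη k
    have hη' : (-η = Complex.I ∨ -η = -Complex.I) := by
      rcases hη with rfl | rfl
      · right; rfl
      · left; simp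
    have p1 := (key η hη).diag_nonneg (i := k)
    have p2 := (key (-η) hη').diag_nonneg (i := k)
    simp only [Matrix.add_apply, Matrix.smul_apply, Matrix.one_apply_eq, smul_eq_mul, mul_one,
      neg_mul] at p1 p2 ⊢
    obtain ⟨a1, a2⟩ := Complex.le_def.1 p1
    obtain ⟨b1, b2⟩ := Complex.le_def.1 p2
    have e1 : ‖(c : ℂ) + η * M k k‖ = ((c : ℂ) + η * M k k).re := by
      have h := congrArg Complex.re (Complex.eq_coe_norm_of_nonneg p1)
      rw [Complex.ofReal_re] at h
      exact h.symm
    rw [e1]
    simp only [Complex.add_re, Complex.ofReal_re, Complex.neg_re, Complex.zero_re] at a1 b1 ⊢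
    linarith
  have hij := psd_entry (key Complex.I (Or.inl rfl)) i j
  have hi := hentry Complex.I (Or.inl rfl) i
  have hj := hentry Complex.I (Or.inl rfl) j
  by_cases h : i = j
  · subst h
    -- diagonal entry
    have p1 := (key Complex.I (Or.inl rfl)).diag_nonneg (i := i)
    have p2 := (key (-Complex.I) (Or.inr rfl)).diag_nonneg (i := i)
    simp only [Matrix.add_apply, Matrix.smul_apply, Matrix.one_apply_eq, smul_eq_mul, mul_one,
      neg_mul] at p1 p2
    obtain ⟨a1, a2⟩ := Complex.le_def.1 p1
    obtain ⟨b1, b2⟩ := Complex.le_def.1 p2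
    have e1 : ‖M i i‖ = ‖Complex.I * M i i‖ := by rw [norm_mul, Complex.norm_I, one_mul]
    have e2 : Complex.I * M i i = (((Complex.I * M i i).re : ℝ) : ℂ) := by
      apply Complex.ext
      · simp
      · simp only [Complex.add_im, Complex.ofReal_im, Complex.zero_im, zero_add] at a2
        rw [Complex.ofReal_im]; exact a2.symm
    rw [e1, e2, Complex.norm_real, Real.norm_eq_abs, abs_le]
    simp only [Complex.add_re, Complex.ofReal_re, Complex.neg_re, Complex.zero_re] at a1 b1
    constructor <;> linarith
  · have e3 : ((c : ℂ) • (1 : Matrix (Fin n) (Fin n) ℂ) + Complex.I • M) i j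
        = Complex.I * M i j := by
      simp [Matrix.one_apply_ne h]
    rw [e3, norm_mul, Complex.norm_I, one_mul] at hij
    have h3 : ‖M i j‖ ^ 2 ≤ (2 * c) ^ 2 := by
      refine hij.trans ?_
      rw [pow_two]
      exact mul_le_mul hi hj (norm_nonneg _) (by linarith)
    exact (pow_le_pow_iff_left₀ (norm_nonneg _) (by linarith) two_ne_zero).1 h3

/-- The linear pencil `-(s B + A)`. -/
def pencil (B A : Matrix (Fin n) (Fin n) ℝ) : Matrix (Fin n) (Fin n) ℝ[X] :=
  -((Polynomial.X : ℝ[X]) • B.map C + A.map C)

/-- `P` has a representation `det (x + s B + A)` with `B` symmetric and `A` skew-symmetric. -/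
def Rep (P : ℝ[X][X]) : Prop :=
  ∃ (n : ℕ) (B A : Matrix (Fin n) (Fin n) ℝ), Bᵀ = B ∧ Aᵀ = -A ∧ (pencil B A).charpoly = P

theorem rep_of_skew {P : ℝ[X][X]} {X : Matrix (Fin n) (Fin n) ℝ[X]} (hX : st X = -X)
    (hchar : X.charpoly = P) {K : ℝ} (hK : 0 ≤ K)
    (hroot : ∀ (w : ℝ) (z : ℂ), (P.map (ev w)).IsRoot z → z.re = 0 ∧ ‖z‖ ≤ K * (1 + |w|)) :
    Rep P := by
  have hdeg : ∀ i j, (X i j).natDegree ≤ 1 := by
    intro i j
    apply natDegree_le_of_growth (b := C (8 * K ^ 2) * (1 - Polynomial.X ^ 2))
    · intro w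
      have h1 : ‖evM w X i j‖ ≤ 2 * (K * (1 + |w|)) := by
        apply entry_bound
        · rw [← evM_st, hX, evM_neg]
        · intro z hz
          apply hroot w z
          rw [← hchar]
          have : (evM w X).charpoly = X.charpoly.map (ev w) := Matrix.charpoly_map X (ev w)
          rwa [this] at hz
        · have := abs_nonneg w
          positivity
      have h2 : ‖ev w (C (8 * K ^ 2) * (1 - Polynomial.X ^ 2))‖ = 8 * K ^ 2 * (1 + w ^ 2) := by
        have : ev w (C (8 * K ^ 2) * (1 - Polynomial.X ^ 2)) = ((8 * K ^ 2 * (1 + w ^ 2) : ℝ) : ℂ) := by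
          unfold ev
          rw [map_mul, map_sub, map_pow, evz_C, evz_X, map_one, mul_pow, Complex.I_sq]
          push_cast; ring
        rw [this, Complex.norm_real, Real.norm_eq_abs, abs_of_nonneg (by positivity)]
      rw [h2]
      have h3 : ‖ev w (X i j)‖ ^ 2 ≤ (2 * (K * (1 + |w|))) ^ 2 :=
        pow_le_pow_left₀ (norm_nonneg _) h1 2
      refine h3.trans ?_
      have h4 : (1 + |w|) ^ 2 ≤ 2 * (1 + w ^ 2) := by
        have := sq_abs w
        nlinarith [sq_nonneg (1 - |w|)]
      nlinarith [sq_nonneg K]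
    · refine (natDegree_C_mul_le _ _).trans ?_
      refine (natDegree_sub_le _ _).trans ?_
      simp
  refine ⟨n, Matrix.of fun i j => -(X i j).coeff 1, Matrix.of fun i j => -(X i j).coeff 0,
    ?_, ?_, ?_⟩
  · ext i j
    have h1 := congrFun (congrFun hX j) i
    rw [st_apply, Matrix.neg_apply] at h1
    have h2 := congrArg (fun p : ℝ[X] => p.coeff 1) h1
    simp only [coeff_sig, coeff_neg] at h2
    simp only [Matrix.transpose_apply, Matrix.of_apply]
    linarith
  · ext i j
    have h1 := congrFun (congrFun hX j) i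
    rw [st_apply, Matrix.neg_apply] at h1
    have h2 := congrArg (fun p : ℝ[X] => p.coeff 0) h1
    simp only [coeff_sig, coeff_neg] at h2
    simp only [Matrix.transpose_apply, Matrix.neg_apply, Matrix.of_apply]
    linarith
  · rw [← hchar]
    congr 1
    ext1 i j
    simp only [pencil, Matrix.neg_apply, Matrix.add_apply, Matrix.smul_apply, Matrix.map_apply,
      smul_eq_mul, Matrix.of_apply]
    have h1 := eq_X_add_C_of_natDegree_le_one (hdeg i j)
    conv_rhs => rw [h1]
    simp only [C_neg]
    ring

end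

end Pool.Agent.H741R3.Skew
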