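import Pool.Agent.H741R3.Skew4

/-!
The initial pair `(H, X)` from a polynomial which is separable at almost every point of the
imaginary axis: companion matrix and trace form.
-/

open Polynomial Matrix Filter Topology
open scoped ComplexOrder

namespace Pool.Agent.H741R3.Skew

noncomputable section

variable {n : ℕ}

/-- Companion matrix. -/
def comp (n : ℕ) (P : ℝ[X][X]) : Matrix (Fin n) (Fin n) ℝ[X] :=
  Matrix.of fun i k => if (k : ℕ) + 1 < n then (if (i : ℕ) = k + 1 then 1 else 0)
    else -(P.coeff i)

lemma vandermonde_comp {P : ℝ[X][X]} (hP : P.Monic) (hn : P.natDegree = n) (w : ℝ)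
    (zf : Fin n → ℂ) (hz : ∀ m, (P.map (ev w)).IsRoot (zf m)) :
    Matrix.vandermonde zf * evM w (comp n P) = Matrix.diagonal zf * Matrix.vandermonde zf := by
  ext m k
  rw [Matrix.mul_apply, Matrix.diagonal_mul, Matrix.vandermonde_apply]
  have hk := k.2
  by_cases hkn : (k : ℕ) + 1 < n
  · rw [Finset.sum_eq_single (⟨k + 1, hkn⟩ : Fin n)]
    · rw [Matrix.vandermonde_apply, evM_apply, comp, Matrix.of_apply, if_pos hkn, if_pos rfl,
        map_one, mul_one, pow_succ']
    · intro i _ hi
      rw [evM_apply, comp, Matrix.of_apply, if_pos hkn, if_neg, map_zero, mul_zero]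
      intro h
      exact hi (Fin.ext h)
    · intro h; exact absurd (Finset.mem_univ _) h
  · have hk1 : (k : ℕ) + 1 = n := by omega
    have h1 : (P.map (ev w)).eval (zf m) = 0 := hz m
    have hmn : (P.map (ev w)).natDegree = n := by rw [hP.natDegree_map, hn]
    rw [eval_eq_sum_range, hmn, Finset.sum_range_succ] at h1
    have h2 : (P.map (ev w)).coeff n = 1 := by
      rw [coeff_map, ← hn]
      have : P.coeff P.natDegree = 1 := hP
      rw [this, map_one]
    rw [h2, one_mul] at h1
    have h3 : ∑ i : Fin n, Matrix.vandermonde zf m i * evM w (comp n P) i k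
        = -∑ i ∈ Finset.range n, (P.map (ev w)).coeff i * zf m ^ i := by
      rw [Finset.sum_range, ← Finset.sum_neg_distrib]
      apply Finset.sum_congr rfl
      intro i _
      rw [Matrix.vandermonde_apply, evM_apply, comp, Matrix.of_apply, if_neg hkn, map_neg,
        coeff_map]
      ring
    rw [h3, ← pow_succ', hk1]
    linear_combination -h1

lemma conj_pow {V M D : Matrix (Fin n) (Fin n) ℂ} (h : V * M = D * V) (k : ℕ) :
    V * M ^ k = D ^ k * V := by
  induction k with
  | zero => simp
  | succ k ih => rw [pow_succ, ← Matrix.mul_assoc, ih, Matrix.mul_assoc, h, ← Matrix.mul_assoc,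
      ← pow_succ]

lemma trace_pow_of_conj {V M : Matrix (Fin n) (Fin n) ℂ} {zf : Fin n → ℂ} (hV : IsUnit V.det)
    (h : V * M = Matrix.diagonal zf * V) (k : ℕ) : (M ^ k).trace = ∑ m, zf m ^ k := by
  have h1 := conj_pow h k
  have h2 : M ^ k = V⁻¹ * ((Matrix.diagonal zf) ^ k * V) := by
    rw [← h1, ← Matrix.mul_assoc, Matrix.nonsing_inv_mul _ hV, Matrix.one_mul]
  rw [h2, Matrix.trace_mul_comm, Matrix.mul_assoc, Matrix.mul_nonsing_inv _ hV, Matrix.mul_one,
    Matrix.diagonal_pow, Matrix.trace_diagonal]
  rfl

/-- The Gram matrix of the trace form. -/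
def gram (n : ℕ) (P : ℝ[X][X]) : Matrix (Fin n) (Fin n) ℝ[X] :=
  Matrix.of fun i k => (-1) ^ (i : ℕ) * ((comp n P) ^ ((i : ℕ) + k)).trace

lemma evM_gram {P : ℝ[X][X]} (hP : P.Monic) (hn : P.natDegree = n) (w : ℝ)
    (zf : Fin n → ℂ) (hinj : Function.Injective zf) (hz : ∀ m, (P.map (ev w)).IsRoot (zf m))
    (him : ∀ m, (zf m).re = 0) :
    evM w (gram n P) = (Matrix.vandermonde zf)ᴴ * Matrix.vandermonde zf := by
  have hV : IsUnit (Matrix.vandermonde zf).det :=
    isUnit_iff_ne_zero.2 (Matrix.det_vandermonde_ne_zero_iff.2 hinj)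
  have h := vandermonde_comp hP hn w zf hz
  ext i k
  rw [evM_apply, gram, Matrix.of_apply, map_mul, map_pow, map_neg, map_one]
  have h1 : ev w ((comp n P) ^ ((i : ℕ) + k)).trace = ((evM w (comp n P)) ^ ((i : ℕ) + k)).trace := by
    have e1 : (evM w (comp n P)) ^ ((i : ℕ) + k) = evM w ((comp n P) ^ ((i : ℕ) + k)) := by
      have := map_pow (ev w).mapMatrix (comp n P) ((i : ℕ) + k)
      exact this.symm
    rw [e1, Matrix.trace, Matrix.trace, map_sum]
    rfl
  rw [h1, trace_pow_of_conj hV h, Matrix.mul_apply, Finset.mul_sum]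
  apply Finset.sum_congr rfl
  intro m _
  rw [Matrix.conjTranspose_apply, Matrix.vandermonde_apply, Matrix.vandermonde_apply, star_pow]
  have h2 : star (zf m) = -zf m := by
    apply Complex.ext
    · change ((starRingEnd ℂ) (zf m)).re = _
      simp [him m]
    · change ((starRingEnd ℂ) (zf m)).im = _
      simp
  rw [h2, neg_pow (zf m), pow_add]
  ring

/-- The initial pair. -/
theorem good_init {P : ℝ[X][X]} (hP : P.Monic) (hn : P.natDegree = n) {d : ℝ[X]} (hd : d ≠ 0)
    (hsep : ∀ w : ℝ, ev w d ≠ 0 → (P.map (ev w)).roots.Nodup)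
    (him : ∀ (w : ℝ) (z : ℂ), (P.map (ev w)).IsRoot z → z.re = 0) :
    Good P (gram n P) (comp n P) := by
  have hroots : ∀ w : ℝ, ev w d ≠ 0 → ∃ zf : Fin n → ℂ, Function.Injective zf ∧
      ∀ m, (P.map (ev w)).IsRoot (zf m) := by
    intro w hw
    have hnd := hsep w hw
    have hcard : (P.map (ev w)).roots.card = n := by
      have h1 : (P.map (ev w)).Splits := IsAlgClosed.splits _
      rw [← h1.natDegree_eq_card_roots, hP.natDegree_map, hn]
    have hcard' : (P.map (ev w)).roots.toFinset.card = n := by
      rw [Multiset.toFinset_card_of_nodup hnd, hcard]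
    let e := (P.map (ev w)).roots.toFinset.equivFinOfCardEq hcard'
    refine ⟨fun m => ((e.symm m : _) : ℂ), ?_, ?_⟩
    · intro a b hab
      exact e.symm.injective (Subtype.ext hab)
    · intro m
      have h2 := (e.symm m).2
      rw [Multiset.mem_toFinset, mem_roots'] at h2
      exact h2.2
  refine ⟨?_, ?_, ?_, ?_⟩
  · apply psd_of_cofinite hd
    intro w hw
    obtain ⟨zf, hinj, hz⟩ := hroots w hw
    rw [evM_gram hP hn w zf hinj hz (fun m => him w _ (hz m))]
    exact Matrix.posSemidef_conjTranspose_mul_self _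
  · intro h0
    have : ∃ w : ℝ, ev w d ≠ 0 := by
      by_contra hcon
      push Not at hcon
      exact hd (eq_zero_of_ev (g := 1) one_ne_zero fun w _ => hcon w)
    obtain ⟨w, hw⟩ := this
    obtain ⟨zf, hinj, hz⟩ := hroots w hw
    have h1 := det_evM w (gram n P)
    rw [h0, map_zero, evM_gram hP hn w zf hinj hz (fun m => him w _ (hz m)), Matrix.det_mul,
      Matrix.det_conjTranspose] at h1
    have h2 := Matrix.det_vandermonde_ne_zero_iff.2 hinj
    rcases mul_eq_zero.1 h1 with h | h
    · exact h2 (star_eq_zero.1 h)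
    · exact h2 h
  · apply mat_eq_of_ev hd
    intro w hw
    obtain ⟨zf, hinj, hz⟩ := hroots w hw
    have hV := vandermonde_comp hP hn w zf hz
    rw [evM_mul, evM_neg, evM_mul, evM_st,
      evM_gram hP hn w zf hinj hz (fun m => him w _ (hz m))]
    set V := Matrix.vandermonde zf
    set M := evM w (comp n P)
    have hD : (Matrix.diagonal zf)ᴴ = -Matrix.diagonal zf := by
      rw [Matrix.diagonal_conjTranspose, Matrix.diagonal_neg]
      congr 1
      funext m
      have hre := him w _ (hz m)
      apply Complex.ext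
      · change ((starRingEnd ℂ) (zf m)).re = _
        simp [hre]
      · change ((starRingEnd ℂ) (zf m)).im = _
        simp
    have h1 : Mᴴ * Vᴴ = -(Vᴴ * Matrix.diagonal zf) := by
      rw [← Matrix.conjTranspose_mul, hV, Matrix.conjTranspose_mul, hD, Matrix.mul_neg]
    rw [Matrix.mul_assoc, hV, ← Matrix.mul_assoc, ← Matrix.mul_assoc, h1, Matrix.neg_mul, neg_neg]
  · -- characteristic polynomial
    ext1 k
    apply eq_of_ev hd
    intro w hw
    obtain ⟨zf, hinj, hz⟩ := hroots w hw
    have hV := vandermonde_comp hP hn w zf hz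
    have hVu : (Matrix.vandermonde zf).det ≠ 0 := Matrix.det_vandermonde_ne_zero_iff.2 hinj
    have hpoly : (comp n P).charpoly.map (ev w) = P.map (ev w) := by
      rw [← sub_eq_zero]
      rcases Nat.eq_zero_or_pos n with hn0 | hnpos
      · subst hn0
        have e1 : P = 1 := eq_one_of_monic_natDegree_zero hP hn
        have e2 : (comp 0 P).charpoly = 1 := by
          simp [Matrix.charpoly]
        rw [e2, e1]; simp
      apply eq_zero_of_natDegree_lt_card_of_eval_eq_zero _ hinj
      · intro m
        have h1 : (evM w (comp n P)).charpoly = (comp n P).charpoly.map (ev w) :=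
          Matrix.charpoly_map _ (ev w)
        rw [eval_sub, ← h1, Matrix.eval_charpoly]
        have h2 : (P.map (ev w)).eval (zf m) = 0 := hz m
        rw [h2, sub_zero]
        -- left eigenvector
        have h3 : (Matrix.vandermonde zf).det * (Matrix.scalar (Fin n) (zf m)
            - evM w (comp n P)).det = 0 := by
          rw [← Matrix.det_mul, Matrix.mul_sub, hV]
          apply Matrix.det_eq_zero_of_row_eq_zero m
          intro j
          rw [Matrix.sub_apply, Matrix.diagonal_mul]
          have h4 : (Matrix.vandermonde zf * Matrix.scalar (Fin n) (zf m)) m j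
              = Matrix.vandermonde zf m j * zf m := by
            rw [Matrix.scalar_apply, Matrix.mul_diagonal]
          rw [h4]; ring
        rcases mul_eq_zero.1 h3 with h | h
        · exact absurd h hVu
        · exact h
      · have m1 : ((comp n P).charpoly.map (ev w)).Monic := (Matrix.charpoly_monic _).map _
        have m2 : (P.map (ev w)).Monic := hP.map _
        have d1 : ((comp n P).charpoly.map (ev w)).natDegree = n := by
          rw [(Matrix.charpoly_monic _).natDegree_map, Matrix.charpoly_natDegree_eq_dim]; simp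
        have d2 : (P.map (ev w)).natDegree = n := by rw [hP.natDegree_map, hn]
        rw [Fintype.card_fin]
        have h5 : ((comp n P).charpoly.map (ev w) - P.map (ev w)).degree
            < ((comp n P).charpoly.map (ev w)).degree := by
          apply degree_sub_lt_left
          · rw [degree_eq_natDegree m1.ne_zero, degree_eq_natDegree m2.ne_zero, d1, d2]
          · exact m1.ne_zero
          · rw [m1.leadingCoeff, m2.leadingCoeff]
        rw [degree_eq_natDegree m1.ne_zero, d1] at h5
        by_cases h6 : ((comp n P).charpoly.map (ev w) - P.map (ev w)) = 0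
        · rw [h6]; simpa using hnpos
        · rw [degree_eq_natDegree h6] at h5
          exact_mod_cast h5
    have := congrArg (fun Q : ℂ[X] => Q.coeff k) hpoly
    simpa [coeff_map] using this

/-- Representation of separable polynomials. -/
theorem rep_of_separable {P : ℝ[X][X]} (hP : P.Monic) {d : ℝ[X]} (hd : d ≠ 0)
    (hsep : ∀ w : ℝ, ev w d ≠ 0 → (P.map (ev w)).roots.Nodup) {K : ℝ} (hK : 0 ≤ K)
    (hroot : ∀ (w : ℝ) (z : ℂ), (P.map (ev w)).IsRoot z → z.re = 0 ∧ ‖z‖ ≤ K * (1 + |w|)) :
    Rep P := by
  have hg := good_init (n := P.natDegree) hP rfl hd hsep (fun w z hz => (hroot w z hz).1)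
  obtain ⟨X', hX', hchar⟩ := hg.exists_skew
  exact rep_of_skew hX' hchar hK hroot

end

end Pool.Agent.H741R3.Skew
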