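import Pool.Agent.H741R3.Skew5

/-!
General polynomials: factorisation into symmetric separable factors and direct sums.
-/

open Polynomial Matrix Filter Topology
open scoped ComplexOrder

namespace Pool.Agent.H741R3.Skew

noncomputable section

/-- The involution `x ↦ -x`, `s ↦ -s`. -/
def tau : ℝ[X][X] →+* ℝ[X][X] := (compRingHom (-X)).comp (mapRingHom sig)

@[simp] lemma tau_X : tau X = -X := by simp [tau]
@[simp] lemma tau_C (a : ℝ[X]) : tau (C a) = C (sig a) := by simp [tau]

@[simp] lemma tau_tau (P : ℝ[X][X]) : tau (tau P) = P := by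
  have : tau.comp tau = RingHom.id _ := by
    apply Polynomial.ringHom_ext
    · intro a; simp
    · simp
  exact congrArg (fun f : ℝ[X][X] →+* ℝ[X][X] => f P) this

lemma natDegree_tau (P : ℝ[X][X]) : (tau P).natDegree = P.natDegree := by
  change ((P.map sig).comp (-X)).natDegree = _
  rw [natDegree_comp, natDegree_map_eq_of_injective sig_injective]; simp

lemma leadingCoeff_tau {P : ℝ[X][X]} (hP : P.Monic) :
    (tau P).leadingCoeff = (-1) ^ P.natDegree := by
  change ((P.map sig).comp (-X)).leadingCoeff = _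
  have h0 : (-X : ℝ[X][X]).natDegree ≠ 0 := by
    rw [natDegree_neg, natDegree_X]; exact one_ne_zero
  rw [leadingCoeff_comp h0, (hP.map sig).leadingCoeff, one_mul, hP.natDegree_map,
    leadingCoeff_neg, leadingCoeff_X]

lemma assoc_of_isUnit_mul {u : ℝ[X][X]} (hu : IsUnit u) (f : ℝ[X][X]) : Associated f (u * f) := by
  obtain ⟨v, rfl⟩ := hu
  exact ⟨v, mul_comm _ _⟩

/-- The monic version of `tau`. -/
def tau' (P : ℝ[X][X]) : ℝ[X][X] := (-1) ^ P.natDegree * tau P

lemma neg_one_pow_ne (k : ℕ) : ((-1 : ℝ[X][X]) ^ k) ≠ 0 := pow_ne_zero _ (neg_ne_zero.2 one_ne_zero)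

lemma neg_one_sq' (k : ℕ) : ((-1 : ℝ[X][X]) ^ k) * (-1) ^ k = 1 := by
  have h : ((-1 : ℝ[X][X]) * (-1)) = 1 := by ring
  rw [← mul_pow, h, one_pow]

lemma monic_tau' {P : ℝ[X][X]} (hP : P.Monic) : (tau' P).Monic := by
  unfold tau' Monic
  rw [leadingCoeff_mul, leadingCoeff_tau hP]
  have : ((-1 : ℝ[X][X]) ^ P.natDegree) = C ((-1) ^ P.natDegree) := by simp
  rw [this, leadingCoeff_C, ← mul_pow, neg_mul_neg, one_mul, one_pow]

lemma natDegree_tau' (P : ℝ[X][X]) : (tau' P).natDegree = P.natDegree := by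
  unfold tau'
  have : ((-1 : ℝ[X][X]) ^ P.natDegree) = C ((-1) ^ P.natDegree) := by simp
  rw [this, natDegree_C_mul (pow_ne_zero _ (neg_ne_zero.2 one_ne_zero)), natDegree_tau]

lemma tau'_tau' (P : ℝ[X][X]) : tau' (tau' P) = P := by
  have h : tau' (tau' P) = (-1) ^ P.natDegree * tau (tau' P) := by
    conv_lhs => rw [tau']
    rw [natDegree_tau']
  rw [h]
  unfold tau'
  rw [map_mul, map_pow, map_neg, map_one, tau_tau, ← mul_assoc, neg_one_sq', one_mul]

lemma tau'_mul {P Q : ℝ[X][X]} (hP : P ≠ 0) (hQ : Q ≠ 0) : tau' (P * Q) = tau' P * tau' Q := by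
  unfold tau'
  rw [natDegree_mul hP hQ, map_mul, pow_add]; ring

/-- Admissible polynomials. -/
structure Adm (K : ℝ) (P : ℝ[X][X]) : Prop where
  monic : P.Monic
  par : tau' P = P
  root : ∀ (w : ℝ) (z : ℂ), (P.map (ev w)).IsRoot z → z.re = 0 ∧ ‖z‖ ≤ K * (1 + |w|)

lemma Adm.of_dvd {K : ℝ} {P Q : ℝ[X][X]} (hP : Adm K P) (hQ : Q.Monic) (hpar : tau' Q = Q)
    (hd : Q ∣ P) : Adm K Q := by
  refine ⟨hQ, hpar, ?_⟩
  intro w z hz
  apply hP.root w z
  obtain ⟨c, hc⟩ := hd
  rw [hc, Polynomial.map_mul]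
  exact hz.dvd (Dvd.intro _ rfl)

/-- Direct sums. -/
lemma Rep.mul {P Q : ℝ[X][X]} (hP : Rep P) (hQ : Rep Q) : Rep (P * Q) := by
  obtain ⟨a, B₁, A₁, hB₁, hA₁, h₁⟩ := hP
  obtain ⟨b, B₂, A₂, hB₂, hA₂, h₂⟩ := hQ
  refine ⟨a + b, Matrix.reindex finSumFinEquiv finSumFinEquiv (Matrix.fromBlocks B₁ 0 0 B₂),
    Matrix.reindex finSumFinEquiv finSumFinEquiv (Matrix.fromBlocks A₁ 0 0 A₂), ?_, ?_, ?_⟩
  · rw [Matrix.transpose_reindex, Matrix.fromBlocks_transpose, hB₁, hB₂]; simp
  · rw [Matrix.transpose_reindex, Matrix.fromBlocks_transpose, hA₁, hA₂]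
    ext i j
    simp only [Matrix.transpose_zero, Matrix.reindex_apply, Matrix.submatrix_apply,
      Matrix.neg_apply]
    rcases finSumFinEquiv.symm i with x | x <;> rcases finSumFinEquiv.symm j with y | y <;> simp
  · have h : pencil (Matrix.reindex finSumFinEquiv finSumFinEquiv (Matrix.fromBlocks B₁ 0 0 B₂))
        (Matrix.reindex finSumFinEquiv finSumFinEquiv (Matrix.fromBlocks A₁ 0 0 A₂))
        = Matrix.reindex finSumFinEquiv finSumFinEquiv
          (Matrix.fromBlocks (pencil B₁ A₁) 0 0 (pencil B₂ A₂)) := by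
      ext1 i j
      simp only [pencil, Matrix.neg_apply, Matrix.add_apply, Matrix.smul_apply, Matrix.map_apply,
        Matrix.reindex_apply, Matrix.submatrix_apply]
      rcases finSumFinEquiv.symm i with x | x <;> rcases finSumFinEquiv.symm j with y | y <;>
        simp
    rw [h, Matrix.charpoly_reindex, Matrix.charpoly_fromBlocks_zero₁₂, h₁, h₂]

lemma rep_one : Rep 1 := by
  refine ⟨0, 0, 0, by simp, by simp, by simp [Matrix.charpoly]⟩

/-- Separability over the fraction field gives separability at almost every point. -/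
lemma exists_disc {Q : ℝ[X][X]} (hdeg : 0 < Q.natDegree)
    (hsep : (Q.map (algebraMap ℝ[X] (FractionRing ℝ[X]))).Separable) :
    ∃ d : ℝ[X], d ≠ 0 ∧ ∀ w : ℝ, ev w d ≠ 0 → (Q.map (ev w)).roots.Nodup := by
  refine ⟨resultant Q (derivative Q), ?_, ?_⟩
  · intro h0
    have hinj : Function.Injective (algebraMap ℝ[X] (FractionRing ℝ[X])) :=
      IsFractionRing.injective _ _
    have h1 := resultant_map_map Q (derivative Q) Q.natDegree (derivative Q).natDegree
      (algebraMap ℝ[X] (FractionRing ℝ[X]))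
    rw [h0, map_zero] at h1
    have h2 : resultant (Q.map (algebraMap ℝ[X] (FractionRing ℝ[X])))
        (derivative (Q.map (algebraMap ℝ[X] (FractionRing ℝ[X])))) = 0 := by
      rw [derivative_map, natDegree_map_eq_of_injective hinj, natDegree_map_eq_of_injective hinj]
      exact h1
    rw [resultant_eq_zero_iff] at h2
    exact h2.2 hsep
  · intro w hw
    obtain ⟨p, q, -, -, hpq⟩ := exists_mul_add_mul_eq_C_resultant Q (derivative Q) le_rfl le_rfl
      (Or.inl hdeg.ne')
    apply nodup_roots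
    have h1 := congrArg (Polynomial.map (ev w)) hpq
    rw [Polynomial.map_add, Polynomial.map_mul, Polynomial.map_mul, map_C] at h1
    refine ⟨C (ev w (resultant Q (derivative Q)))⁻¹ * p.map (ev w),
      C (ev w (resultant Q (derivative Q)))⁻¹ * q.map (ev w), ?_⟩
    rw [derivative_map]
    have h2 : C (ev w (resultant Q (derivative Q)))⁻¹ * C (ev w (resultant Q (derivative Q)))
        = (1 : ℂ[X]) := by
      rw [← C_mul, inv_mul_cancel₀ hw, C_1]
    linear_combination (C (ev w (resultant Q (derivative Q)))⁻¹) * h1 + h2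

lemma Adm.rep_of_sep {K : ℝ} (hK : 0 ≤ K) {Q : ℝ[X][X]} (hQ : Adm K Q)
    (hdeg : 0 < Q.natDegree)
    (hsep : (Q.map (algebraMap ℝ[X] (FractionRing ℝ[X]))).Separable) : Rep Q := by
  obtain ⟨d, hd, hnd⟩ := exists_disc hdeg hsep
  exact rep_of_separable hQ.monic hd hnd hK hQ.root

/-- Every admissible polynomial has a representation. -/
theorem Adm.rep {K : ℝ} (hK : 0 ≤ K) {P : ℝ[X][X]} (hP : Adm K P) : Rep P := by
  induction hk : P.natDegree using Nat.strong_induction_on generalizing P with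
  | _ k ih =>
    rcases Nat.eq_zero_or_pos k with h0 | hpos
    · subst h0
      rw [eq_one_of_monic_natDegree_zero hP.monic hk]
      exact rep_one
    -- a monic irreducible factor
    have hPu : ¬ IsUnit P := by
      intro h
      have := hP.monic.eq_one_of_isUnit h
      rw [this, natDegree_one] at hk
      omega
    obtain ⟨f₀, hf₀, hf₀P⟩ := WfDvdMonoid.exists_irreducible_factor hPu hP.monic.ne_zero
    have hlc : IsUnit f₀.leadingCoeff := by
      obtain ⟨c, hc⟩ := hf₀P
      have h1 := congrArg leadingCoeff hc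
      rw [leadingCoeff_mul, hP.monic.leadingCoeff] at h1
      exact IsUnit.of_mul_eq_one _ h1.symm
    obtain ⟨v, hv⟩ := hlc
    obtain ⟨f, hf, hfm, hfP⟩ : ∃ f : ℝ[X][X], Irreducible f ∧ f.Monic ∧ f ∣ P := by
      have hassoc : Associated f₀ (C (↑v⁻¹ : ℝ[X]) * f₀) := by
        exact assoc_of_isUnit_mul (isUnit_C.2 (Units.isUnit _)) _
      refine ⟨C (↑v⁻¹ : ℝ[X]) * f₀, hassoc.irreducible hf₀, ?_, hassoc.symm.dvd.trans hf₀P⟩
      unfold Monic
      rw [leadingCoeff_mul, leadingCoeff_C, ← hv, Units.inv_mul]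
    have hfdeg : 0 < f.natDegree := by
      by_contra hcon
      have : f.natDegree = 0 := by omega
      have h1 := eq_one_of_monic_natDegree_zero hfm this
      rw [h1] at hf
      exact hf.not_isUnit isUnit_one
    -- its conjugate
    have hf' : Irreducible (tau' f) := by
      let e : ℝ[X][X] ≃+* ℝ[X][X] := RingEquiv.ofRingHom tau tau
        (by apply RingHom.ext; intro x; exact tau_tau x)
        (by apply RingHom.ext; intro x; exact tau_tau x)
      have h1 : Irreducible (tau f) := (MulEquiv.irreducible_iff (e : ℝ[X][X] ≃* ℝ[X][X])).2 hf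
      have hu : IsUnit ((-1 : ℝ[X][X]) ^ f.natDegree) := IsUnit.of_mul_eq_one _ (neg_one_sq' _)
      exact (assoc_of_isUnit_mul hu _).irreducible h1
    have hf'm : (tau' f).Monic := monic_tau' hfm
    have hf'P : tau' f ∣ P := by
      obtain ⟨c, hc⟩ := hfP
      have hc0 : c ≠ 0 := by
        intro h
        rw [h, mul_zero] at hc
        exact hP.monic.ne_zero hc
      have h1 := hP.par
      rw [hc, tau'_mul hfm.ne_zero hc0] at h1
      rw [hc, ← h1]
      exact Dvd.intro _ rfl
    -- irreducibility and separability over the fraction field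
    have sepf : ∀ g : ℝ[X][X], Irreducible g → g.Monic →
        Irreducible (g.map (algebraMap ℝ[X] (FractionRing ℝ[X]))) :=
      fun g hg hgm => (hgm.irreducible_iff_irreducible_map_fraction_map).1 hg
    obtain ⟨Q, hQm, hQpar, hQP, hQdeg, hQsep⟩ : ∃ Q : ℝ[X][X], Q.Monic ∧ tau' Q = Q ∧ Q ∣ P ∧
        0 < Q.natDegree ∧ (Q.map (algebraMap ℝ[X] (FractionRing ℝ[X]))).Separable := by
      by_cases heq : tau' f = f
      · exact ⟨f, hfm, heq, hfP, hfdeg, (sepf f hf hfm).separable⟩
      · have hnd : ¬ f ∣ tau' f := by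
          intro hdv
          apply heq
          exact (eq_of_monic_of_associated hfm hf'm (hf.associated_of_dvd hf' hdv)).symm
        refine ⟨f * tau' f, hfm.mul hf'm, ?_, ?_, ?_, ?_⟩
        · rw [tau'_mul hfm.ne_zero hf'm.ne_zero, tau'_tau', mul_comm]
        · obtain ⟨c, hc⟩ := hfP
          have h1 : tau' f ∣ f * c := hc ▸ hf'P
          rcases hf'.prime.dvd_or_dvd h1 with h | h
          · exact absurd ((hf'.associated_of_dvd hf h).symm.dvd) hnd
          · rw [hc]
            exact mul_dvd_mul_left f h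
        · rw [natDegree_mul hfm.ne_zero hf'm.ne_zero]; omega
        · rw [Polynomial.map_mul]
          have i1 := sepf f hf hfm
          have i2 := sepf _ hf' hf'm
          refine i1.separable.mul i2.separable ?_
          rw [i1.coprime_iff_not_dvd]
          intro hdv
          apply heq
          have h1 := i1.associated_of_dvd i2 hdv
          have h2 := eq_of_monic_of_associated (hfm.map _) (hf'm.map _) h1
          exact (Polynomial.map_injective _ (IsFractionRing.injective _ _) h2).symm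
    obtain ⟨g, hg⟩ := hQP
    have hgm : g.Monic := hQm.of_mul_monic_left (hg ▸ hP.monic)
    have hgpar : tau' g = g := by
      have h1 := hP.par
      rw [hg, tau'_mul hQm.ne_zero hgm.ne_zero, hQpar] at h1
      exact mul_left_cancel₀ hQm.ne_zero h1
    have hQrep : Rep Q := (hP.of_dvd hQm hQpar (Dvd.intro _ hg.symm)).rep_of_sep hK hQdeg hQsep
    have hgadm : Adm K g := hP.of_dvd hgm hgpar (Dvd.intro_left _ hg.symm)
    have hgdeg : g.natDegree < k := by
      have : P.natDegree = Q.natDegree + g.natDegree := by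
        rw [hg, hQm.natDegree_mul hgm]
      omega
    rw [hg]
    exact hQrep.mul (ih _ hgdeg hgadm rfl)

end

end Pool.Agent.H741R3.Skew
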