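import Pool.Agent.H741R3.Skew6

/-!
From a stable polynomial in two complex variables with the parity condition to an admissible real
polynomial.
-/

open Matrix Filter Topology
open scoped ComplexOrder

namespace Pool.Agent.H741R3.Skew

noncomputable section

/-- Lower bound for a polynomial without roots in the upper half-plane. -/
lemma lower_bound {h : Polynomial ℂ} {n : ℕ} (hn : h.natDegree ≤ n)
    (hr : ∀ r : ℂ, h.IsRoot r → r.im ≤ 0) (x : ℂ) (hx : 0 < x.im) :
    ‖h.coeff n‖ * x.im ^ n ≤ ‖h.eval x‖ := by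
  by_cases hc : h.coeff n = 0
  · rw [hc, norm_zero, zero_mul]; exact norm_nonneg _
  have hdeg : h.natDegree = n := le_antisymm hn (Polynomial.le_natDegree_of_ne_zero hc)
  have hs : h.Splits := IsAlgClosed.splits h
  have h0 : h ≠ 0 := by
    intro h0; rw [h0] at hc; simp at hc
  have hcard : h.roots.card = n := by rw [← hs.natDegree_eq_card_roots, hdeg]
  have hprod := hs.eq_prod_roots
  have hlc : h.leadingCoeff = h.coeff n := by rw [← hdeg]; rfl
  have key : ∀ s : Multiset ℂ, (∀ r ∈ s, r.im ≤ 0) →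
      x.im ^ s.card ≤ ‖(s.map (fun r => x - r)).prod‖ := by
    intro s
    induction s using Multiset.induction_on with
    | empty => intro _; simp
    | cons a s ih =>
      intro hs
      rw [Multiset.card_cons, Multiset.map_cons, Multiset.prod_cons, norm_mul, pow_succ']
      apply mul_le_mul
      · have h1 := Complex.abs_im_le_norm (x - a)
        have h2 := hs a (Multiset.mem_cons_self a s)
        rw [Complex.sub_im] at h1
        exact (le_trans (by linarith) (le_abs_self _)).trans h1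
      · exact ih fun r hr => hs r (Multiset.mem_cons_of_mem hr)
      · exact pow_nonneg hx.le _
      · exact norm_nonneg _
  have h1 := key h.roots (fun r hr' => hr r ((Polynomial.mem_roots h0).1 hr'))
  rw [hcard] at h1
  have h2 : h.eval x = h.coeff n * (h.roots.map (fun r => x - r)).prod := by
    conv_lhs => rw [hprod]
    rw [Polynomial.eval_mul, Polynomial.eval_C, hlc, Polynomial.eval_multiset_prod,
      Multiset.map_map]
    simp
  rw [h2, norm_mul]
  exact mul_le_mul_of_nonneg_left h1 (norm_nonneg _)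

variable {p : MvPolynomial (Fin 2) ℂ} {n : ℕ}

lemma eval_two (x y : ℂ) : MvPolynomial.eval ![x, y] p
    = ∑ d ∈ p.support, p.coeff d * (x ^ d 0 * y ^ d 1) := by
  rw [MvPolynomial.eval_eq']
  apply Finset.sum_congr rfl
  intro d _
  rw [Fin.prod_univ_two]; simp

lemma deg_le (hp : p.totalDegree ≤ n) {d : Fin 2 →₀ ℕ} (hd : d ∈ p.support) : d 0 + d 1 ≤ n := by
  have h := MvPolynomial.le_totalDegree hd
  rw [Finsupp.sum_fintype _ _ (fun _ => rfl), Fin.sum_univ_two] at h
  omega

lemma eq_single_zero {d : Fin 2 →₀ ℕ} (h0 : d 0 = n) (h1 : d 1 = 0) : d = Finsupp.single 0 n := by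
  ext i
  fin_cases i
  · simp [h0]
  · simp [h1]

lemma eq_single_one {d : Fin 2 →₀ ℕ} (h0 : d 0 = 0) (h1 : d 1 = n) : d = Finsupp.single 1 n := by
  ext i
  fin_cases i
  · simp [h0]
  · simp [h1]

/-- The restriction to a line of constant second variable. -/
def resX (p : MvPolynomial (Fin 2) ℂ) (y : ℂ) : Polynomial ℂ :=
  ∑ d ∈ p.support, Polynomial.C (p.coeff d * y ^ d 1) * Polynomial.X ^ d 0

/-- The restriction to a line of constant first variable. -/
def resY (p : MvPolynomial (Fin 2) ℂ) (x : ℂ) : Polynomial ℂ :=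
  ∑ d ∈ p.support, Polynomial.C (p.coeff d * x ^ d 0) * Polynomial.X ^ d 1

lemma eval_resX (x y : ℂ) : (resX p y).eval x = MvPolynomial.eval ![x, y] p := by
  rw [eval_two, resX, Polynomial.eval_finsetSum]
  apply Finset.sum_congr rfl
  intro d _
  simp; ring

lemma eval_resY (x y : ℂ) : (resY p x).eval y = MvPolynomial.eval ![x, y] p := by
  rw [eval_two, resY, Polynomial.eval_finsetSum]
  apply Finset.sum_congr rfl
  intro d _
  simp; ring

lemma natDegree_resX (hp : p.totalDegree ≤ n) (y : ℂ) : (resX p y).natDegree ≤ n := by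
  apply Polynomial.natDegree_sum_le_of_forall_le
  intro d hd
  refine (Polynomial.natDegree_C_mul_X_pow_le _ _).trans ?_
  have := deg_le hp hd
  omega

lemma natDegree_resY (hp : p.totalDegree ≤ n) (x : ℂ) : (resY p x).natDegree ≤ n := by
  apply Polynomial.natDegree_sum_le_of_forall_le
  intro d hd
  refine (Polynomial.natDegree_C_mul_X_pow_le _ _).trans ?_
  have := deg_le hp hd
  omega

lemma coeff_resX (hp : p.totalDegree ≤ n) (y : ℂ) :
    (resX p y).coeff n = p.coeff (Finsupp.single 0 n) := by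
  rw [resX, Polynomial.finsetSum_coeff]
  simp only [Polynomial.coeff_C_mul_X_pow]
  rw [Finset.sum_eq_single (Finsupp.single 0 n)]
  · simp
  · intro d hd hne
    rw [if_neg]
    intro h
    have h1 := deg_le hp hd
    exact hne (eq_single_zero h.symm (by omega))
  · intro h
    rw [MvPolynomial.notMem_support_iff.1 h]; simp

lemma coeff_resY (hp : p.totalDegree ≤ n) (x : ℂ) :
    (resY p x).coeff n = p.coeff (Finsupp.single 1 n) := by
  rw [resY, Polynomial.finsetSum_coeff]
  simp only [Polynomial.coeff_C_mul_X_pow]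
  rw [Finset.sum_eq_single (Finsupp.single 1 n)]
  · simp
  · intro d hd hne
    rw [if_neg]
    intro h
    have h1 := deg_le hp hd
    exact hne (eq_single_one (by omega) h.symm)
  · intro h
    rw [MvPolynomial.notMem_support_iff.1 h]; simp

/-- The class of polynomials of the problem, in terms of coefficients. -/
structure Adm' (p : MvPolynomial (Fin 2) ℂ) (n : ℕ) : Prop where
  deg : p.totalDegree ≤ n
  stable : ∀ x y : ℂ, 0 < x.im → 0 < y.im → MvPolynomial.eval ![x, y] p ≠ 0
  par : ∀ d ∈ p.support, (d 0 + d 1) % 2 = n % 2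
  cx : p.coeff (Finsupp.single 0 n) ≠ 0
  cy : p.coeff (Finsupp.single 1 n) ≠ 0

variable (h : Adm' p n)
include h

lemma Adm'.boundX (x y : ℂ) (hx : 0 < x.im) (hy : 0 < y.im) :
    ‖p.coeff (Finsupp.single 0 n)‖ * x.im ^ n ≤ ‖MvPolynomial.eval ![x, y] p‖ := by
  rw [← coeff_resX h.deg y, ← eval_resX]
  apply lower_bound (natDegree_resX h.deg y) _ x hx
  intro r hr
  by_contra hcon
  push Not at hcon
  apply h.stable r y hcon hy
  rw [← eval_resX]
  exact hr

lemma Adm'.boundY (x y : ℂ) (hx : 0 < x.im) (hy : 0 < y.im) :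
    ‖p.coeff (Finsupp.single 1 n)‖ * y.im ^ n ≤ ‖MvPolynomial.eval ![x, y] p‖ := by
  rw [← coeff_resY h.deg x, ← eval_resY]
  apply lower_bound (natDegree_resY h.deg x) _ y hy
  intro r hr
  by_contra hcon
  push Not at hcon
  apply h.stable x r hx hcon
  rw [← eval_resY]
  exact hr

lemma Adm'.boundX_real (x : ℂ) (y : ℝ) (hx : 0 < x.im) :
    ‖p.coeff (Finsupp.single 0 n)‖ * x.im ^ n ≤ ‖MvPolynomial.eval ![x, (y : ℂ)] p‖ := by
  have hcont : Continuous (fun e : ℝ => ‖MvPolynomial.eval ![x, (y : ℂ) + (e : ℂ) * Complex.I] p‖) := by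
    simp only [eval_two]
    fun_prop
  have hlim := (hcont.tendsto 0).mono_left (nhdsWithin_le_nhds (s := Set.Ioi 0))
  simp only [Complex.ofReal_zero, zero_mul, add_zero] at hlim
  apply ge_of_tendsto hlim
  filter_upwards [self_mem_nhdsWithin] with e he
  apply h.boundX _ _ hx
  simpa using he

lemma Adm'.neg (x y : ℂ) :
    MvPolynomial.eval ![-x, -y] p = (-1) ^ n * MvPolynomial.eval ![x, y] p := by
  rw [eval_two, eval_two, Finset.mul_sum]
  apply Finset.sum_congr rfl
  intro d hd
  have h1 := h.par d hd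
  have h2 : (-1 : ℂ) ^ (d 0 + d 1) = (-1) ^ n := by
    rw [neg_one_pow_eq_pow_mod_two, h1, ← neg_one_pow_eq_pow_mod_two]
  rw [neg_pow x, neg_pow y, ← h2, pow_add]
  ring

lemma Adm'.real_roots (x : ℂ) (y : ℝ) (hxy : MvPolynomial.eval ![x, (y : ℂ)] p = 0) :
    x.im = 0 := by
  rcases lt_trichotomy x.im 0 with h1 | h1 | h1
  · exfalso
    have h2 := h.boundX_real (-x) (-y) (by simpa using h1)
    rw [Complex.ofReal_neg, h.neg, hxy, mul_zero, norm_zero] at h2
    have h3 : 0 < ‖p.coeff (Finsupp.single 0 n)‖ * (-x).im ^ n :=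
      mul_pos (norm_pos_iff.2 h.cx) (pow_pos (by simpa using h1) n)
    linarith
  · exact h1
  · exfalso
    have h2 := h.boundX_real x y h1
    rw [hxy, norm_zero] at h2
    have h3 : 0 < ‖p.coeff (Finsupp.single 0 n)‖ * x.im ^ n :=
      mul_pos (norm_pos_iff.2 h.cx) (pow_pos h1 n)
    linarith

/-- After division by the coefficient of `x ^ n` the polynomial is real at real points. -/
lemma Adm'.real_values (x y : ℝ) :
    star (MvPolynomial.eval ![(x : ℂ), (y : ℂ)] p / p.coeff (Finsupp.single 0 n))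
      = MvPolynomial.eval ![(x : ℂ), (y : ℂ)] p / p.coeff (Finsupp.single 0 n) := by
  set a := p.coeff (Finsupp.single 0 n) with ha
  have hs : (resX p y).Splits := IsAlgClosed.splits _
  have hlc : (resX p y).leadingCoeff = a := by
    have h1 : (resX p y).natDegree = n := by
      apply le_antisymm (natDegree_resX h.deg _)
      apply Polynomial.le_natDegree_of_ne_zero
      rw [coeff_resX h.deg]; exact h.cx
    rw [Polynomial.leadingCoeff, h1, coeff_resX h.deg]
  have h0 : resX p y ≠ 0 := by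
    intro h0
    rw [h0, Polynomial.leadingCoeff_zero] at hlc
    exact h.cx hlc.symm
  have key : ∀ s : Multiset ℂ, (∀ r ∈ s, r.im = 0) →
      star ((s.map (fun r => (x : ℂ) - r)).prod) = (s.map (fun r => (x : ℂ) - r)).prod := by
    intro s
    induction s using Multiset.induction_on with
    | empty => intro _; simp
    | cons a s ih =>
      intro hs
      rw [Multiset.map_cons, Multiset.prod_cons, star_mul', ih fun r hr =>
        hs r (Multiset.mem_cons_of_mem hr)]
      congr 1
      have h2 := hs a (Multiset.mem_cons_self a s)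
      apply Complex.ext
      · change ((starRingEnd ℂ) _).re = _
        simp
      · change ((starRingEnd ℂ) _).im = _
        simp [h2]
  have h2 : MvPolynomial.eval ![(x : ℂ), (y : ℂ)] p
      = a * ((resX p y).roots.map (fun r => (x : ℂ) - r)).prod := by
    rw [← eval_resX]
    conv_lhs => rw [hs.eq_prod_roots]
    rw [Polynomial.eval_mul, Polynomial.eval_C, hlc, Polynomial.eval_multiset_prod,
      Multiset.map_map]
    simp
  have ha0 : a ≠ 0 := h.cx
  rw [h2, mul_div_cancel_left₀ _ ha0]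
  apply key
  intro r hr
  have h3 := (Polynomial.mem_roots h0).1 hr
  apply h.real_roots r y
  rw [← eval_resX]
  exact h3

/-- The coefficients are real multiples of the coefficient of `x ^ n`. -/
lemma Adm'.real_coeff (d : Fin 2 →₀ ℕ) :
    ((p.coeff d / p.coeff (Finsupp.single 0 n)).re : ℂ)
      = p.coeff d / p.coeff (Finsupp.single 0 n) := by
  set a := p.coeff (Finsupp.single 0 n) with ha
  let q : MvPolynomial (Fin 2) ℂ := MvPolynomial.C a⁻¹ * p
  have hq : MvPolynomial.map (starRingEnd ℂ) q = q := by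
    apply MvPolynomial.funext_set (fun _ : Fin 2 => Set.range (Complex.ofReal : ℝ → ℂ))
    · intro i
      exact Set.infinite_range_of_injective Complex.ofReal_injective
    · intro v hv
      obtain ⟨x, hx⟩ := hv 0 (Set.mem_univ _)
      obtain ⟨y, hy⟩ := hv 1 (Set.mem_univ _)
      have hv' : v = ![(x : ℂ), (y : ℂ)] := by
        funext i
        fin_cases i
        · exact hx.symm
        · exact hy.symm
      have hreal : v = fun i => (starRingEnd ℂ) (v i) := by
        rw [hv']
        funext i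
        fin_cases i <;> simp
      have h1 : MvPolynomial.eval v (MvPolynomial.map (starRingEnd ℂ) q)
          = (starRingEnd ℂ) (MvPolynomial.eval v q) := by
        conv_lhs => rw [hreal]
        rw [MvPolynomial.eval_map]
        exact (MvPolynomial.eval₂_comp (starRingEnd ℂ) v q).symm
      rw [h1]
      have h2 : MvPolynomial.eval v q = MvPolynomial.eval ![(x : ℂ), (y : ℂ)] p / a := by
        rw [hv']
        simp only [q, map_mul, MvPolynomial.eval_C]
        rw [div_eq_inv_mul]
      rw [h2]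
      exact h.real_values x y
  have h3 := congrArg (MvPolynomial.coeff d) hq
  rw [MvPolynomial.coeff_map] at h3
  have h4 : MvPolynomial.coeff d q = p.coeff d / a := by
    simp only [q, MvPolynomial.coeff_C_mul]
    rw [div_eq_inv_mul]
  rw [h4] at h3
  exact Complex.conj_eq_iff_re.1 h3

/-- Growth of the zeros in `x` in terms of `y`. -/
lemma Adm'.growth : ∃ K : ℝ, 0 ≤ K ∧ ∀ x y : ℂ, MvPolynomial.eval ![x, y] p = 0 →
    ‖x‖ ≤ K * (1 + ‖y‖) := by
  set a := p.coeff (Finsupp.single 0 n) with ha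
  have ha0 : 0 < ‖a‖ := norm_pos_iff.2 h.cx
  set S : ℝ := ∑ d ∈ p.support, ‖p.coeff d‖ with hS
  have hS0 : 0 ≤ S := Finset.sum_nonneg fun _ _ => norm_nonneg _
  refine ⟨1 + S / ‖a‖, by positivity, ?_⟩
  intro x y hxy
  by_contra hcon
  push Not at hcon
  set t := 1 + ‖y‖ with ht
  have ht1 : 1 ≤ t := by rw [ht]; linarith [norm_nonneg y]
  have hyt : ‖y‖ ≤ t := by rw [ht]; linarith
  have hxt : t < ‖x‖ := by
    have : 0 ≤ S / ‖a‖ * t := by positivity
    nlinarith
  have hx1 : 1 ≤ ‖x‖ := by linarith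
  rw [eval_two] at hxy
  have hmem : Finsupp.single 0 n ∈ p.support := MvPolynomial.mem_support_iff.2 h.cx
  rw [← Finset.add_sum_erase _ _ hmem] at hxy
  have h1 : a * x ^ n = -∑ d ∈ p.support.erase (Finsupp.single 0 n),
      p.coeff d * (x ^ d 0 * y ^ d 1) := by
    have : (Finsupp.single (0 : Fin 2) n) 0 = n ∧ (Finsupp.single (0 : Fin 2) n) 1 = 0 := by simp
    rw [this.1, this.2, pow_zero, mul_one] at hxy
    linear_combination hxy
  rcases Nat.eq_zero_or_pos n with hn0 | hnpos
  · -- constant polynomial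
    have hempty : p.support.erase (Finsupp.single 0 n) = ∅ := by
      rw [Finset.eq_empty_iff_forall_notMem]
      intro d hd
      rw [Finset.mem_erase] at hd
      have := deg_le h.deg hd.2
      exact hd.1 (eq_single_zero (by omega) (by omega))
    rw [hempty, Finset.sum_empty, neg_zero] at h1
    rcases mul_eq_zero.1 h1 with h2 | h2
    · exact h.cx h2
    · rw [hn0, pow_zero] at h2; exact one_ne_zero h2
  have hterm : ∀ d ∈ p.support.erase (Finsupp.single 0 n),
      ‖p.coeff d * (x ^ d 0 * y ^ d 1)‖ ≤ ‖p.coeff d‖ * (t * ‖x‖ ^ (n - 1)) := by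
    intro d hd
    rw [Finset.mem_erase] at hd
    have hdn := deg_le h.deg hd.2
    rw [norm_mul, norm_mul, norm_pow, norm_pow]
    apply mul_le_mul_of_nonneg_left _ (norm_nonneg _)
    rcases Nat.eq_zero_or_pos (d 1) with h0 | hpos
    · have hlt : d 0 ≤ n - 1 := by
        by_contra hcon'
        exact hd.1 (eq_single_zero (by omega) h0)
      rw [h0, pow_zero, mul_one]
      calc ‖x‖ ^ d 0 ≤ ‖x‖ ^ (n - 1) := pow_le_pow_right₀ hx1 hlt
        _ ≤ t * ‖x‖ ^ (n - 1) := le_mul_of_one_le_left (by positivity) ht1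
    · obtain ⟨k, hk⟩ : ∃ k, d 1 = k + 1 := ⟨d 1 - 1, by omega⟩
      rw [hk]
      calc ‖x‖ ^ d 0 * ‖y‖ ^ (k + 1) ≤ ‖x‖ ^ d 0 * (t * ‖x‖ ^ k) := by
            apply mul_le_mul_of_nonneg_left _ (by positivity)
            rw [pow_succ']
            apply mul_le_mul hyt (pow_le_pow_left₀ (norm_nonneg _) (by linarith) k)
              (by positivity) (by linarith)
        _ = t * ‖x‖ ^ (d 0 + k) := by rw [pow_add]; ring
        _ ≤ t * ‖x‖ ^ (n - 1) := by
            apply mul_le_mul_of_nonneg_left _ (by linarith)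
            exact pow_le_pow_right₀ hx1 (by omega)
  have h2 : ‖a‖ * ‖x‖ ^ n ≤ S * (t * ‖x‖ ^ (n - 1)) := by
    calc ‖a‖ * ‖x‖ ^ n = ‖a * x ^ n‖ := by rw [norm_mul, norm_pow]
      _ = ‖∑ d ∈ p.support.erase (Finsupp.single 0 n), p.coeff d * (x ^ d 0 * y ^ d 1)‖ := by
          rw [h1, norm_neg]
      _ ≤ ∑ d ∈ p.support.erase (Finsupp.single 0 n), ‖p.coeff d * (x ^ d 0 * y ^ d 1)‖ :=
          norm_sum_le _ _
      _ ≤ ∑ d ∈ p.support.erase (Finsupp.single 0 n), ‖p.coeff d‖ * (t * ‖x‖ ^ (n - 1)) :=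
          Finset.sum_le_sum hterm
      _ ≤ ∑ d ∈ p.support, ‖p.coeff d‖ * (t * ‖x‖ ^ (n - 1)) := by
          apply Finset.sum_le_sum_of_subset_of_nonneg (Finset.erase_subset _ _)
          intro _ _ _
          positivity
      _ = S * (t * ‖x‖ ^ (n - 1)) := by rw [← Finset.sum_mul]
  have h3 : ‖x‖ ^ n = ‖x‖ * ‖x‖ ^ (n - 1) := by
    rw [← pow_succ']; congr 1; omega
  rw [h3] at h2
  have hpos : 0 < ‖x‖ ^ (n - 1) := by positivity
  have h4 : ‖a‖ * ‖x‖ ≤ S * t := by
    have : ‖a‖ * ‖x‖ * ‖x‖ ^ (n - 1) ≤ S * t * ‖x‖ ^ (n - 1) := by linarith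
    exact le_of_mul_le_mul_right this hpos
  have h5 : (1 + S / ‖a‖) * t * ‖a‖ < ‖x‖ * ‖a‖ := mul_lt_mul_of_pos_right hcon ha0
  have h6 : (1 + S / ‖a‖) * t * ‖a‖ = t * ‖a‖ + S * t := by field_simp
  have h7 : 0 < t * ‖a‖ := by positivity
  linarith

end

end Pool.Agent.H741R3.Skew
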